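import Pool.Agent.N975.Ph.Kw

/-!
# There is no odd homomorphism of level `3`, `5`, `7`: the Eisenstein crossing numbers
-/

set_option autoImplicit false

open Finset

namespace Pool.Agent.N975.Ph

open Pool.Agent.N975.Sym (ev act act_inv eqv ev_act ev10)
open Pool.Agent.N969.P17G (chP gnE bdE)
open Pool.Agent.N969.RQ (Fd)
open Pool.Agent.N974.GN (OddHom)

/-! ### prime levels -/

section homs

variable {R : Type*} [AddCommGroup R] [NoZeroSMulDivisors ℤ R] {φ : ℤ → ℤ → ℤ → ℤ → R}

/-- prime level: reduction to the generators with `c = 1` -/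
theorem zero_of_prime {p : ℕ} (hp : p.Prime) (hp2 : 2 < p) (H : OddHom (p : ℤ) φ)
    (g1 : ∀ {A B D : ℤ}, A * D - (p : ℤ) * (B * 1) = 1 → φ A B 1 D = 0) (n : ℕ) :
    ∀ a b c d : ℤ, a * d - (p : ℤ) * (b * c) = 1 → d.natAbs = n → φ a b c d = 0 := by
  obtain ⟨N, hN⟩ : ∃ N : ℤ, N = (p : ℤ) := ⟨_, rfl⟩
  have hpP : Prime (p : ℤ) := Nat.prime_iff_prime_int.1 hp
  rw [← hN] at H g1 ⊢
  have d_ne : ∀ {a b c d : ℤ}, a * d - N * (b * c) = 1 → d ≠ 0 := by
    rintro a b c d h rfl
    have h1 : (p : ℤ) ∣ 1 := ⟨-(b * c), by rw [hN] at h; linear_combination -h⟩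
    exact hpP.not_isUnit (isUnit_of_dvd_one h1)
  induction n using Nat.strong_induction_on with
  | _ n ih =>
    intro a b c d h hn
    have hd := d_ne h
    by_cases h1 : d = 1
    · subst h1
      exact H.base h
    by_cases h2 : d = -1
    · subst h2
      rw [← H.neg h]
      exact H.base (by linear_combination h)
    have hnd : ¬ d ∣ N * b := by
      rintro ⟨k, hk⟩
      have h3 : d ∣ 1 := ⟨a - k * c, by linear_combination -h - c * hk⟩
      rcases Int.isUnit_iff.1 (isUnit_of_dvd_one h3) with h4 | h4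
      · exact h1 h4
      · exact h2 h4
    wlog hdp : 0 < d generalizing a b c d
    · have h3 := this (-a) (-b) (-c) (-d) (by linear_combination h) (by rw [Int.natAbs_neg, hn])
        (by omega) (by omega) (by omega)
        (by
          intro h4
          apply hnd
          have h5 : N * -b = -(N * b) := by ring
          rw [h5, dvd_neg, neg_dvd] at h4
          exact h4) (by omega)
      rwa [H.neg h] at h3
    have hr0 := Int.emod_nonneg (N * b) hd
    have hr1 := Int.emod_lt_of_pos (N * b) hdp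
    have hr2 : N * b % d ≠ 0 := fun h3 => hnd (Int.dvd_of_emod_eq_zero h3)
    have hr3 := Int.emod_add_mul_ediv (N * b) d
    have s1 : ∀ D : ℤ, ¬ (p : ℤ) ∣ D → |N * b + D * d| < |d| → φ a b c d = 0 := by
      intro D h3 hlt
      have hcop : IsCoprime D N := by
        rw [hN, isCoprime_comm]
        exact hpP.coprime_iff_not_dvd.2 h3
      obtain ⟨u, v, huv⟩ := hcop
      have hAB : u * D - N * (-v * 1) = 1 := by linear_combination huv
      have h3 := H.hom (a := u) (b := -v) (c := 1) (d := D) (a' := a) (b' := b) (c' := c)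
        (d' := d) hAB h
      rw [g1 hAB, zero_add] at h3
      rw [← h3]
      refine ih _ ?_ _ _ _ _ ?_ rfl
      · rw [← hn]
        zify
        rw [mul_one]
        exact hlt
      · linear_combination h + (a * d - N * (b * c)) * hAB
    have hpz : (2 : ℤ) < p := by exact_mod_cast hp2
    obtain ⟨t, ht⟩ : ∃ t, t = N * b / d := ⟨_, rfl⟩
    rw [← ht] at hr3
    by_cases c1 : (p : ℤ) ∣ t
    · have c2 : ¬ (p : ℤ) ∣ t + 1 := by
        intro h4
        have h5 : (p : ℤ) ∣ 1 := by
          have := dvd_sub h4 c1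
          rwa [add_sub_cancel_left] at this
        have := Int.le_of_dvd one_pos h5
        omega
      refine s1 (-(t + 1)) (by rw [dvd_neg]; exact c2) ?_
      have e : N * b + -(t + 1) * d = N * b % d - d := by
        linear_combination -hr3
      rw [e, abs_of_pos hdp, abs_lt]
      constructor <;> omega
    · refine s1 (-t) (by rw [dvd_neg]; exact c1) ?_
      have e : N * b + -t * d = N * b % d := by
        linear_combination -hr3
      rw [e, abs_of_nonneg hr0, abs_of_pos hdp]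
      exact hr1

/-- an odd homomorphism vanishes on the elements of order `3` -/
theorem ord3 {N : ℤ} (H : OddHom N φ) {a b c d : ℤ} (h : a * d - N * (b * c) = 1)
    (ht : a + d = -1) : φ a b c d = 0 := by
  have h1 := H.hom h h
  have h2 := H.hom (a := a * a + b * (N * c)) (b := a * b + b * d) (c := c * a + d * c)
    (d := N * c * b + d * d) (a' := a) (b' := b) (c' := c) (d' := d)
    (by linear_combination (a * d - N * (b * c) + 1) * h) h
  have hd : d = -1 - a := by linarith
  subst hd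
  have e1 : (a * a + b * (N * c)) * a + (a * b + b * (-1 - a)) * (N * c) = 1 := by
    linear_combination (1 - a) * h
  have e2 : (a * a + b * (N * c)) * b + (a * b + b * (-1 - a)) * (-1 - a) = 0 := by
    linear_combination -b * h
  have e3 : (c * a + (-1 - a) * c) * a + (N * c * b + (-1 - a) * (-1 - a)) * c = 0 := by
    linear_combination -c * h
  have e4 : N * (c * a + (-1 - a) * c) * b + (N * c * b + (-1 - a) * (-1 - a)) * (-1 - a) = 1 := by
    linear_combination (a + 2) * h
  rw [e1, e2, e3, e4, H.one, h1] at h2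
  have h3 : (3 : ℤ) • φ a b c (-1 - a) = 0 := by
    rw [show (3 : ℤ) = 1 + 1 + 1 by norm_num, add_smul, add_smul, one_smul]
    exact h2.symm
  exact OddHom.smul_zero' (by norm_num) h3

/-- an odd homomorphism vanishes on the elements of order `4` -/
theorem ord4 {N : ℤ} (H : OddHom N φ) {a b c d : ℤ} (h : a * d - N * (b * c) = 1)
    (ht : a + d = 0) : φ a b c d = 0 := by
  have h1 := H.hom h h
  have hd : d = -a := by linarith
  subst hd
  have e1 : a * a + b * (N * c) = -1 := by linear_combination -h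
  have e2 : a * b + b * -a = -0 := by ring
  have e3 : c * a + -a * c = -0 := by ring
  have e4 : N * c * b + -a * -a = -1 := by linear_combination -h
  rw [e1, e2, e3, e4, H.neg (by ring), H.one] at h1
  have h3 : (2 : ℤ) • φ a b c (-a) = 0 := by
    rw [show (2 : ℤ) = 1 + 1 by norm_num, add_smul, one_smul]
    exact h1.symm
  exact OddHom.smul_zero' (by norm_num) h3

/-- there is no odd homomorphism of level `7` -/
theorem zero7 (H : OddHom 7 φ) : ∀ a b c d : ℤ, a * d - 7 * (b * c) = 1 → φ a b c d = 0 := by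
  have gen1 : ∀ {A B D : ℤ}, A * D - 7 * (B * 1) = 1 → φ A B 1 D = 0 := by
    intro A B D h
    have key : ∀ {A0 B0 D0 : ℤ}, A0 * D0 - 7 * (B0 * 1) = 1 → φ A0 B0 1 D0 = 0 →
        ((7 : ℤ) ∣ D - D0 ∨ (7 : ℤ) ∣ D + D0) → φ A B 1 D = 0 := by
      intro A0 B0 D0 h0 h1 h2
      rcases h2 with h2 | h2
      · rw [H.modD (by norm_num) h0 h (by rwa [mul_one]), h1]
      · have h3 := H.ref h0
        have h4 : (-A0) * (-D0) - 7 * (B0 * 1) = 1 := by linear_combination h0
        rw [H.modD (by norm_num) h4 h (by rwa [mul_one, sub_neg_eq_add]), h3, h1, neg_zero]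
    have hD7 : ¬ (7 : ℤ) ∣ D := by
      rintro ⟨k, rfl⟩
      have h1 : (7 : ℤ) ∣ 1 := ⟨A * k - B, by linear_combination -h⟩
      norm_num at h1
    have hc : ((7 : ℤ) ∣ D - 1 ∨ (7 : ℤ) ∣ D + 1) ∨ ((7 : ℤ) ∣ D - 2 ∨ (7 : ℤ) ∣ D + 2) ∨
        ((7 : ℤ) ∣ D - 4 ∨ (7 : ℤ) ∣ D + 4) := by omega
    rcases hc with hc | hc | hc
    · exact key (A0 := 1) (B0 := 0) (by norm_num) H.hV hc
    · exact key (A0 := -3) (B0 := -1) (D0 := 2) (by norm_num)
        (ord3 H (by norm_num) (by norm_num)) hc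
    · exact key (A0 := -5) (B0 := -3) (D0 := 4) (by norm_num)
        (ord3 H (by norm_num) (by norm_num)) hc
  intro a b c d h
  exact zero_of_prime (p := 7) (by norm_num) (by norm_num) (φ := φ) (by exact_mod_cast H)
    (fun {A B D} h => gen1 (by exact_mod_cast h)) d.natAbs a b c d (by exact_mod_cast h) rfl

/-- there is no odd homomorphism of level `5` -/
theorem zero5 (H : OddHom 5 φ) : ∀ a b c d : ℤ, a * d - 5 * (b * c) = 1 → φ a b c d = 0 := by
  have gen1 : ∀ {A B D : ℤ}, A * D - 5 * (B * 1) = 1 → φ A B 1 D = 0 := by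
    intro A B D h
    have key : ∀ {A0 B0 D0 : ℤ}, A0 * D0 - 5 * (B0 * 1) = 1 → φ A0 B0 1 D0 = 0 →
        ((5 : ℤ) ∣ D - D0 ∨ (5 : ℤ) ∣ D + D0) → φ A B 1 D = 0 := by
      intro A0 B0 D0 h0 h1 h2
      rcases h2 with h2 | h2
      · rw [H.modD (by norm_num) h0 h (by rwa [mul_one]), h1]
      · have h3 := H.ref h0
        have h4 : (-A0) * (-D0) - 5 * (B0 * 1) = 1 := by linear_combination h0
        rw [H.modD (by norm_num) h4 h (by rwa [mul_one, sub_neg_eq_add]), h3, h1, neg_zero]
    have hD5 : ¬ (5 : ℤ) ∣ D := by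
      rintro ⟨k, rfl⟩
      have h1 : (5 : ℤ) ∣ 1 := ⟨A * k - B, by linear_combination -h⟩
      norm_num at h1
    have hc : ((5 : ℤ) ∣ D - 1 ∨ (5 : ℤ) ∣ D + 1) ∨ ((5 : ℤ) ∣ D - 2 ∨ (5 : ℤ) ∣ D + 2) := by
      omega
    rcases hc with hc | hc
    · exact key (A0 := 1) (B0 := 0) (by norm_num) H.hV hc
    · exact key (A0 := -2) (B0 := -1) (D0 := 2) (by norm_num)
        (ord4 H (by norm_num) (by norm_num)) hc
  intro a b c d h
  exact zero_of_prime (p := 5) (by norm_num) (by norm_num) (φ := φ) (by exact_mod_cast H)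
    (fun {A B D} h => gen1 (by exact_mod_cast h)) d.natAbs a b c d (by exact_mod_cast h) rfl

end homs

noncomputable section

variable {A p : ℕ}

/-- the value of the character at a prime -/
theorem chP_prime (h : Fd A) (hp : p.Prime) (hp2 : p ≠ 2) : chP A p = jacobiSym A p := by
  have hpo : Odd p := hp.odd_of_ne_two hp2
  by_cases h2 : 2 ∣ A
  · have hE := ev_of_fd h h2
    rw [N974.PG.chP_eq hE, N974.Gen.ChP.chE_prime hE hp hp2]
    have h4 : (A : ℤ) = 4 * ((A / 4 : ℕ) : ℤ) := by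
      have := N974.Gen.ChP.ev_mod hE
      omega
    conv_rhs => rw [h4]
    have h5 : jacobiSym 4 p = 1 := by
      rw [show (4 : ℤ) = 2 ^ 2 by norm_num, jacobiSym.pow_left]
      refine N975.PG.jac_sq hp ?_
      intro h6
      have h7 : p ∣ 2 := by exact_mod_cast h6
      exact hp2 ((Nat.prime_dvd_prime_iff_eq hp Nat.prime_two).1 h7)
    rw [jacobiSym.mul_left, h5, one_mul]
  · obtain ⟨hsq, h4⟩ := sq_of_fd h h2
    rw [chP_odd hsq h2]
    have h3 := jacobiSym.quadratic_reciprocity_one_mod_four (a := A) (b := p) h4 hpo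
    exact h3.symm

/-- the orientation at `p` -/
def rp (p A : ℕ) (b : ℤ) : ℤ := if (p : ℤ) ∣ b - A then 1 else if (p : ℤ) ∣ b + A then -1 else 0

theorem orip (hp : p.Prime) (hp2 : p ≠ 2) (hpA : ¬ p ∣ A) : Ori p (rp p A) where
  per := by
    intro b b' h
    unfold rp
    have e1 : (p : ℤ) ∣ b' - A ↔ (p : ℤ) ∣ b - A := by
      have e : b' - A = (b' - b) + (b - A) := by ring
      rw [e]
      exact (dvd_add_right h)
    have e2 : (p : ℤ) ∣ b' + A ↔ (p : ℤ) ∣ b + A := by
      have e : b' + A = (b' - b) + (b + A) := by ring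
      rw [e]
      exact (dvd_add_right h)
    simp only [e1, e2]
  odd := by
    intro b
    unfold rp
    have hP := Nat.prime_iff_prime_int.1 hp
    have n1 : (p : ℤ) ∣ b - A → ¬ (p : ℤ) ∣ b + A := by
      intro h1 h2
      have h3 : (p : ℤ) ∣ 2 * A := by
        have := dvd_sub h2 h1
        have e : (b + A) - (b - A) = 2 * (A : ℤ) := by ring
        rwa [e] at this
      rcases hP.dvd_mul.1 h3 with h4 | h4
      · have h5 : p ∣ 2 := by exact_mod_cast h4
        exact hp2 ((Nat.prime_dvd_prime_iff_eq hp Nat.prime_two).1 h5)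
      · exact hpA (by exact_mod_cast h4)
    have e1 : (p : ℤ) ∣ -b - A ↔ (p : ℤ) ∣ b + A := by
      rw [← dvd_neg]
      have e : -(-b - A) = b + (A : ℤ) := by ring
      rw [e]
    have e2 : (p : ℤ) ∣ -b + A ↔ (p : ℤ) ∣ b - A := by
      rw [← dvd_neg]
      have e : -(-b + A) = b - (A : ℤ) := by ring
      rw [e]
    simp only [e1, e2]
    by_cases h1 : (p : ℤ) ∣ b - A
    · rw [if_pos h1, if_pos h1, if_neg (n1 h1)]
    · by_cases h2 : (p : ℤ) ∣ b + A
      · rw [if_pos h2, if_pos h2, if_neg h1, neg_neg]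
      · rw [if_neg h1, if_neg h2, if_neg h2, if_neg h1, neg_zero]

theorem rp_A (p A : ℕ) : rp p A A = 1 := by
  unfold rp
  rw [if_pos (by rw [sub_self]; exact dvd_zero _)]

/-- the weight of the forms of level `p` with their orientation -/
def wp (p A : ℕ) (q : ℤ × ℤ × ℤ) : ℤ :=
  if (p : ℤ) ∣ q.1 then (if (p : ℤ) ∣ q.2.1 - A then 1 else -1) else 0

open Classical in
/-- the crossing number of level `p` -/
def Fp (p A : ℕ) (x M : ℤ) : ℤ := ∑ᶠ q : ℤ × ℤ × ℤ,
  if q.2.1 ^ 2 - 4 * q.1 * q.2.2 = (A : ℤ) ^ 2 ∧ 0 < q.1 ∧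
    q.1 * x ^ 2 + q.2.1 * x * M + q.2.2 * M ^ 2 < 0 then wp p A q * gnE A q else 0

theorem Fp_eq (hp : p.Prime) (x M : ℤ) : Fp p A x M = Fk (kw p A (rp p A)) x M := by
  refine Fk_eq (k := kw p A (rp p A)) (wp p A) A (fun q hd => ?_)
    (fun q hd => if_neg fun h => hd h.1) x M
  have hP := Nat.prime_iff_prime_int.1 hp
  unfold kw wp
  by_cases h : (p : ℤ) ∣ q.1
  · rw [if_pos ⟨hd, h⟩, if_pos h]
    unfold rp
    by_cases h5 : (p : ℤ) ∣ q.2.1 - A
    · rw [if_pos h5, if_pos h5]
    · have h6 : (p : ℤ) ∣ (q.2.1 - A) * (q.2.1 + A) := by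
        have e : (q.2.1 - A) * (q.2.1 + A) = q.1 * (4 * q.2.2) := by linear_combination hd
        rw [e]
        exact h.mul_right _
      rw [if_neg h5, if_neg h5, if_pos ((hP.dvd_mul.1 h6).resolve_left h5)]
  · rw [if_neg (fun h' => h h'.2), if_neg h, zero_mul]

/-- the vanishing of the odd homomorphisms -/
def NoOdd (N : ℤ) : Prop := ∀ φ : ℤ → ℤ → ℤ → ℤ → ℤ, OddHom N φ →
  ∀ a b c d : ℤ, a * d - N * (b * c) = 1 → φ a b c d = 0

theorem no3 : NoOdd 3 := fun _ H a b c d h => zero3 H d.natAbs a b c d h rfl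
theorem no5 : NoOdd 5 := fun _ H => zero5 H
theorem no7 : NoOdd 7 := fun _ H => zero7 H

/-- cusps with denominator divisible by `p` -/
theorem low_inf (h : Fd A) (hp : p.Prime) (hp2 : p ≠ 2) (hpA : ¬ p ∣ A) (hz : NoOdd p)
    {x y M : ℤ} (hM : 0 < M) (hpM : (p : ℤ) ∣ M) (hxy : M ∣ x * y - 1) :
    2 * Fp p A x M = bdE A x M + bdE A y M := by
  obtain ⟨c, rfl⟩ := hpM
  obtain ⟨b, hb⟩ := hxy
  have hdet : x * y - b * (p * c) = 1 := by linear_combination hb
  have O := orip hp hp2 hpA
  have h1 := reg_inf h O hdet hM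
  rw [hz _ (hom_kw h O (by exact_mod_cast hp.pos)) _ _ _ _ (by linear_combination hdet), rp_A] at h1
  rw [Fp_eq hp]
  linarith

/-- cusps with denominator prime to `p` -/
theorem low_zero (h : Fd A) (hp : p.Prime) (hp2 : p ≠ 2) (hpA : ¬ p ∣ A) (hz : NoOdd p)
    {x c M : ℤ} (hM : 0 < M) (hxc : M ∣ p * x * c + 1) :
    2 * Fp p A x M = bdE A x M + jacobiSym A p * bdE A c M := by
  obtain ⟨a, ha⟩ := hxc
  have hdet : a * M - x * (p * c) = 1 := by linear_combination -ha
  have O := orip hp hp2 hpA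
  have hpz : (0 : ℤ) < p := by exact_mod_cast hp.pos
  have h1 := reg_zero h O hpz hdet hM
  rw [hz _ (hom_kw h O hpz) _ _ _ _ (by linear_combination hdet), rp_A] at h1
  rw [Fp_eq hp, ← chP_prime h hp hp2]
  linarith

end

end Pool.Agent.N975.Ph
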