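import Pool.Agent.N975.Ph.Kw
import Pool.Agent.N975.RQ.Frz
import Pool.Agent.N974.P15.SymA
import Pool.Agent.N973.P15G.Defs2

/-!
# Project P15G: `S_LOW`, `S_LOW0`, `S_SYMii`, `S_SYMio`, `S_SYMss`
-/

set_option autoImplicit false

open Finset

namespace Pool.Agent.N975.Ph

open Pool.Agent.N975.Sym (ev act act_inv eqv ev_act ev10)
open Pool.Agent.N975.S17 (sum_eqv)
open Pool.Agent.N969.P17G (chP gnE bdE)
open Pool.Agent.N969.RQ (Fd)
open Pool.Agent.N975.RQ (al dvd_act refl ev_refl exists15)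
open Pool.Agent.N974.GN (OddHom)
open Pool.Agent.N974.MF (Symb15)
open Pool.Agent.N969.P15 (Fp)
open Pool.Agent.N973.P15 (FA)
open Pool.Agent.N973.P15G (Ps Aii Aio Ass w3 w03 w0 w2 Fx S_LOW S_LOW0 S_SYMii S_SYMio S_SYMss)

noncomputable section

theorem fd_of {A : ℕ} (h : Ps A) : Fd A := by
  rcases h with ⟨h1, h2, h3⟩ | ⟨M, h1, h2, h3⟩
  · exact ⟨h3, Or.inl ⟨h1, h2⟩⟩
  · exact ⟨by omega, Or.inr ⟨M, h1, h2, h3⟩⟩

/-! ### orientations -/

/-- the orientation at `3` -/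
def r3 (A : ℕ) (b : ℤ) : ℤ := if (3 : ℤ) ∣ b - A then 1 else if (3 : ℤ) ∣ b + A then -1 else 0

/-- `b = ± A` modulo `15` -/
def r0 (A : ℕ) (b : ℤ) : ℤ := if (15 : ℤ) ∣ b - A then 1 else if (15 : ℤ) ∣ b + A then -1 else 0

/-- the mixed orientation -/
def r2 (A : ℕ) (b : ℤ) : ℤ := if (15 : ℤ) ∣ b - A ∨ (15 : ℤ) ∣ b + A then 0 else r3 A b

variable {A : ℕ}

theorem ori3 (h3 : ¬ 3 ∣ A) : Ori 3 (r3 A) where
  per := by
    intro b b' h
    unfold r3
    have e1 : (3 : ℤ) ∣ b' - A ↔ (3 : ℤ) ∣ b - A := by omega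
    have e2 : (3 : ℤ) ∣ b' + A ↔ (3 : ℤ) ∣ b + A := by omega
    simp only [e1, e2]
  odd := by
    intro b
    unfold r3
    have h3' : ¬ (3 : ℤ) ∣ A := by exact_mod_cast h3
    by_cases h1 : (3 : ℤ) ∣ b - A
    · rw [if_pos h1, if_neg (by omega), if_pos (by omega)]
    · by_cases h2 : (3 : ℤ) ∣ b + A
      · rw [if_neg h1, if_pos h2, if_pos (by omega), neg_neg]
      · rw [if_neg h1, if_neg h2, if_neg (by omega), if_neg (by omega), neg_zero]

theorem ori0 (h3 : ¬ 3 ∣ A) : Ori 15 (r0 A) where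
  per := by
    intro b b' h
    unfold r0
    have e1 : (15 : ℤ) ∣ b' - A ↔ (15 : ℤ) ∣ b - A := by omega
    have e2 : (15 : ℤ) ∣ b' + A ↔ (15 : ℤ) ∣ b + A := by omega
    simp only [e1, e2]
  odd := by
    intro b
    unfold r0
    have h3' : ¬ (3 : ℤ) ∣ A := by exact_mod_cast h3
    by_cases h1 : (15 : ℤ) ∣ b - A
    · rw [if_pos h1, if_neg (by omega), if_pos (by omega)]
    · by_cases h2 : (15 : ℤ) ∣ b + A
      · rw [if_neg h1, if_pos h2, if_pos (by omega), neg_neg]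
      · rw [if_neg h1, if_neg h2, if_neg (by omega), if_neg (by omega), neg_zero]

theorem ori2 (h3 : ¬ 3 ∣ A) : Ori 15 (r2 A) where
  per := by
    intro b b' h
    have e0 : r3 A b' = r3 A b := (ori3 h3).per b b' ((by norm_num : (3 : ℤ) ∣ 15).trans h)
    unfold r2
    have e1 : (15 : ℤ) ∣ b' - A ↔ (15 : ℤ) ∣ b - A := by omega
    have e2 : (15 : ℤ) ∣ b' + A ↔ (15 : ℤ) ∣ b + A := by omega
    simp only [e1, e2, e0]
  odd := by
    intro b
    unfold r2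
    rw [(ori3 h3).odd]
    by_cases h1 : (15 : ℤ) ∣ b - A ∨ (15 : ℤ) ∣ b + A
    · rw [if_pos h1, if_pos (by omega), neg_zero]
    · rw [if_neg h1, if_neg (by omega)]

theorem r3_A (A : ℕ) : r3 A A = 1 := by
  unfold r3
  rw [if_pos (by rw [sub_self]; exact dvd_zero _)]

theorem r0_A (A : ℕ) : r0 A A = 1 := by
  unfold r0
  rw [if_pos (by rw [sub_self]; exact dvd_zero _)]

theorem r2_A (A : ℕ) : r2 A A = 0 := by
  unfold r2
  rw [if_pos (Or.inl (by rw [sub_self]; exact dvd_zero _))]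

/-- the middle coefficient modulo a prime -/
theorem mid_cases {p : ℤ} (hp : Prime p) {q : ℤ × ℤ × ℤ}
    (hd : q.2.1 ^ 2 - 4 * q.1 * q.2.2 = (A : ℤ) ^ 2) (h : p ∣ q.1) :
    p ∣ q.2.1 - A ∨ p ∣ q.2.1 + A := by
  rw [← hp.dvd_mul]
  have e : (q.2.1 - A) * (q.2.1 + A) = q.1 * (4 * q.2.2) := by linear_combination hd
  rw [e]
  exact h.mul_right _

theorem p3 : Prime (3 : ℤ) := Int.prime_three
theorem p5 : Prime (5 : ℤ) := by norm_num

/-! ### the weights of the project -/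

theorem kw3_eq (h3 : ¬ 3 ∣ A) {q : ℤ × ℤ × ℤ}
    (hd : q.2.1 ^ 2 - 4 * q.1 * q.2.2 = (A : ℤ) ^ 2) : kw 3 A (r3 A) q = w3 A q * gnE A q := by
  unfold kw w3
  by_cases h : (3 : ℤ) ∣ q.1
  · rw [if_pos ⟨hd, h⟩, if_pos h]
    have h3' : ¬ (3 : ℤ) ∣ A := by exact_mod_cast h3
    have h4 := mid_cases p3 hd h
    unfold r3
    by_cases h5 : (3 : ℤ) ∣ q.2.1 - A
    · rw [if_pos h5, if_pos h5]
    · rw [if_neg h5, if_neg h5, if_pos (by omega)]
  · rw [if_neg (fun h' => h h'.2), if_neg h, zero_mul]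

theorem kw0_eq (h3 : ¬ 3 ∣ A) {q : ℤ × ℤ × ℤ}
    (hd : q.2.1 ^ 2 - 4 * q.1 * q.2.2 = (A : ℤ) ^ 2) : kw 15 A (r0 A) q = w0 A q * gnE A q := by
  have h3' : ¬ (3 : ℤ) ∣ A := by exact_mod_cast h3
  unfold kw w0 w3
  by_cases h : (15 : ℤ) ∣ q.1
  · have h5 : (5 : ℤ) ∣ q.1 := (by norm_num : (5 : ℤ) ∣ 15).trans h
    have h3q : (3 : ℤ) ∣ q.1 := (by norm_num : (3 : ℤ) ∣ 15).trans h
    rw [if_pos ⟨hd, h⟩, if_pos h3q]
    unfold r0
    by_cases h6 : (15 : ℤ) ∣ q.2.1 - A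
    · rw [if_pos h6, if_pos ⟨h5, Or.inl h6⟩, if_pos (by omega)]
    · by_cases h7 : (15 : ℤ) ∣ q.2.1 + A
      · rw [if_neg h6, if_pos h7, if_pos ⟨h5, Or.inr h7⟩, if_neg (by omega)]
      · rw [if_neg h6, if_neg h7, if_neg (by tauto)]
  · rw [if_neg (fun h' => h h'.2)]
    by_cases h5 : (5 : ℤ) ∣ q.1
    · have h3q : ¬ (3 : ℤ) ∣ q.1 := by omega
      rw [if_neg h3q, ite_self, zero_mul]
    · rw [if_neg (fun h' => h5 h'.1), zero_mul]

theorem kw2_eq (h3 : ¬ 3 ∣ A) {q : ℤ × ℤ × ℤ}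
    (hd : q.2.1 ^ 2 - 4 * q.1 * q.2.2 = (A : ℤ) ^ 2) : kw 15 A (r2 A) q = w2 A q * gnE A q := by
  have h3' : ¬ (3 : ℤ) ∣ A := by exact_mod_cast h3
  unfold kw w2 w3
  by_cases h : (15 : ℤ) ∣ q.1
  · have h5 : (5 : ℤ) ∣ q.1 := (by norm_num : (5 : ℤ) ∣ 15).trans h
    have h3q : (3 : ℤ) ∣ q.1 := (by norm_num : (3 : ℤ) ∣ 15).trans h
    have h4 := mid_cases p3 hd h3q
    rw [if_pos ⟨hd, h⟩, if_pos h3q]
    unfold r2 r3
    by_cases h6 : (15 : ℤ) ∣ q.2.1 - A ∨ (15 : ℤ) ∣ q.2.1 + A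
    · rw [if_pos h6, if_neg (by tauto)]
    · have hc : (5 : ℤ) ∣ q.1 ∧ ¬ ((15 : ℤ) ∣ q.2.1 - A ∨ (15 : ℤ) ∣ q.2.1 + A) := ⟨h5, h6⟩
      rw [if_neg h6, if_pos hc]
      by_cases h7 : (3 : ℤ) ∣ q.2.1 - A
      · rw [if_pos h7, if_pos h7]
      · rw [if_neg h7, if_neg h7, if_pos (by omega)]
  · rw [if_neg (fun h' => h h'.2)]
    by_cases h5 : (5 : ℤ) ∣ q.1
    · have h3q : ¬ (3 : ℤ) ∣ q.1 := by omega
      rw [if_neg h3q, ite_self, zero_mul]
    · rw [if_neg (fun h' => h5 h'.1), zero_mul]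

theorem kw_nd {N : ℤ} {ρ : ℤ → ℤ} {q : ℤ × ℤ × ℤ}
    (hd : ¬ q.2.1 ^ 2 - 4 * q.1 * q.2.2 = (A : ℤ) ^ 2) : kw N A ρ q = 0 :=
  if_neg fun h => hd h.1

theorem Fx3 (h3 : ¬ 3 ∣ A) (x M : ℤ) : Fx w3 A x M = Fk (kw 3 A (r3 A)) x M :=
  Fk_eq (w3 A) A (fun _ hd => kw3_eq h3 hd) (fun _ hd => kw_nd hd) x M

theorem Fx0 (h3 : ¬ 3 ∣ A) (x M : ℤ) : Fx w0 A x M = Fk (kw 15 A (r0 A)) x M :=
  Fk_eq (w0 A) A (fun _ hd => kw0_eq h3 hd) (fun _ hd => kw_nd hd) x M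

theorem Fx2 (h3 : ¬ 3 ∣ A) (x M : ℤ) : Fx w2 A x M = Fk (kw 15 A (r2 A)) x M :=
  Fk_eq (w2 A) A (fun _ hd => kw2_eq h3 hd) (fun _ hd => kw_nd hd) x M

/-! ### level `3` -/

theorem phi3 (h : Fd A) (h3 : ¬ 3 ∣ A) {a b c d : ℤ} (hdet : a * d - 3 * (b * c) = 1) :
    Phi 3 (kw 3 A (r3 A)) a b c d = 0 :=
  zero3 (hom_kw h (ori3 h3) (by norm_num)) d.natAbs a b c d hdet rfl

/-- **LOW** -/
theorem t_LOW : S_LOW := by
  intro A hA h3 x y M hM h3M hxy
  have h := fd_of hA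
  obtain ⟨c, rfl⟩ := h3M
  obtain ⟨b, hb⟩ := hxy
  have hdet : x * y - b * (3 * c) = 1 := by linear_combination hb
  have h1 := reg_inf h (ori3 h3) hdet hM
  rw [phi3 h h3 (by linear_combination hdet), r3_A] at h1
  rw [Fx3 h3]
  linarith

/-- **LOW0** -/
theorem t_LOW0 : S_LOW0 := by
  intro A hA h3 x c M hM hxc
  have h := fd_of hA
  obtain ⟨a, ha⟩ := hxc
  have hdet : a * M - x * (3 * c) = 1 := by linear_combination -ha
  have h1 := reg_zero h (ori3 h3) (by norm_num) hdet hM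
  rw [phi3 h h3 (by linear_combination hdet), r3_A] at h1
  have h2 := chP_three h
  rw [Fx3 h3, ← h2]
  linarith

/-! ### level `15` -/

/-- the mean condition at `1 / 3` -/
theorem mz_third (h : Fd A) {ρ : ℤ → ℤ} (O : Ori 15 ρ) : MZ A 5 1 0 3 1 (kw 15 A ρ) := by
  intro b hb
  have hb2 : b ^ 2 = (A : ℤ) ^ 2 := by rcases hb with rfl | rfl <;> ring
  have e0 : ∀ C : ℤ, act 1 (-0) (-3) 1 (0, b, C) = (9 * C - 3 * b, b - 6 * C, C) := by
    intro C
    unfold act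
    simp only [Prod.mk.injEq]
    refine ⟨by ring, by ring, by ring⟩
  refine ⟨2 * b, fun C hC => ?_, ?_⟩
  · rw [e0] at hC
    by_contra h1
    apply hC
    unfold kw
    rw [if_neg]
    rintro ⟨-, h2⟩
    simp only at h2
    exact h1 (by omega)
  · have e : ∀ j ∈ Ico (0 : ℤ) A, kw 15 A ρ (act 1 (-0) (-3) 1 (0, b, 2 * b + 5 * j)) =
        (ρ (4 * b) * chP A 5) * chP A j := by
      intro j _
      have h1 : gnE A (act 1 (-0) (-3) 1 (0, b, 2 * b + 5 * j)) = chP A 5 * chP A j := by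
        rw [gnE_act h (by simp only; linear_combination hb2) (by norm_num), gnE_inf h,
          ← (chr h).mul]
        refine (chr h).per _ _ ?_
        rcases hb with rfl | rfl
        · exact ⟨2, by ring⟩
        · exact ⟨-2, by ring⟩
      unfold kw
      rw [h1, e0]
      simp only
      rw [if_pos, O.per (4 * b) (b - 6 * (2 * b + 5 * j)) ⟨-b - 2 * j, by ring⟩]
      · ring
      · refine ⟨by linear_combination hb2, ⟨b + 3 * j, by ring⟩⟩
    rw [Finset.sum_congr rfl e, ← Finset.mul_sum, sum_Ico (chr h), mul_zero]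

theorem parab15 (h : Fd A) {ρ : ℤ → ℤ} (O : Ori 15 ρ) :
    Phi 15 (kw 15 A ρ) (-14) 5 (-3) 16 = 0 := by
  have h1 := parab (chr h).z (wt_kw h O) (x := 1) (x' := 0) (m := 3) (m' := 1) (w := 5) (n := 3)
    (by norm_num) (by norm_num) (by norm_num) (mz_third h O)
  norm_num at h1
  exact h1

/-- comparison of the homomorphisms of level `15` with the odd symbol -/
theorem cmp (h : Fd A) {ρ : ℤ → ℤ} (O : Ori 15 ρ) {s : ℚ → ℤ} {al : ℕ → ℤ} (g : Symb15 s al)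
    {a b c d : ℤ} (hdet : a * d - b * (15 * c) = 1) : s (1 / 4) * Phi 15 (kw 15 A ρ) a b c d =
      Phi 15 (kw 15 A ρ) 4 1 1 4 * s ((b : ℚ) / d) :=
  cmp15 g (hom_kw h O (by norm_num)) (parab15 h O) (by linear_combination hdet)

theorem s14_ne {s : ℚ → ℤ} {al : ℕ → ℤ} (g : Symb15 s al) : s (1 / 4) ≠ 0 := by
  rw [g.s14]
  exact mul_ne_zero two_ne_zero (T3.s13_ne g)

/-- the mixed orientation at the cusps of the class of zero -/
theorem sym2 (h : Fd A) (h3 : ¬ 3 ∣ A) {x M : ℤ} (hM : 0 < M) (hxM : IsCoprime x M)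
    (hM15 : IsCoprime M 15) : Fx w2 A x M = Fx w2 A 1 4 * Fp x M := by
  obtain ⟨s, al, g⟩ := exists15
  have hcop : IsCoprime M (15 * x) := IsCoprime.mul_right hM15 hxM.symm
  obtain ⟨u, v, huv⟩ := hcop
  have hdet : u * M - x * (15 * -v) = 1 := by linear_combination huv
  have h1 := reg_zero h (ori2 h3) (by norm_num) hdet hM
  have h2 := reg_zero h (ori2 h3) (N := 15) (a := 4) (x := 1) (c := 1) (M := 4) (by norm_num)
    (by norm_num) (by norm_num)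
  rw [r2_A] at h1 h2
  have h3' := cmp h (ori2 h3) g hdet
  have h4 := N975.Sym.t_SYM (N975.T1.symbM_of g) hM.ne' (x := x)
    (IsCoprime.mul_left hM15.symm hxM)
  rw [h1, h2, h4] at h3'
  rw [Fx2 h3, Fx2 h3]
  have h5 := s14_ne g
  have h6 : s (1 / 4) * (4 * Fk (kw 15 A (r2 A)) x M) =
      s (1 / 4) * (4 * (Fk (kw 15 A (r2 A)) 1 4 * Fp x M)) := by linear_combination h3'
  have h7 := mul_left_cancel₀ h5 h6
  linarith

/-- **SYMss** -/
theorem t_SYMss : S_SYMss := by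
  intro A hA
  have h3 : ¬ 3 ∣ A := by
    have := hA.2.1
    omega
  exact ⟨Fx w2 A 1 4, fun x M hM hxM hM15 => sym2 (fd_of hA.1) h3 hM hxM hM15⟩

/-! ### the Atkin-Lehner operator at `5` -/

theorem chP_five (h : Fd A) : chP A 5 = jacobiSym A 5 := by
  by_cases h2 : 2 ∣ A
  · have hE := ev_of_fd h h2
    rw [N974.PG.chP_eq hE]
    have h3 := N974.Gen.ChP.chE_prime hE (p := 5) (by norm_num) (by norm_num)
    push_cast at h3
    rw [h3]
    have h4 : (A : ℤ) = 4 * ((A : ℤ) / 4) := by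
      have := N974.Gen.ChP.ev_mod hE
      omega
    conv_rhs => rw [h4]
    rw [jacobiSym.mul_left, show jacobiSym 4 5 = 1 by norm_num, one_mul]
  · obtain ⟨hsq, h4⟩ := sq_of_fd h h2
    rw [chP_odd hsq h2]
    have h3 := jacobiSym.quadratic_reciprocity_one_mod_four (a := A) (b := 5) h4
      (by decide)
    push_cast at h3
    exact h3.symm

theorem five_inert (h : Fd A) (h5 : A % 5 = 2 ∨ A % 5 = 3) : chP A 5 = -1 := by
  rw [chP_five h, jacobiSym.mod_left]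
  have : (A : ℤ) % ((5 : ℕ) : ℤ) = 2 ∨ (A : ℤ) % ((5 : ℕ) : ℤ) = 3 := by
    push_cast
    omega
  rcases this with h1 | h1 <;> rw [h1] <;> norm_num

/-- the Atkin-Lehner operator exchanges the two orientations -/
theorem kw_al (h : Fd A) (h3 : ¬ 3 ∣ A) (h5 : ¬ 5 ∣ A) {q : ℤ × ℤ × ℤ} (hq : 5 * 3 ∣ q.1) :
    kw 15 A (r2 A) (al 5 3 1 (-2) 1 (-1) q) = chP A 5 * kw 15 A (r0 A) q := by
  have h3' : ¬ (3 : ℤ) ∣ A := by exact_mod_cast h3
  have h5' : ¬ (5 : ℤ) ∣ A := by exact_mod_cast h5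
  have hq15 : (15 : ℤ) ∣ q.1 := by
    have : (5 : ℤ) * 3 = 15 := by norm_num
    rwa [this] at hq
  have hdisc := RQ.al_disc (Q := 5) (R := 3) (α := 1) (B := -2) (γ := 1) (δ := -1) (by norm_num)
    (by norm_num) (q := q) ((by norm_num : (5 : ℤ) ∣ 15).trans hq15)
  have hdv := RQ.al_dvd (Q := 5) (R := 3) (α := 1) (B := -2) (γ := 1) (δ := -1) hq
  by_cases hd : q.2.1 ^ 2 - 4 * q.1 * q.2.2 = (A : ℤ) ^ 2
  · have g1 := gnE_al h (Q := 5) (R := 3) (α := 1) (B := -2) (γ := 1) (δ := -1) (by norm_num)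
      (by norm_num) hq hd (by
        rw [Int.isCoprime_iff_gcd_eq_one]
        have h6 : Nat.Coprime 5 A := (Nat.Prime.coprime_iff_not_dvd (by norm_num)).2 h5
        exact h6)
    unfold kw
    rw [if_pos ⟨by rw [hdisc]; exact hd, by
      have : (5 : ℤ) * 3 = 15 := by norm_num
      rwa [this] at hdv⟩, if_pos ⟨hd, hq15⟩, g1]
    have hmid : (al 5 3 1 (-2) 1 (-1) q).2.1 = -4 * q.1 - 11 * q.2.1 - 30 * q.2.2 := by
      unfold al
      simp only
      ring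
    have m3 := mid_cases p3 hd ((by norm_num : (3 : ℤ) ∣ 15).trans hq15)
    have m5 := mid_cases p5 hd ((by norm_num : (5 : ℤ) ∣ 15).trans hq15)
    have hρ : r2 A (al 5 3 1 (-2) 1 (-1) q).2.1 = r0 A q.2.1 := by
      rw [hmid]
      obtain ⟨t, ht⟩ := hq15
      unfold r2 r0 r3
      rcases m3 with m3 | m3 <;> rcases m5 with m5 | m5
      · rw [if_neg (by omega), if_pos (by omega), if_pos (by omega)]
      · rw [if_pos (by omega), if_neg (by omega), if_neg (by omega)]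
      · rw [if_pos (by omega), if_neg (by omega), if_neg (by omega)]
      · rw [if_neg (by omega), if_neg (by omega), if_pos (by omega), if_neg (by omega),
          if_pos (by omega)]
    rw [hρ]
    ring
  · rw [kw_nd (by rw [hdisc]; exact hd), kw_nd hd, mul_zero]

/-- the two homomorphisms are equal -/
theorem phi02 (h : Fd A) (h3 : ¬ 3 ∣ A) (h5 : A % 5 = 2 ∨ A % 5 = 3) {a b c d : ℤ}
    (hdet : a * d - b * (15 * c) = 1) :
    Phi 15 (kw 15 A (r0 A)) a b c d = Phi 15 (kw 15 A (r2 A)) a b c d := by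
  obtain ⟨s, al, g⟩ := exists15
  have h4 := s14_ne g
  have c0 := cmp h (ori0 h3) g hdet
  have c2 := cmp h (ori2 h3) g hdet
  -- the constants
  have hk : ∀ q : ℤ × ℤ × ℤ, 5 * 3 ∣ q.1 →
      kw 15 A (r2 A) (RQ.al 5 3 1 (-2) 1 (-1) q) = -1 * kw 15 A (r0 A) q := by
    intro q hq
    rw [kw_al h h3 (by omega) hq, five_inert h h5]
  have h53 : (5 : ℤ) * 3 = 15 := by norm_num
  have hN : ∀ (ρ : ℤ → ℤ) q, kw 15 A ρ q ≠ 0 → (5 : ℤ) * 3 ∣ q.1 := by
    intro ρ q hq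
    rw [h53]
    by_contra h6
    exact hq (if_neg fun h7 => h6 h7.2)
  have hal := Phi_al (Q := 5) (R := 3) (α := 1) (B := -2) (γ := 1) (δ := -1)
    (k := kw 15 A (r0 A)) (k' := kw 15 A (r2 A)) (D := (A : ℤ) ^ 2) (by norm_num) (by norm_num)
    (by rw [h53]; exact wt_kw h (ori0 h3)) (hN _) (hN _) (ε := -1) (by norm_num) hk
    (a := 4) (b := 1) (c := 1) (d := 4) (by norm_num)
  norm_num at hal
  have c3 := cmp h (ori0 h3) g (a := 19) (b := -7) (c := 2) (d := -11) (by norm_num)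
  rw [hal] at c3
  have e1 : (((-7 : ℤ) : ℚ) / ((-11 : ℤ) : ℚ)) = -(4 / 11) + 1 := by norm_num
  rw [e1, g.per, g.neg, g.s411, ← g.s14] at c3
  have h7 : s (1 / 4) * Phi 15 (kw 15 A (r0 A)) 4 1 1 4 =
      s (1 / 4) * Phi 15 (kw 15 A (r2 A)) 4 1 1 4 := by linear_combination c3
  have h8 := mul_left_cancel₀ h4 h7
  rw [h8] at c0
  exact mul_left_cancel₀ h4 (c0.trans c2.symm)

/-! ### additivity of the crossing numbers -/

theorem fk_fin {N D : ℤ} {k : ℤ × ℤ × ℤ → ℤ} (H : Wt N D k) (x : ℤ) {M : ℤ} (hM : M ≠ 0) :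
    (Function.support fun q : ℤ × ℤ × ℤ => if 0 < q.1 ∧ ev q x M < 0 then k q else 0).Finite := by
  refine (TA_fin H (x := x) hM).subset ?_
  intro q hq
  have hq' : (if 0 < q.1 ∧ ev q x M < 0 then k q else 0) ≠ 0 := hq
  simp only [ne_eq, ite_eq_right_iff, Classical.not_imp] at hq'
  obtain ⟨⟨h2, h3⟩, h4⟩ := hq'
  show TA k x M q ≠ 0
  unfold TA
  rw [if_pos ⟨h2.ne', h3.ne⟩, Int.sign_eq_one_of_pos h2, Int.sign_eq_neg_one_of_neg h3]
  intro h5
  apply h4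
  omega

/-- the weight of the forms with first coefficient divisible by `3` and prime to `5` -/
def k03 (A : ℕ) (q : ℤ × ℤ × ℤ) : ℤ := if (5 : ℤ) ∣ q.1 then 0 else kw 3 A (r3 A) q

theorem k3_split (h3 : ¬ 3 ∣ A) (q : ℤ × ℤ × ℤ) :
    kw 3 A (r3 A) q = k03 A q + kw 15 A (r0 A) q + kw 15 A (r2 A) q := by
  have h3' : ¬ (3 : ℤ) ∣ A := by exact_mod_cast h3
  unfold k03
  by_cases h5 : (5 : ℤ) ∣ q.1
  · rw [if_pos h5]
    by_cases hd : q.2.1 ^ 2 - 4 * q.1 * q.2.2 = (A : ℤ) ^ 2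
    · by_cases h3q : (3 : ℤ) ∣ q.1
      · have h15 : (15 : ℤ) ∣ q.1 := by omega
        have m3 := mid_cases p3 hd h3q
        unfold kw
        rw [if_pos ⟨hd, h3q⟩, if_pos ⟨hd, h15⟩, if_pos ⟨hd, h15⟩]
        have e : r3 A q.2.1 = r0 A q.2.1 + r2 A q.2.1 := by
          unfold r0 r2 r3
          by_cases h6 : (15 : ℤ) ∣ q.2.1 - A
          · rw [if_pos (by omega : (3 : ℤ) ∣ q.2.1 - A), if_pos h6, if_pos (Or.inl h6), add_zero]
          · by_cases h7 : (15 : ℤ) ∣ q.2.1 + A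
            · rw [if_neg (by omega : ¬ (3 : ℤ) ∣ q.2.1 - A), if_pos (by omega), if_neg h6,
                if_pos h7, if_pos (Or.inr h7), add_zero]
            · have hc : ¬ ((15 : ℤ) ∣ q.2.1 - A ∨ (15 : ℤ) ∣ q.2.1 + A) := not_or.2 ⟨h6, h7⟩
              rw [if_neg h6, if_neg h7, if_neg hc, zero_add]
        rw [e]
        ring
      · have h15 : ¬ (15 : ℤ) ∣ q.1 := by omega
        unfold kw
        rw [if_neg (fun h => h3q h.2), if_neg (fun h => h15 h.2), if_neg (fun h => h15 h.2)]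
        ring
    · rw [kw_nd hd, kw_nd hd, kw_nd hd]
      ring
  · have h15 : ¬ (15 : ℤ) ∣ q.1 := by omega
    rw [if_neg h5]
    have e1 : kw 15 A (r0 A) q = 0 := if_neg fun h => h15 h.2
    have e2 : kw 15 A (r2 A) q = 0 := if_neg fun h => h15 h.2
    rw [e1, e2]
    ring

theorem Fx03 (h3 : ¬ 3 ∣ A) (x M : ℤ) : Fx w03 A x M = Fk (k03 A) x M := by
  refine Fk_eq (w03 A) A (fun q hd => ?_) (fun q hd => ?_) x M
  · unfold k03 w03
    by_cases h5 : (5 : ℤ) ∣ q.1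
    · rw [if_pos h5, if_pos h5, zero_mul]
    · rw [if_neg h5, if_neg h5, kw3_eq h3 hd]
  · unfold k03
    rw [kw_nd hd, ite_self]

theorem Fk_split (h : Fd A) (h3 : ¬ 3 ∣ A) (x : ℤ) {M : ℤ} (hM : M ≠ 0) :
    Fk (kw 3 A (r3 A)) x M = Fk (k03 A) x M + Fk (kw 15 A (r0 A)) x M +
      Fk (kw 15 A (r2 A)) x M := by
  have f3 := fk_fin (wt_kw h (ori3 h3)) x hM
  have f0 := fk_fin (wt_kw h (ori0 h3)) x hM
  have f2 := fk_fin (wt_kw h (ori2 h3)) x hM
  have f4 : (Function.support fun q : ℤ × ℤ × ℤ =>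
      if 0 < q.1 ∧ ev q x M < 0 then k03 A q else 0).Finite := by
    refine f3.subset ?_
    intro q hq h0
    apply hq
    show (if 0 < q.1 ∧ ev q x M < 0 then k03 A q else 0) = 0
    have h0' : (if 0 < q.1 ∧ ev q x M < 0 then kw 3 A (r3 A) q else 0) = 0 := h0
    by_cases h1 : 0 < q.1 ∧ ev q x M < 0
    · rw [if_pos h1] at h0' ⊢
      unfold k03
      rw [h0', ite_self]
    · rw [if_neg h1]
  unfold Fk
  rw [← finsum_add_distrib f4 f0, ← finsum_add_distrib ((f4.union f0).subset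
    (Function.support_add _ _)) f2]
  apply finsum_congr
  intro q
  by_cases h1 : 0 < q.1 ∧ ev q x M < 0
  · rw [if_pos h1, if_pos h1, if_pos h1, if_pos h1]
    exact k3_split h3 q
  · rw [if_neg h1, if_neg h1, if_neg h1, if_neg h1]
    ring

/-- **SYMii** -/
theorem t_SYMii : S_SYMii := by
  intro A hA
  have h := fd_of hA.1
  have h3 : ¬ 3 ∣ A := by
    have := hA.2.1
    omega
  have h5 := hA.2.2
  refine ⟨Fx w2 A 1 4, fun x M hM hxM hM15 => sym2 h h3 hM hxM hM15, ?_⟩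
  intro x M hM hxM h15
  obtain ⟨s, al, g⟩ := exists15
  obtain ⟨c, rfl⟩ := h15
  obtain ⟨u, v, huv⟩ := hxM
  have hdet : x * u - (-v) * (15 * c) = 1 := by linear_combination huv
  have hc : c ≠ 0 := by
    rintro rfl
    omega
  -- the three homomorphisms
  have e3 := reg_inf h (ori3 h3) (x := x) (b := -v) (c := 5 * c) (d := u)
    (by linear_combination hdet) (by linarith)
  have e0 := reg_inf h (ori0 h3) hdet hM
  have e2 := reg_inf h (ori2 h3) hdet hM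
  rw [phi3 h h3 (by linear_combination hdet), r3_A] at e3
  rw [r0_A] at e0
  rw [r2_A] at e2
  have e02 := phi02 h h3 h5 hdet
  have hsp := Fk_split h h3 x hM.ne'
  have h35 : (3 : ℤ) * (5 * c) = 15 * c := by ring
  rw [h35] at e3
  have key : 4 * Fk (k03 A) x (15 * c) = -(2 * Phi 15 (kw 15 A (r2 A)) x (-v) c u) := by
    linarith
  -- the symbol
  have c2 := cmp h (ori2 h3) g hdet
  have h2 := reg_zero h (ori2 h3) (N := 15) (a := 4) (x := 1) (c := 1) (M := 4) (by norm_num)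
    (by norm_num) (by norm_num)
  rw [r2_A] at h2
  have hinf := g.aff_inf (A := x) (B := -v) (C := c) (D := u) hdet hc
  have hA1 := N974.SymA.t_SYMA s al g x (15 * c) hM.ne' ⟨5 * c, by ring⟩ ⟨u, v, huv⟩
  have e4 : ((x : ℚ) / ((15 * c : ℤ) : ℚ)) = (x : ℚ) / (15 * c) := by push_cast; rfl
  rw [e4, hinf] at hA1
  rw [hA1, h2] at c2
  have h14 := g.s14
  rw [Fx03 h3, Fx2 h3]
  have h6 : s (1 / 4) * (4 * Fk (k03 A) x (15 * c)) =
      s (1 / 4) * (4 * (Fk (kw 15 A (r2 A)) 1 4 * FA x (15 * c))) := by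
    rw [key]
    have h7 : s (1 / 4) * -(2 * Phi 15 (kw 15 A (r2 A)) x (-v) c u) =
        -2 * (s (1 / 4) * Phi 15 (kw 15 A (r2 A)) x (-v) c u) := by ring
    rw [h7, c2, h14]
    ring
  have h8 := mul_left_cancel₀ (s14_ne g) h6
  linarith

/-! ### `5 ∣ A` -/

theorem van5 (h : Fd A) (h5 : 5 ∣ A) {ρ : ℤ → ℤ} {x M : ℤ} (h5M : ¬ (5 : ℤ) ∣ M)
    (q : ℤ × ℤ × ℤ) (hq : kw 15 A ρ q ≠ 0) : ev q x M ≠ 0 := by
  intro h0
  apply hq
  by_cases hc : q.2.1 ^ 2 - 4 * q.1 * q.2.2 = (A : ℤ) ^ 2 ∧ 15 ∣ q.1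
  · obtain ⟨hd, h15⟩ := hc
    have h5A : (5 : ℤ) ∣ A := by exact_mod_cast h5
    have h5q : (5 : ℤ) ∣ q.1 := (by norm_num : (5 : ℤ) ∣ 15).trans h15
    have h5b : (5 : ℤ) ∣ q.2.1 := by
      rcases mid_cases p5 hd h5q with h1 | h1 <;> omega
    have h5c : (5 : ℤ) ∣ q.2.2 := by
      have h1 : (5 : ℤ) ∣ q.2.2 * M ^ 2 := by
        have e : q.2.2 * M ^ 2 = -(q.1 * x ^ 2 + q.2.1 * (x * M)) := by
          unfold ev at h0
          linear_combination h0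
        rw [e]
        exact (dvd_neg).2 (dvd_add (h5q.mul_right _) (h5b.mul_right _))
      exact (p5.dvd_mul.1 h1).resolve_right fun h2 => h5M (p5.dvd_of_dvd_pow h2)
    unfold kw
    rw [gnE_van h (by norm_num : Nat.Prime 5) h5 h5q h5c, mul_zero, ite_self]
  · exact if_neg hc

/-- the regularized crossing number is odd -/
theorem RG_neg {k : ℤ × ℤ × ℤ → ℤ} (hp : Par k 1) (x M : ℤ) : RG k (-x) M = -RG k x M := by
  unfold RG
  rw [← finsum_neg_distrib, ← sum_eqv (fun q => k q * (si q - Int.sign (ev q (-x) M))) refl]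
  apply finsum_congr
  intro q
  have hk : k (refl q) = 1 * k q := hp q.1 q.2.1 q.2.2
  have e1 : si (refl q) = -si q := by
    unfold si
    show Int.sign (-q.1) + (if -q.1 = 0 then Int.sign (-q.2.2) else 0) = _
    rw [Int.sign_neg, Int.sign_neg]
    simp only [neg_eq_zero]
    split_ifs <;> ring
  rw [hk, e1, ev_refl, neg_neg, Int.sign_neg]
  ring

/-- **SYMio** -/
theorem t_SYMio : S_SYMio := by
  intro A hA
  have h := fd_of hA.1
  have h3 : ¬ 3 ∣ A := by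
    have := hA.2.1
    omega
  have h5 := hA.2.2
  obtain ⟨s, al, g⟩ := exists15
  have h14 := s14_ne g
  have h13 := T3.s13_ne g
  have H := wt_kw h (ori0 h3)
  -- the cocycle relation
  have coc : ∀ x M : ℤ, IsCoprime x M → (3 : ℤ) ∣ M → ¬ (5 : ℤ) ∣ M →
      s (1 / 4) * (RG (kw 15 A (r0 A)) x M - RG (kw 15 A (r0 A)) 1 3) =
        Phi 15 (kw 15 A (r0 A)) 4 1 1 4 * (s ((x : ℚ) / M) - s (1 / 3)) := by
    intro x M hxM h3M h5M
    obtain ⟨M', rfl⟩ := h3M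
    have h5c : IsCoprime (5 : ℤ) (3 * M') := p5.coprime_iff_not_dvd.2 h5M
    obtain ⟨u, v, huv⟩ : IsCoprime (5 * x) (3 * M') := IsCoprime.mul_left h5c hxM
    obtain ⟨t, ht⟩ : ∃ t, t = x * M' - 1 := ⟨_, rfl⟩
    have hdet : (x - 3 * (v * t)) * (M' - 5 * (u * t)) - (v * t) * (15 * (u * t)) = 1 := by
      linear_combination (-t) * huv - ht
    have e1 : (x - 3 * (v * t)) * 1 + v * t * 3 = x := by ring
    have e2 : 15 * (u * t) * 1 + (M' - 5 * (u * t)) * 3 = 3 * M' := by ring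
    have h1 := RG_coc H (x := 1) (M := 3) (Or.inl one_ne_zero)
      (fun q hq => van5 h h5 (by norm_num) q hq) hdet
    rw [e1, e2] at h1
    have hK : 15 * (u * t) * 1 + (M' - 5 * (u * t)) * 3 ≠ 0 := by
      rw [e2]
      intro h0
      apply h5M
      rw [h0]
      exact dvd_zero _
    have h2 := g.aff' hdet (x := 1) (c := 3) (by norm_num) hK
    rw [e1, e2] at h2
    have c0 := cmp h (ori0 h3) g hdet
    rw [h1, h2]
    push_cast at c0 ⊢
    rw [add_sub_cancel_right, add_sub_cancel_left]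
    exact c0
  have h33 := coc 1 3 (by norm_num) (by norm_num) (by norm_num)
  have key0 : s (1 / 4) * RG (kw 15 A (r0 A)) 1 3 =
      Phi 15 (kw 15 A (r0 A)) 4 1 1 4 * s (1 / 3) := by
    have h1 := coc (-1) 3 (by norm_num) (by norm_num) (by norm_num)
    rw [RG_neg (par_kw h _)] at h1
    have e : (((-1 : ℤ) : ℚ) / ((3 : ℤ) : ℚ)) = -(1 / 3) := by norm_num
    rw [e, g.neg] at h1
    linarith
  refine ⟨2 * Fx w0 A 1 3 - bdE A 1 3, ?_⟩
  intro x M hM hxM h3M h5M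
  have hx := RG_eq h (ori0 h3) (x := x) hM (fun q hq => van5 h h5 h5M q hq)
  have h1 := RG_eq h (ori0 h3) (x := 1) (M := 3) (by norm_num)
    (fun q hq => van5 h h5 (by norm_num) q hq)
  rw [r0_A] at hx h1
  have hc := coc x M hxM h3M h5M
  have hA1 := N974.SymA.t_SYMA s al g x M hM.ne' h3M hxM
  rw [hA1] at hc
  rw [Fx0 h3, Fx0 h3]
  have h6 : s (1 / 4) * RG (kw 15 A (r0 A)) x M =
      s (1 / 4) * (-(RG (kw 15 A (r0 A)) 1 3 * FA x M)) := by
    linear_combination hc + (1 + FA x M) * key0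
  have h7 := mul_left_cancel₀ h14 h6
  rw [hx, h1] at h7
  linarith

end

end Pool.Agent.N975.Ph
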