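import Pool.Agent.N975.Ph.Phi
import Pool.Agent.N974.MF.SymbDefs
import Pool.Agent.N974.Gen.S21

/-!
# The homomorphisms of weights are odd parabolic homomorphisms; comparison with the odd symbols;
Atkin-Lehner operators; level `3`
-/

set_option autoImplicit false

open Finset

namespace Pool.Agent.N975.Ph

open Pool.Agent.N975.Sym (ev act act_inv eqv ev_act ev10)
open Pool.Agent.N975.S17 (sign_cases fin_eqv sum_eqv finsum_family finite_family ev_neg_neg ev01)
open Pool.Agent.N974.GN (OddHom)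
open Pool.Agent.N975.RQ (al al_ev al_dvd al_bij restrict)

noncomputable section

variable {N D : ℤ} {k : ℤ × ℤ × ℤ → ℤ}

/-- the mean of the weights of the forms vanishing at the cusp `x / m` of width `w` is zero -/
def MZ (A w x x' m m' : ℤ) (k : ℤ × ℤ × ℤ → ℤ) : Prop := ∀ b, b = A ∨ b = -A → ∃ c0 : ℤ,
  (∀ C : ℤ, k (act m' (-x') (-m) x (0, b, C)) ≠ 0 → w ∣ C - c0) ∧
  ∑ j ∈ Ico 0 A, k (act m' (-x') (-m) x (0, b, c0 + w * j)) = 0

theorem back {x x' m m' : ℤ} (hσ : x * m' - x' * m = 1) (b C : ℤ) :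
    ev (act m' (-x') (-m) x (0, b, C)) x m = 0 := by
  rw [ev_act]
  have e1 : m' * x + -x' * m = 1 := by linear_combination hσ
  have e2 : -m * x + x * m = 0 := by ring
  rw [e1, e2]
  unfold ev
  ring

/-- the condition is trivial at the cusps where no form of the support vanishes -/
theorem MZ_free {A w x x' m m' : ℤ} (hσ : x * m' - x' * m = 1)
    (hv : ∀ q, k q ≠ 0 → ev q x m ≠ 0) : MZ A w x x' m m' k := by
  have h1 : ∀ b C, k (act m' (-x') (-m) x (0, b, C)) = 0 := by
    intro b C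
    by_contra h
    exact hv _ h (back hσ b C)
  intro b _
  exact ⟨0, fun C hC => absurd (h1 b C) hC, Finset.sum_eq_zero fun j _ => h1 _ _⟩

/-- the homomorphism of a weight with the mean conditions at infinity and at zero -/
theorem oddHom {A : ℤ} (hA : 0 < A) (H : Wt N (A ^ 2) k) (P : Par k 1) (hN : 0 < N)
    (mi : MZ A 1 1 0 0 1 k) (m0 : MZ A N 0 (-1) 1 0 k) : OddHom N (Phi N k) where
  hom := by
    intro a b c d a' b' c' d' h h'
    exact Phi_hom H (by linear_combination h) (by linear_combination h')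
  neg := by
    intro a b c d _
    exact Phi_neg a b c d
  odd := by
    intro a b c d _
    rw [Phi_par P, neg_one_mul]
  hT := by
    have h := Phi_parab hA H (x := 1) (x' := 0) (m := 0) (m' := 1) (w := 1) (n := 0) (by norm_num)
      one_pos (by ring) mi
    have e1 : (1 : ℤ) - 1 * 1 * 0 = 1 := by norm_num
    have e2 : (1 : ℤ) * 1 ^ 2 = 1 := by norm_num
    have e3 : (1 : ℤ) + 1 * 1 * 0 = 1 := by norm_num
    rw [e1, e2, e3, neg_zero] at h
    exact h
  hV := by
    have h := Phi_parab hA H (x := 0) (x' := -1) (m := 1) (m' := 0) (w := N) (n := 1) (by norm_num)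
      hN (by ring) m0
    have e1 : (1 : ℤ) - N * 0 * 1 = 1 := by ring
    have e2 : N * 0 ^ 2 = 0 := by ring
    have e3 : (1 : ℤ) + N * 0 * 1 = 1 := by ring
    rw [e1, e2, e3] at h
    have h1 := Phi_par (N := N) P 1 0 1 1
    rw [neg_zero, h] at h1
    linarith

/-- the value at the parabolic element of a cusp -/
theorem parab {A : ℤ} (hA : 0 < A) (H : Wt N (A ^ 2) k) {x x' m m' w n : ℤ}
    (hσ : x * m' - x' * m = 1) (hw0 : 0 < w) (hn : w * m ^ 2 = N * n)
    (hmean : MZ A w x x' m m' k) :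
    Phi N k (1 - w * x * m) (w * x ^ 2) (-n) (1 + w * x * m) = 0 :=
  Phi_parab hA H hσ hw0 hn hmean

/-! ### Atkin-Lehner operators -/

variable {Q R α B γ δ : ℤ}

theorem act_al (hQ : Q ≠ 0) {q : ℤ × ℤ × ℤ} (hq : Q ∣ q.1) : act (Q * α) B (Q * R * γ) (Q * δ) q =
    (Q * (al Q R α B γ δ q).1, Q * (al Q R α B γ δ q).2.1, Q * (al Q R α B γ δ q).2.2) := by
  obtain ⟨t, ht⟩ := hq
  obtain ⟨A, b, c⟩ := q
  simp only at ht
  subst ht
  unfold act al
  simp only [Int.mul_ediv_cancel_left _ hQ, Prod.mk.injEq]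
  refine ⟨by ring, by ring, by ring⟩

theorem tr_scale (t A b c x y z w : ℤ) :
    tr (act x y z w (t * A, t * b, t * c)) = t * tr (act x y z w (A, b, c)) := by
  rw [tr_act, tr_act]
  ring

/-- **the homomorphisms under an Atkin-Lehner operator** -/
theorem Phi_al {k' : ℤ × ℤ × ℤ → ℤ} (hQ : 0 < Q) (hdet : Q * α * δ - R * B * γ = 1)
    (H : Wt (Q * R) D k) (hN : ∀ q, k q ≠ 0 → Q * R ∣ q.1) (hN' : ∀ q, k' q ≠ 0 → Q * R ∣ q.1)
    {ε : ℤ} (hε : ε * ε = 1)
    (hk : ∀ q : ℤ × ℤ × ℤ, Q * R ∣ q.1 → k' (al Q R α B γ δ q) = ε * k q) {a b c d : ℤ}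
    (h : a * d - b * (Q * R * c) = 1) :
    Phi (Q * R) k ((Q * α * a + B * (Q * R) * c) * δ - (Q * α * b + B * d) * (R * γ))
      (-(α * a * B) - B ^ 2 * R * c + Q * α ^ 2 * b + α * B * d)
      (γ * δ * a + Q * δ ^ 2 * c - R * γ ^ 2 * b - γ * δ * d)
      (-(R * γ * a * B) - δ * (Q * R) * c * B + Q * R * γ * α * b + Q * δ * α * d) =
      ε * Phi (Q * R) k' a b c d := by
  set a' := (Q * α * a + B * (Q * R) * c) * δ - (Q * α * b + B * d) * (R * γ) with ha'
  set b' := -(α * a * B) - B ^ 2 * R * c + Q * α ^ 2 * b + α * B * d with hb'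
  set c' := γ * δ * a + Q * δ ^ 2 * c - R * γ ^ 2 * b - γ * δ * d with hc'
  set d' := -(R * γ * a * B) - δ * (Q * R) * c * B + Q * R * γ * α * b + Q * δ * α * d with hd'
  have hg' : a' * d' - b' * (Q * R * c') = 1 := by
    have e : a' * d' - b' * (Q * R * c') =
        (a * d - b * (Q * R * c)) * (Q * α * δ - R * B * γ) ^ 2 := by
      rw [ha', hb', hc', hd']
      ring
    rw [e, h, hdet]
    norm_num
  -- the base point
  have hW : (Q * α) * (Q * δ) - B * (Q * R * γ) ≠ 0 := by
    have : (Q * α) * (Q * δ) - B * (Q * R * γ) = Q := by linear_combination Q * hdet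
    rw [this]
    exact hQ.ne'
  obtain ⟨p1, p2⟩ := pos_of_det hW
  have hfin := F_fin H p1 p2.le (Or.inl p2)
  have hfin' : (Function.support fun q => k q * (Int.sign (tr q) -
      Int.sign (tr (act (Q * α) B (Q * R * γ) (Q * δ) q)))).Finite := by
    refine hfin.subset ?_
    intro q hq
    unfold F
    rw [Function.mem_support, ← tr_act]
    exact hq
  have e9 : ε * Phi (Q * R) k' a b c d = ∑ᶠ q, ε • V k' a b (Q * R * c) d q := by
    rw [← smul_finsum]
    rfl
  rw [e9, Phi_base H hfin' hg']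
  -- both sums are over the forms of level `N`
  have s1 : Function.support (fun q => k q * (Int.sign (tr (act (Q * α) B (Q * R * γ) (Q * δ) q)) -
      Int.sign (tr (act (Q * α) B (Q * R * γ) (Q * δ) (act a' b' (Q * R * c') d' q))))) ⊆
      {q | Q * R ∣ q.1} := by
    intro q hq
    refine hN q fun h0 => hq ?_
    show k q * _ = 0
    rw [h0, zero_mul]
  have s2 : Function.support (fun q => ε • V k' a b (Q * R * c) d q) ⊆ {q | Q * R ∣ q.1} := by
    intro q hq
    refine hN' q fun h0 => hq ?_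
    show ε • V k' a b (Q * R * c) d q = 0
    unfold V
    rw [h0, zero_mul, smul_zero]
  rw [← restrict s1, ← restrict s2]
  refine finsum_mem_eq_of_bijOn (al Q R α B γ δ) (al_bij hQ.ne' hdet) ?_
  intro q hq
  have hq' : Q * R ∣ q.1 := hq
  have hqQ : Q ∣ q.1 := (Dvd.intro _ rfl).trans hq'
  have e0 : act (Q * α) B (Q * R * γ) (Q * δ) (act a' b' (Q * R * c') d' q) =
      act a b (Q * R * c) d (act (Q * α) B (Q * R * γ) (Q * δ) q) := by
    rw [act_act, act_act]
    congr 1
    · rw [ha', hb']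
      linear_combination (Q * α * a + B * (Q * R * c)) * hdet
    · rw [ha', hb']
      linear_combination (Q * α * b + B * d) * hdet
    · rw [hc', hd']
      linear_combination (Q * R * γ * a + Q * δ * (Q * R * c)) * hdet
    · rw [hc', hd']
      linear_combination (Q * R * γ * b + Q * δ * d) * hdet
  have hal : al Q R α B γ δ q = ((al Q R α B γ δ q).1, (al Q R α B γ δ q).2.1,
      (al Q R α B γ δ q).2.2) := rfl
  have e1 : tr (act (Q * α) B (Q * R * γ) (Q * δ) q) = Q * tr (al Q R α B γ δ q) := by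
    rw [act_al hQ.ne' hqQ]
    unfold tr
    ring
  have e2 : tr (act a b (Q * R * c) d (act (Q * α) B (Q * R * γ) (Q * δ) q)) =
      Q * tr (act a b (Q * R * c) d (al Q R α B γ δ q)) := by
    rw [act_al hQ.ne' hqQ, tr_scale]
  show k q * (Int.sign (tr (act (Q * α) B (Q * R * γ) (Q * δ) q)) -
      Int.sign (tr (act (Q * α) B (Q * R * γ) (Q * δ) (act a' b' (Q * R * c') d' q)))) =
    ε • V k' a b (Q * R * c) d (al Q R α B γ δ q)
  rw [e0, e1, e2, Int.sign_mul, Int.sign_mul, Int.sign_eq_one_of_pos hQ, one_mul, one_mul]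
  unfold V
  rw [hk q hq', smul_eq_mul]
  linear_combination (-(k q * (Int.sign (tr (al Q R α B γ δ q)) -
    Int.sign (tr (act a b (Q * R * c) d (al Q R α B γ δ q)))))) * hε

/-! ### level `3` -/

/-- the value at `T ^ j g` -/
theorem left_T {R : Type*} [AddCommGroup R] [NoZeroSMulDivisors ℤ R] {φ : ℤ → ℤ → ℤ → ℤ → R}
    (H : OddHom N φ) {a b c d : ℤ} (h : a * d - N * (b * c) = 1) (j : ℤ) :
    φ (a + j * (N * c)) (b + j * d) c d = φ a b c d := by
  have h1 := H.hom (a := 1) (b := j) (c := 0) (d := 1) (a' := a) (b' := b) (c' := c) (d' := d)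
    (by ring) h
  rw [H.hTk, zero_add] at h1
  rw [← h1]
  congr 1 <;> ring

/-- the value at `V ^ j g` -/
theorem left_V {R : Type*} [AddCommGroup R] [NoZeroSMulDivisors ℤ R] {φ : ℤ → ℤ → ℤ → ℤ → R}
    (H : OddHom N φ) {a b c d : ℤ} (h : a * d - N * (b * c) = 1) (j : ℤ) :
    φ a b (c + j * a) (d + N * j * b) = φ a b c d := by
  have h1 := H.hom (a := 1) (b := 0) (c := j) (d := 1) (a' := a) (b' := b) (c' := c) (d' := d)
    (by ring) h
  rw [H.hVk, zero_add] at h1
  rw [← h1]
  congr 1 <;> ring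

/-- the nearest multiple -/
theorem near (x : ℤ) {m : ℤ} (hm : m ≠ 0) : ∃ j : ℤ, 2 * |x + j * m| ≤ |m| := by
  have key : ∀ m : ℤ, 0 < m → ∃ j : ℤ, 2 * |x + j * m| ≤ |m| := by
    intro m hm
    have h1 := Int.emod_add_mul_ediv x m
    have h2 := Int.emod_nonneg x hm.ne'
    have h3 := Int.emod_lt_of_pos x hm
    by_cases h4 : 2 * (x % m) ≤ m
    · refine ⟨-(x / m), ?_⟩
      have e : x + -(x / m) * m = x % m := by linear_combination -h1
      rw [e, abs_of_nonneg h2, abs_of_pos hm]
      exact h4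
    · refine ⟨-(x / m) - 1, ?_⟩
      have e : x + (-(x / m) - 1) * m = x % m - m := by linear_combination -h1
      rw [e, abs_of_neg (by linarith), abs_of_pos hm]
      linarith
  rcases lt_or_gt_of_ne hm with h | h
  · obtain ⟨j, hj⟩ := key (-m) (by omega)
    refine ⟨-j, ?_⟩
    rw [abs_neg] at hj
    have e : x + -j * m = x + j * -m := by ring
    rw [e]
    exact hj
  · exact key m h

/-- **there is no odd parabolic homomorphism of level `3`** -/
theorem zero3 {R : Type*} [AddCommGroup R] [NoZeroSMulDivisors ℤ R] {φ : ℤ → ℤ → ℤ → ℤ → R}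
    (H : OddHom 3 φ) (n : ℕ) : ∀ a b c d : ℤ, a * d - 3 * (b * c) = 1 → d.natAbs = n →
    φ a b c d = 0 := by
  induction n using Nat.strong_induction_on with
  | _ n ih =>
    intro a b c d h hn
    have hd : d ≠ 0 := by
      rintro rfl
      omega
    obtain ⟨j, hj⟩ := near b hd
    rw [← left_T H h j]
    have h' : (a + j * (3 * c)) * d - 3 * ((b + j * d) * c) = 1 := by linear_combination h
    obtain ⟨b1, hb1⟩ : ∃ b1, b1 = b + j * d := ⟨_, rfl⟩
    obtain ⟨a1, ha1⟩ : ∃ a1, a1 = a + j * (3 * c) := ⟨_, rfl⟩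
    rw [← hb1] at hj
    rw [← hb1, ← ha1] at h' ⊢
    by_cases h0 : b1 = 0
    · rw [h0] at h' ⊢
      have h1 : a1 * d = 1 := by linear_combination h'
      rcases Int.isUnit_iff.1 (isUnit_of_dvd_one (Dvd.intro_left _ h1)) with h2 | h2
      · subst h2
        exact H.base (by linear_combination h')
      · subst h2
        rw [← H.neg h']
        exact H.base (by linear_combination h')
    · have h3b : (3 * b1 : ℤ) ≠ 0 := by omega
      obtain ⟨i, hi⟩ := near d h3b
      rw [← left_V H h' i]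
      refine ih _ ?_ _ _ _ _ (by linear_combination h') rfl
      have e : d + 3 * i * b1 = d + i * (3 * b1) := by ring
      rw [e, ← hn]
      zify
      rw [abs_mul, show |(3 : ℤ)| = 3 by rfl] at hi
      have h4 : 0 < |d| := abs_pos.2 hd
      omega

/-! ### level `15` -/

section lev15

variable {s : ℚ → ℤ} {a : ℕ → ℤ}

theorem frac {x y u v : ℤ} (hy : y ≠ 0) (hv : v ≠ 0) (h : x * v = u * y) : (x : ℚ) / y = u / v := by
  have hy' : (y : ℚ) ≠ 0 := by exact_mod_cast hy
  have hv' : (v : ℚ) ≠ 0 := by exact_mod_cast hv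
  rw [div_eq_div_iff hy' hv']
  exact_mod_cast h

theorem d_ne15 {a b c d : ℤ} (h : a * d - 15 * (b * c) = 1) : d ≠ 0 := by
  rintro rfl
  omega

/-- the odd symbol of level `15` as an odd homomorphism -/
theorem oddS15 (g : N974.MF.Symb15 s a) :
    OddHom 15 (fun _ b _ d : ℤ => s ((b : ℚ) / d)) where
  hom := by
    intro a b c d a' b' c' d' h h'
    have hD : 15 * c * b' + d * d' ≠ 0 := d_ne15 (a := a * a' + b * (15 * c'))
      (b := a * b' + b * d') (c := c * a' + d * c')
      (by linear_combination h' + (a' * d' - 15 * (b' * c')) * h)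
    have h1 := g.aff' (A := a) (B := b) (C := c) (D := d) (by linear_combination h) (x := b')
      (c := d') (d_ne15 h') hD
    show s (((a * b' + b * d' : ℤ) : ℚ) / ((15 * c * b' + d * d' : ℤ) : ℚ)) = _
    rw [h1, add_comm]
  neg := by
    intro a b c d _
    push_cast
    rw [neg_div_neg_eq]
  odd := by
    intro a b c d _
    push_cast
    rw [neg_div, g.neg]
  hT := by
    have := g.per 0
    rw [zero_add, g.s0] at this
    push_cast
    rw [div_one]
    exact this
  hV := by
    push_cast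
    rw [zero_div]
    exact g.s0

theorem par15 (g : N974.MF.Symb15 s a) : s (((5 : ℤ) : ℚ) / ((16 : ℤ) : ℚ)) = 0 := by
  have h1 := g.aff (A := -14) (B := 5) (C := -3) (D := 16) (by norm_num) (1 / 3) (by norm_num)
  norm_num at h1
  push_cast
  exact h1

/-- **comparison at level `15`** -/
theorem cmp15 (g : N974.MF.Symb15 s a) {φ : ℤ → ℤ → ℤ → ℤ → ℤ} (H : OddHom 15 φ)
    (hP : φ (-14) 5 (-3) 16 = 0) {a b c d : ℤ} (h : a * d - 15 * (b * c) = 1) :
    s (1 / 4) * φ a b c d = φ 4 1 1 4 * s ((b : ℚ) / d) := by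
  have K := oddS15 g
  have E : OddHom 15 (fun a b c d : ℤ => s (1 / 4) * φ a b c d - φ 4 1 1 4 * s ((b : ℚ) / d)) := by
    refine ⟨?_, ?_, ?_, ?_, ?_⟩
    · intro a b c d a' b' c' d' h h'
      have h1 := H.hom h h'
      have h2 := K.hom h h'
      beta_reduce at h2 ⊢
      rw [h1, h2]
      ring
    · intro a b c d h
      have h2 := K.neg h
      beta_reduce at h2 ⊢
      rw [H.neg h, h2]
    · intro a b c d h
      have h2 := K.odd h
      beta_reduce at h2 ⊢
      rw [H.odd h, h2]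
      ring
    · have h2 := K.hT
      beta_reduce at h2 ⊢
      rw [H.hT, h2]
      ring
    · have h2 := K.hV
      beta_reduce at h2 ⊢
      rw [H.hV, h2]
      ring
  have h1 := E.zero15 (by
    have h2 := par15 g
    rw [hP, h2]
    ring) (by
    push_cast
    ring) a b c d h
  exact sub_eq_zero.1 h1

end lev15

end

end Pool.Agent.N975.Ph
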