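import Pool.Agent.N871.P15G.Sig
import Pool.Agent.N970.P17G.Ort
import Pool.Agent.N975.PG.Gn
import Pool.Agent.N975.CHB

/-!
# Project P15G: `S_ORT` and `S_ORT4`
-/

set_option autoImplicit false

open Finset

namespace Pool.Agent.N975.Ort

open Pool.Agent.N969.P15 (V3 Ev c2 chE)
open Pool.Agent.N877.P21 (ip vec rr)
open Pool.Agent.N218.P21 (mem_vec)
open Pool.Agent.N969.P17G (sgp sg2)
open Pool.Agent.N871.P15G (HasP lo hasP sg_prod par sqf_of neg_ip ip_neg)
open Pool.Agent.N973.P15G (Ng N15 Ud Nis Ps pA V P Q sg s15 ce S_ORT S_ORT4 om O6 O6_om sum_om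
  ind_ram)
open Pool.Agent.N970.P17G (sum_unitary hs_sq sg2_ne sg2_zero)
open Pool.Agent.N975.PG (jac_sq jac_congr jac_zero)

noncomputable section

/-! ### the unit -/

/-- the unit -/
def uu (v : V3) : V3 := ![-v 0, -v 2, -v 1]

theorem uu0 (v : V3) : uu v 0 = -v 0 := rfl
theorem uu1 (v : V3) : uu v 1 = -v 2 := rfl
theorem uu2 (v : V3) : uu v 2 = -v 1 := rfl

theorem uu_uu (v : V3) : uu (uu v) = v := by
  ext i
  fin_cases i
  · show - -v 0 = v 0
    ring
  · show - -v 1 = v 1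
    ring
  · show - -v 2 = v 2
    ring

theorem ip_self (v : V3) : ip v v = 3 * v 0 ^ 2 + 4 * v 1 ^ 2 + 4 * v 2 ^ 2 + 4 * (v 1 * v 2) := by
  unfold ip
  ring

theorem ip_uu (v : V3) : ip (uu v) (uu v) = ip v v := by
  rw [ip_self, ip_self, uu0, uu1, uu2]
  ring

theorem T_uu {n : ℤ} {v : V3} (hv : ip v v = n) : (n + ip v (uu v)) / 2 = (v 1 - v 2) ^ 2 := by
  have h : n + ip v (uu v) = 2 * (v 1 - v 2) ^ 2 := by
    rw [← hv, ip_self]
    unfold ip
    rw [uu0, uu1, uu2]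
    ring
  rw [h]
  exact Int.mul_ediv_cancel_left _ two_ne_zero

/-! ### the local signs of a vector and its image -/

theorem mod8 (x : ℤ) : x ^ 2 % 8 = 0 ∨ x ^ 2 % 8 = 1 ∨ x ^ 2 % 8 = 4 := by
  have h : x % 8 = 0 ∨ x % 8 = 1 ∨ x % 8 = 2 ∨ x % 8 = 3 ∨ x % 8 = 4 ∨ x % 8 = 5 ∨ x % 8 = 6 ∨
    x % 8 = 7 := by omega
  rcases h with h | h | h | h | h | h | h | h <;> rw [pow_two, Int.mul_emod, h] <;> norm_num

theorem c2_case {n : ℕ} (hE : Ev n) {v : V3} (hv : ip v v = n) (ht : v 1 - v 2 = 0) :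
    c2 n (-1) = 1 := by
  obtain ⟨m, rfl, hs, hm⟩ := hE
  have h1 : v 2 = v 1 := by linarith
  rw [ip_self, h1] at hv
  push_cast at hv
  have h2 : (v 0) % 2 = 0 := by
    rcases Int.emod_two_eq_zero_or_one (v 0) with h | h
    · exact h
    · exfalso
      have h3 : (v 0 ^ 2) % 2 = 1 := by rw [pow_two, Int.mul_emod, h]; norm_num
      have h4 : 3 * v 0 ^ 2 = 4 * (m - 3 * v 1 ^ 2) := by linear_combination hv
      omega
  obtain ⟨x, hx⟩ : ∃ x, v 0 = 2 * x := ⟨v 0 / 2, by omega⟩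
  have h5 : (m : ℤ) = 3 * (x ^ 2 + v 1 ^ 2) := by
    rw [hx] at hv
    linarith
  have h6 := mod8 x
  have h7 := mod8 (v 1)
  generalize x ^ 2 = X at h5 h6
  generalize v 1 ^ 2 = Y at h5 h7
  unfold c2
  rw [if_neg (by norm_num)]
  have h8 : ¬ (4 * m) % 16 = 4 := by omega
  have h9 : ¬ (4 * m) % 32 = 8 := by omega
  rw [if_neg h8, if_neg h9]
  norm_num

theorem lo_sq {n p : ℕ} (hn : Ng n) (hp : p.Prime) (h3 : p ≠ 3) (hd : p ∣ n) {v : V3}
    (hv : ip v v = n) : lo n p ((v 1 - v 2) ^ 2) = 1 := by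
  by_cases h2 : p = 2
  · subst h2
    have hE : Ev n := by
      rcases hn with ⟨-, h4⟩ | hE
      · omega
      · exact hE
    rw [lo, if_pos rfl]
    by_cases ht : v 1 - v 2 = 0
    · have e0 : (v 1 - v 2) ^ 2 = 0 := by rw [ht]; norm_num
      rw [e0, sg2_zero, c2_case hE hv ht]
      norm_num
    · rw [sg2_ne (pow_ne_zero 2 ht), hs_sq n ht]
  · rw [lo, if_neg h2]
    have hP := Nat.prime_iff_prime_int.1 hp
    unfold sgp
    by_cases hT : (p : ℤ) ∣ (v 1 - v 2) ^ 2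
    · obtain ⟨s, hs⟩ := hP.dvd_of_dvd_pow hT
      have hp0 : (p : ℤ) ≠ 0 := by exact_mod_cast hp.ne_zero
      have e1 : (v 1 - v 2) ^ 2 / (p : ℤ) = p * s ^ 2 := by
        rw [hs, show ((p : ℤ) * s) ^ 2 = p * (p * s ^ 2) by ring]
        exact Int.mul_ediv_cancel_left _ hp0
      rw [if_pos hT, e1, if_pos (dvd_mul_right _ _)]
      -- minus one is a square
      have hz : v 2 = v 1 - p * s := by linarith
      have hn0 := hv
      rw [ip_self, hz] at hv
      have hdn : (p : ℤ) ∣ n := by exact_mod_cast hd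
      have h5 : (p : ℤ) ∣ v 0 ^ 2 + (2 * v 1) ^ 2 := by
        have h6 : (p : ℤ) ∣ 3 * (v 0 ^ 2 + (2 * v 1) ^ 2) := by
          have e : 3 * (v 0 ^ 2 + (2 * v 1) ^ 2) = n + p * (12 * v 1 * s - 4 * p * s ^ 2) := by
            linear_combination hv
          rw [e]
          exact dvd_add hdn (dvd_mul_right _ _)
        refine (hP.dvd_mul.1 h6).resolve_left fun h7 => ?_
        have h8 : p ∣ 3 := by exact_mod_cast h7
        exact h3 ((Nat.prime_dvd_prime_iff_eq hp Nat.prime_three).1 h8)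
      have hp4 : ¬ (p : ℤ) ∣ 2 := by
        intro h7
        have h8 : p ∣ 2 := by exact_mod_cast h7
        exact h2 ((Nat.prime_dvd_prime_iff_eq hp Nat.prime_two).1 h8)
      have hy : ¬ (p : ℤ) ∣ v 1 := by
        intro hy
        have hx : (p : ℤ) ∣ v 0 := by
          have h6 : (p : ℤ) ∣ v 0 ^ 2 := by
            have e : v 0 ^ 2 = (v 0 ^ 2 + (2 * v 1) ^ 2) - v 1 * (4 * v 1) := by ring
            rw [e]
            exact dvd_sub h5 (hy.mul_right _)
          exact hP.dvd_of_dvd_pow h6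
        obtain ⟨x, hx⟩ := hx
        obtain ⟨y, hy⟩ := hy
        apply sqf_of hn hp h2
        have : ((p : ℤ)) ^ 2 ∣ n := by
          refine ⟨3 * x ^ 2 + 4 * y ^ 2 + 4 * (y - s) ^ 2 + 4 * (y * (y - s)), ?_⟩
          rw [← hv, hx, hy]
          ring
        exact_mod_cast this
      have h2y : ¬ (p : ℤ) ∣ 2 * v 1 := fun h => (hP.dvd_mul.1 h).elim hp4 hy
      have hx : ¬ (p : ℤ) ∣ v 0 := by
        intro hx
        apply h2y
        apply hP.dvd_of_dvd_pow (n := 2)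
        have e : (2 * v 1) ^ 2 = (v 0 ^ 2 + (2 * v 1) ^ 2) - v 0 * v 0 := by ring
        rw [e]
        exact dvd_sub h5 (hx.mul_right _)
      have h6 : jacobiSym (v 0 ^ 2) p = jacobiSym (-1 * (2 * v 1) ^ 2) p := by
        apply jac_congr
        have e : v 0 ^ 2 - -1 * (2 * v 1) ^ 2 = v 0 ^ 2 + (2 * v 1) ^ 2 := by ring
        rw [e]
        exact h5
      rw [jacobiSym.mul_left, jacobiSym.pow_left, jacobiSym.pow_left, jac_sq hp hx, jac_sq hp h2y,
        mul_one] at h6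
      have e : (-((1 : ℕ) : ℤ)) = -1 := by norm_num
      rw [e, ← h6]
    · rw [if_neg hT, jacobiSym.pow_left, jac_sq hp]
      intro h
      exact hT (dvd_pow h two_ne_zero)

/-- the sign functions -/
structure SF (n : ℕ) (F : ℕ → V3 → ℤ) : Prop where
  pm : ∀ p v, F p v = 1 ∨ F p v = -1
  mul : ∀ p, p.Prime → p ≠ 3 → p ∣ n → ∀ v ∈ vec n, ∀ w ∈ vec n,
    lo n p ((n + ip v w) / 2) = F p v * F p w

theorem exists_SF {n : ℕ} (hn : Ng n) : ∃ F : ℕ → V3 → ℤ, SF n F := by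
  have hch : ∀ p : ℕ, ∃ f : V3 → ℤ, (∀ v, f v = 1 ∨ f v = -1) ∧ (p.Prime → p ≠ 3 → p ∣ n →
      ∀ v ∈ vec n, ∀ w ∈ vec n, lo n p ((n + ip v w) / 2) = f v * f w) := by
    intro p
    by_cases hp : p.Prime ∧ p ≠ 3 ∧ p ∣ n
    · obtain ⟨f, h1, h2⟩ := hasP hn hp.1 hp.2.1 hp.2.2
      exact ⟨f, h1, fun _ _ _ => h2⟩
    · exact ⟨fun _ => 1, fun _ => Or.inl rfl, fun h1 h2 h3 => absurd ⟨h1, h2, h3⟩ hp⟩
  choose F hF hFG using hch
  exact ⟨F, hF, hFG⟩

variable {n : ℕ} {F : ℕ → V3 → ℤ}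

theorem uu_mem {v : V3} (hv : v ∈ vec n) : uu v ∈ vec n := by
  rw [mem_vec] at hv ⊢
  rw [ip_uu, hv]

theorem F_uu (hn : Ng n) (H : SF n F) {p : ℕ} (hp : p.Prime) (h3 : p ≠ 3) (hd : p ∣ n) {v : V3}
    (hv : v ∈ vec n) : F p (uu v) = F p v := by
  have h1 := H.mul p hp h3 hd v hv (uu v) (uu_mem hv)
  rw [T_uu (mem_vec.1 hv), lo_sq hn hp h3 hd (mem_vec.1 hv)] at h1
  rcases H.pm p v with h2 | h2 <;> rcases H.pm p (uu v) with h4 | h4 <;> rw [h2, h4] at h1 ⊢ <;>
    norm_num at h1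

theorem F_neg (H : SF n F) {p : ℕ} (hp : p.Prime) (h3 : p ≠ 3) (hd : p ∣ n) {v : V3}
    (hv : v ∈ vec n) (hv' : -v ∈ vec n) : F p (-v) = lo n p 0 * F p v := by
  have h1 := H.mul p hp h3 hd v hv (-v) hv'
  have e : ((n : ℤ) + ip v (-v)) / 2 = 0 := by
    rw [ip_neg, mem_vec.1 hv]
    simp
  rw [e] at h1
  rw [h1]
  rcases H.pm p v with h2 | h2 <;> rw [h2] <;> ring

theorem mem_V {v : V3} : v ∈ V n ↔ v ∈ vec n ∧ (5 : ℤ) ∣ v 0 + 2 * v 1 + 2 * v 2 := by
  unfold V
  rw [Finset.mem_filter]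

theorem uu_V {v : V3} (hv : v ∈ V n) : uu v ∈ V n := by
  rw [mem_V] at hv ⊢
  refine ⟨uu_mem hv.1, ?_⟩
  rw [uu0, uu1, uu2]
  have e : -v 0 + 2 * -v 2 + 2 * -v 1 = -(v 0 + 2 * v 1 + 2 * v 2) := by ring
  rw [e, dvd_neg]
  exact hv.2

theorem neg_V {v : V3} (hv : v ∈ V n) : -v ∈ V n := by
  rw [mem_V, mem_vec] at hv ⊢
  refine ⟨by rw [neg_ip, ip_neg, neg_neg]; exact hv.1, ?_⟩
  have e : (-v) 0 + 2 * (-v) 1 + 2 * (-v) 2 = -(v 0 + 2 * v 1 + 2 * v 2) := by
    show -v 0 + 2 * -v 1 + 2 * -v 2 = _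
    ring
  rw [e, dvd_neg]
  exact hv.2

/-- the unit has no fixed vector -/
theorem uu_ne (hn : Ng n) (h4 : n ≠ 4) {v : V3} (hv : v ∈ V n) : uu v ≠ v := by
  intro h
  have h0 : -v 0 = v 0 := by rw [← uu0, h]
  have h1 : -v 2 = v 1 := by rw [← uu1, h]
  have hx : v 0 = 0 := by linarith
  have hz : v 2 = -v 1 := by linarith
  have h5 := mem_vec.1 (mem_V.1 hv).1
  rw [ip_self, hx, hz] at h5
  have h6 : (n : ℤ) = 4 * v 1 ^ 2 := by linarith
  rcases hn with ⟨hs, h7⟩ | ⟨m, rfl, hs, h7⟩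
  · omega
  · push_cast at h6
    have h8 : (m : ℤ) = v 1 ^ 2 := by linarith
    have h9 : m = (v 1).natAbs * (v 1).natAbs := by
      have : ((m : ℕ) : ℤ) = (((v 1).natAbs * (v 1).natAbs : ℕ) : ℤ) := by
        rw [h8]
        push_cast
        rw [abs_mul_abs_self]
        ring
      exact_mod_cast this
    have h10 := hs (v 1).natAbs ⟨1, by rw [mul_one]; exact h9⟩
    rw [Nat.isUnit_iff] at h10
    rw [h10] at h9
    apply h4
    rw [h9]

/-- sums over `V` of functions invariant under the unit -/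
theorem even_sum (hn : Ng n) (h4 : n ≠ 4) {k : ℤ} {g : V3 → ℤ} (hg : ∀ v ∈ V n, k ∣ g v)
    (hu : ∀ v ∈ V n, g (uu v) = g v) : k * 2 ∣ ∑ v ∈ V n, g v := by
  have hch : ∀ v : V3, ∃ c : ℤ, v ∈ V n → g v = k * c := by
    intro v
    by_cases hv : v ∈ V n
    · obtain ⟨c, hc⟩ := hg v hv
      exact ⟨c, fun _ => hc⟩
    · exact ⟨0, fun h => absurd h hv⟩
  by_cases hk : k = 0
  · subst hk
    rw [Finset.sum_eq_zero]
    · exact dvd_zero _
    · intro v hv
      exact zero_dvd_iff.1 (hg v hv)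
  choose c hc using hch
  rw [Finset.sum_congr rfl fun v hv => hc v hv, ← Finset.mul_sum]
  refine mul_dvd_mul_left k ?_
  have hz := (ZMod.intCast_zmod_eq_zero_iff_dvd (∑ v ∈ V n, c v) 2).1
  push_cast at hz
  refine hz ?_
  refine Finset.sum_involution (fun v _ => uu v) ?_ ?_ ?_ ?_
  · intro v hv
    have h1 : k * c (uu v) = k * c v := by
      rw [← hc v hv, ← hc (uu v) (uu_V hv)]
      exact hu v hv
    have h2 := mul_left_cancel₀ hk h1
    rw [h2, ← two_mul]
    have : (2 : ZMod 2) = 0 := by decide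
    rw [this, zero_mul]
  · intro v hv _
    exact uu_ne hn h4 hv
  · intro v hv
    exact uu_V hv
  · intro v hv
    exact uu_uu v

/-! ### the characters -/

/-- the sums of the products of the signs -/
theorem P_sq (H : SF n F) {A : ℕ} (hA : A ∣ n) (h3 : ¬ 3 ∣ A) (h : V3 → ℤ) :
    ∑ v ∈ V n, ∑ w ∈ V n, h v * h w * sg A n ((n + ip v w) / 2) =
      (∑ v ∈ V n, h v * ∏ p ∈ A.primeFactors, F p v) ^ 2 := by
  rw [pow_two, Finset.sum_mul_sum]
  refine Finset.sum_congr rfl fun v hv => Finset.sum_congr rfl fun w hw => ?_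
  rw [sg_prod hA]
  have e : ∏ p ∈ A.primeFactors, lo n p ((n + ip v w) / 2) =
      (∏ p ∈ A.primeFactors, F p v) * ∏ p ∈ A.primeFactors, F p w := by
    rw [← Finset.prod_mul_distrib]
    refine Finset.prod_congr rfl fun p hp => ?_
    have hpp := Nat.prime_of_mem_primeFactors hp
    have hpA := Nat.dvd_of_mem_primeFactors hp
    refine H.mul p hpp ?_ (hpA.trans hA) v (mem_V.1 hv).1 w (mem_V.1 hw).1
    rintro rfl
    exact h3 hpA
  rw [e]
  ring

theorem prod_uu (hn : Ng n) (H : SF n F) {D : ℕ} (hD : D ∣ n) (h3 : ¬ 3 ∣ D) {v : V3}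
    (hv : v ∈ V n) :
    ∏ p ∈ D.primeFactors, (1 + F p (uu v)) = ∏ p ∈ D.primeFactors, (1 + F p v) := by
  refine Finset.prod_congr rfl fun p hp => ?_
  have hpp := Nat.prime_of_mem_primeFactors hp
  have hpD := Nat.dvd_of_mem_primeFactors hp
  rw [F_uu hn H hpp (by rintro rfl; exact h3 hpD) (hpD.trans hD) (mem_V.1 hv).1]

theorem prod_dvd (H : SF n F) (D : ℕ) (v : V3) :
    (2 : ℤ) ^ D.primeFactors.card ∣ ∏ p ∈ D.primeFactors, (1 + F p v) := by
  rw [← Finset.prod_const]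
  apply Finset.prod_dvd_prod_of_dvd
  intro p _
  rcases H.pm p v with h | h <;> rw [h] <;> norm_num

theorem ng_ne {n : ℕ} (hn : Ng n) : n ≠ 0 := by
  rintro rfl
  rcases hn with ⟨-, h⟩ | ⟨m, h1, hs, -⟩
  · omega
  · have := hs.ne_zero
    omega

/-- the sum over the unitary divisors -/
theorem sum_all (hn0 : n ≠ 0) {D : ℕ} (hD : D ∣ n) (hc : Nat.Coprime D (n / D)) (h : V3 → ℤ) :
    ∑ A ∈ D.divisors.filter (fun A => Nat.Coprime A (n / A)),
      ∑ v ∈ V n, h v * ∏ p ∈ A.primeFactors, F p v =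
      ∑ v ∈ V n, h v * ∏ p ∈ D.primeFactors, (1 + F p v) := by
  rw [sum_unitary hn0 hD hc (fun s => ∑ v ∈ V n, h v * ∏ p ∈ s, F p v), Finset.sum_comm]
  refine Finset.sum_congr rfl fun v _ => ?_
  rw [← Finset.mul_sum, Finset.prod_one_add]

/-- the number of vectors -/
theorem six_V (hn : N15 n) : 6 * ((V n).card : ℤ) = rr n := by
  have h5 : 5 ∣ n := dvd_trans (by norm_num) hn.2
  have h25 : ¬ 25 ∣ n := by
    have := sqf_of hn.1 (p := 5) (by norm_num) (by norm_num)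
    norm_num at this
    exact this
  obtain ⟨d, hd⟩ : ∃ d : Fin 6 → ℤ, ∀ i, d i = ∑ v ∈ vec n, if O6 i v then (1 : ℤ) else 0 :=
    ⟨_, fun _ => rfl⟩
  have hs : ∀ i, d (i + 1) = d i := by
    intro i
    rw [hd, hd, ← sum_om n (fun v => if O6 i v then (1 : ℤ) else 0)]
    refine Finset.sum_congr rfl fun v _ => ?_
    simp only [O6_om]
  have hall : ∀ i, d i = d 0 := by
    have h1 := hs 0
    have h2 := hs 1
    have h3 := hs 2
    have h4 := hs 3
    have h5 := hs 4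
    intro i
    fin_cases i
    · rfl
    · exact h1
    · exact h2.trans h1
    · exact (h3.trans h2).trans h1
    · exact ((h4.trans h3).trans h2).trans h1
    · exact (((h5.trans h4).trans h3).trans h2).trans h1
  have hsum : ∑ i : Fin 6, d i = rr n := by
    rw [Finset.sum_congr rfl fun i _ => hd i, Finset.sum_comm]
    have : ∀ v ∈ vec (n : ℤ), ∑ i : Fin 6, (if O6 i v then (1 : ℤ) else 0) = 1 := by
      intro v hv
      have h1 := ind_ram h5 h25 (v := v) (w := v) (mem_vec.1 hv)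
      rw [mem_vec.1 hv, if_pos (by exact_mod_cast h5)] at h1
      refine Eq.trans (Finset.sum_congr rfl fun i _ => ?_) h1
      split_ifs <;> ring
    rw [Finset.sum_congr rfl this]
    unfold rr
    simp
  have hV : ((V n).card : ℤ) = d 0 := by
    rw [hd]
    unfold V
    rw [Finset.card_filter]
    push_cast
    rfl
  rw [hV, ← hsum, Finset.sum_congr rfl fun i _ => hall i]
  simp

/-- **ORT** -/
theorem t_ORT : S_ORT := by
  intro n D hN hD h3
  have hn := hN.1
  have hn0 := ng_ne hn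
  have h4 : n ≠ 4 := by
    rintro rfl
    have := hN.2
    omega
  obtain ⟨F, H⟩ := exists_SF hn
  refine ⟨fun A => ∑ v ∈ V n, 1 * ∏ p ∈ A.primeFactors, F p v, ?_, ?_, ?_, ?_⟩
  · intro A hA hAD
    have h := P_sq H hA.1 (fun h => h3 (h.trans hAD)) (fun _ => 1)
    unfold P
    rw [← h]
    refine Finset.sum_congr rfl fun v _ => Finset.sum_congr rfl fun w _ => ?_
    ring
  · simp
  · rw [← six_V hN]
    simp
  · show (2 : ℤ) ^ (D.primeFactors.card + 1) ∣
      ∑ A ∈ D.divisors.filter (fun A => Nat.Coprime A (n / A)),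
        ∑ v ∈ V n, 1 * ∏ p ∈ A.primeFactors, F p v
    rw [sum_all hn0 hD.1 hD.2 (fun _ => 1), pow_succ]
    refine even_sum hn h4 (fun v _ => ?_) (fun v hv => ?_)
    · exact (prod_dvd H D v).mul_left _
    · rw [prod_uu hn H hD.1 h3 hv]

/-! ### `3` inert -/

/-- the sign of a unitary divisor -/
def EE (n A : ℕ) : ℤ := ∏ p ∈ A.primeFactors, lo n p 0

theorem lo_zero_odd {p : ℕ} (h2 : p ≠ 2) : lo n p 0 = jacobiSym (-1) p := by
  rw [lo, if_neg h2]
  unfold sgp
  rw [if_pos (dvd_zero _), Int.zero_ediv, if_pos (dvd_zero _)]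
  norm_num

theorem lo_zero_two : lo n 2 0 = c2 n (-1) := by
  rw [lo, if_pos rfl, sg2_zero]
  norm_num

theorem EE_odd {A : ℕ} (hs : Squarefree A) (ho : A % 2 = 1) : EE n A = ZMod.χ₄ A := by
  unfold EE
  rw [← jacobiSym.at_neg_one (Nat.odd_iff.2 ho), ← N975.PG.jac_prod _ hs]
  refine Finset.prod_congr rfl fun p hp => lo_zero_odd ?_
  rintro rfl
  have := Nat.dvd_of_mem_primeFactors hp
  omega

theorem EE_n (hn : Ng n) : EE n n = -1 := by
  rcases hn with ⟨hs, h4⟩ | hE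
  · rw [EE_odd hs (by omega), ZMod.χ₄_nat_three_mod_four h4]
  · have h1 := N975.CHB.chE_neg_one hE
    unfold chE at h1
    have h2 : 2 ∈ n.primeFactors := by
      obtain ⟨m, rfl, hs, -⟩ := hE
      exact Nat.mem_primeFactors.2 ⟨Nat.prime_two, ⟨2 * m, by ring⟩, by
        have := hs.ne_zero
        omega⟩
    unfold EE
    rw [← Finset.mul_prod_erase _ _ h2, lo_zero_two]
    refine Eq.trans ?_ h1
    congr 1
    exact Finset.prod_congr rfl fun p hp => lo_zero_odd (Finset.mem_erase.1 hp).1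

theorem EE_mul {A B : ℕ} (h : Nat.Coprime A B) : EE n (A * B) = EE n A * EE n B := by
  unfold EE
  rw [h.primeFactors_mul, Finset.prod_union h.disjoint_primeFactors]

theorem lo_zero_pm (n p : ℕ) (hp : p.Prime) : lo n p 0 = 1 ∨ lo n p 0 = -1 := by
  by_cases h2 : p = 2
  · subst h2
    rw [lo_zero_two]
    exact N970.P17G.c2_pm n (by norm_num)
  · rw [lo_zero_odd h2]
    refine jacobiSym.eq_one_or_neg_one ?_
    exact N975.PG.jac_cop hp (by
      intro h
      rw [dvd_neg] at h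
      exact (Nat.prime_iff_prime_int.1 hp).not_isUnit (isUnit_of_dvd_one h))

theorem EE_pm (n A : ℕ) : EE n A = 1 ∨ EE n A = -1 :=
  N871.P15G.prod_pm _ _ fun p hp => lo_zero_pm n p (Nat.prime_of_mem_primeFactors hp)

/-- the divisors which do not belong to `pA` have sign `-1` -/
theorem EE_not (hn : Ng n) {A : ℕ} (hA : A ∣ n) (hc : Nat.Coprime A (n / A)) (h : A ∉ pA n) :
    EE n A = -1 := by
  classical
  have hn0 := ng_ne hn
  obtain ⟨B, hB⟩ := hA
  have hA0 : A ≠ 0 := by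
    rintro rfl
    rw [zero_mul] at hB
    exact hn0 hB
  have hAB : n / A = B := by rw [hB, Nat.mul_div_cancel_left _ (Nat.pos_of_ne_zero hA0)]
  rw [hAB] at hc
  rcases EE_pm n A with h1 | h1
  · exfalso
    apply h
    have hprod : EE n A * EE n B = -1 := by
      rw [← EE_mul hc, ← hB]
      exact EE_n hn
    rw [h1, one_mul] at hprod
    have key : (A = 1 ∨ Ps A) ∧ Ng B := by
      rcases hn with ⟨hs, h4⟩ | ⟨m, hm, hs, h4⟩
      · have hsA : Squarefree A := hs.squarefree_of_dvd ⟨B, hB⟩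
        have hsB : Squarefree B := hs.squarefree_of_dvd ⟨A, by rw [hB, mul_comm]⟩
        have hn2 : (A * B) % 4 = 3 := by rw [← hB]; exact h4
        have hAo : A % 2 = 1 := by
          rcases Nat.mod_two_eq_zero_or_one A with h5 | h5
          · exfalso
            have : (A * B) % 2 = 0 := by rw [Nat.mul_mod, h5]; simp
            omega
          · exact h5
        have hA4 : A % 4 = 1 := by
          rw [EE_odd hsA hAo] at h1
          rcases (by omega : A % 4 = 1 ∨ A % 4 = 3) with h5 | h5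
          · exact h5
          · rw [ZMod.χ₄_nat_three_mod_four h5] at h1
            norm_num at h1
        refine ⟨?_, Or.inl ⟨hsB, ?_⟩⟩
        · by_cases h5 : A = 1
          · exact Or.inl h5
          · exact Or.inr (Or.inl ⟨hsA, hA4, by omega⟩)
        · rw [Nat.mul_mod, hA4, one_mul, Nat.mod_mod] at hn2
          exact hn2
      · by_cases hA2 : A % 2 = 1
        · have hAm : A ∣ m := by
            have h5 : Nat.Coprime A 4 := by
              have : Nat.Coprime A 2 := Nat.coprime_two_right.2 (Nat.odd_iff.2 hA2)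
              exact (Nat.Coprime.pow_right 2 this : Nat.Coprime A (2 ^ 2))
            exact h5.dvd_of_dvd_mul_left ⟨B, by rw [← hm, hB]⟩
          obtain ⟨r, hr⟩ := hAm
          have hBr : B = 4 * r := by
            have h5 : A * B = A * (4 * r) := by rw [← hB, hm, hr]; ring
            exact Nat.eq_of_mul_eq_mul_left (Nat.pos_of_ne_zero hA0) h5
          have hsA : Squarefree A := hs.squarefree_of_dvd ⟨r, hr⟩
          have hsr : Squarefree r := hs.squarefree_of_dvd ⟨A, by rw [hr, mul_comm]⟩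
          have hA4 : A % 4 = 1 := by
            rw [EE_odd hsA hA2] at h1
            rcases (by omega : A % 4 = 1 ∨ A % 4 = 3) with h5 | h5
            · exact h5
            · rw [ZMod.χ₄_nat_three_mod_four h5] at h1
              norm_num at h1
          refine ⟨?_, Or.inr ⟨r, hBr, hsr, ?_⟩⟩
          · by_cases h5 : A = 1
            · exact Or.inl h5
            · exact Or.inr (Or.inl ⟨hsA, hA4, by omega⟩)
          · have h5 : m % 4 = r % 4 := by rw [hr, Nat.mul_mod, hA4, one_mul, Nat.mod_mod]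
            omega
        · have hB2 : B % 2 = 1 := by
            rcases Nat.mod_two_eq_zero_or_one B with h5 | h5
            · exfalso
              have h6 : 2 ∣ Nat.gcd A B := Nat.dvd_gcd (by omega) (by omega)
              rw [hc] at h6
              omega
            · exact h5
          have hBm : B ∣ m := by
            have h5 : Nat.Coprime B 4 := by
              have : Nat.Coprime B 2 := Nat.coprime_two_right.2 (Nat.odd_iff.2 hB2)
              exact (Nat.Coprime.pow_right 2 this : Nat.Coprime B (2 ^ 2))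
            exact h5.dvd_of_dvd_mul_left ⟨A, by rw [← hm, hB, mul_comm]⟩
          obtain ⟨r, hr⟩ := hBm
          have hB0 : 0 < B := by omega
          have hAr : A = 4 * r := by
            have h5 : B * A = B * (4 * r) := by rw [mul_comm B A, ← hB, hm, hr]; ring
            exact Nat.eq_of_mul_eq_mul_left hB0 h5
          have hsB : Squarefree B := hs.squarefree_of_dvd ⟨r, hr⟩
          have hsr : Squarefree r := hs.squarefree_of_dvd ⟨B, by rw [hr, mul_comm]⟩
          have hB4 : B % 4 = 3 := by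
            rw [EE_odd hsB hB2] at hprod
            rcases (by omega : B % 4 = 1 ∨ B % 4 = 3) with h5 | h5
            · rw [ZMod.χ₄_nat_one_mod_four h5] at hprod
              norm_num at hprod
            · exact h5
          have h5 : m % 4 = (3 * (r % 4)) % 4 := by rw [hr, Nat.mul_mod, hB4]
          refine ⟨Or.inr (Or.inr ⟨r, hAr, hsr, ?_⟩), Or.inl ⟨hsB, hB4⟩⟩
          omega
    unfold pA
    rw [Finset.mem_filter, Nat.mem_divisors, hAB]
    exact ⟨⟨⟨B, hB⟩, hn0⟩, hc, key⟩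
  · exact h1

/-- the sums of the divisors which do not belong to `pA` vanish -/
theorem sum_not (hn : Ng n) (H : SF n F) (h3n : ¬ 3 ∣ n) {A : ℕ} (hA : A ∣ n)
    (hc : Nat.Coprime A (n / A)) (h : A ∉ pA n) {g : V3 → ℤ} (hg : ∀ v, g (-v) = g v) :
    ∑ v ∈ V n, g v * ∏ p ∈ A.primeFactors, F p v = 0 := by
  have h1 : ∑ v ∈ V n, g v * ∏ p ∈ A.primeFactors, F p v =
      ∑ v ∈ V n, g (-v) * ∏ p ∈ A.primeFactors, F p (-v) := by
    refine Finset.sum_nbij' (fun v => -v) (fun v => -v) (fun v hv => neg_V hv)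
      (fun v hv => neg_V hv) (fun v _ => neg_neg v) (fun v _ => neg_neg v) ?_
    intro v _
    rw [neg_neg]
  have h2 : ∀ v ∈ V n, g (-v) * ∏ p ∈ A.primeFactors, F p (-v) =
      -(g v * ∏ p ∈ A.primeFactors, F p v) := by
    intro v hv
    have e : ∏ p ∈ A.primeFactors, F p (-v) = EE n A * ∏ p ∈ A.primeFactors, F p v := by
      unfold EE
      rw [← Finset.prod_mul_distrib]
      refine Finset.prod_congr rfl fun p hp => ?_
      have hpp := Nat.prime_of_mem_primeFactors hp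
      have hpA := Nat.dvd_of_mem_primeFactors hp
      exact F_neg H hpp (by rintro rfl; exact h3n (hpA.trans hA)) (hpA.trans hA)
        (mem_V.1 hv).1 (mem_V.1 (neg_V hv)).1
    rw [e, EE_not hn hA hc h, hg]
    ring
  rw [Finset.sum_congr rfl h2, Finset.sum_neg_distrib] at h1
  linarith

theorem s15_neg (t : ℤ) : s15 (-t) = s15 t := by
  unfold s15
  have e1 : (-t % 15 = 1 ∨ -t % 15 = 2 ∨ -t % 15 = 13 ∨ -t % 15 = 14) ↔
    (t % 15 = 1 ∨ t % 15 = 2 ∨ t % 15 = 13 ∨ t % 15 = 14) := by omega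
  have e2 : (-t % 15 = 4 ∨ -t % 15 = 7 ∨ -t % 15 = 8 ∨ -t % 15 = 11) ↔
    (t % 15 = 4 ∨ t % 15 = 7 ∨ t % 15 = 8 ∨ t % 15 = 11) := by omega
  simp only [e1, e2]

/-- the orientation does not vanish -/
theorem s15_pm (hn : Nis n) {v : V3} (hv : v ∈ V n) :
    s15 (v 1 - v 2) = 1 ∨ s15 (v 1 - v 2) = -1 := by
  obtain ⟨-, h3, h5⟩ := hn
  obtain ⟨hv1, hv2⟩ := mem_V.1 hv
  have h1 := mem_vec.1 hv1
  rw [ip_self] at h1
  obtain ⟨k, hk⟩ := hv2
  obtain ⟨t, ht⟩ : ∃ t, t = v 1 - v 2 := ⟨_, rfl⟩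
  rw [← ht]
  have hx : v 0 = 5 * k - 2 * v 1 - 2 * v 2 := by linarith
  have hy : v 1 = t + v 2 := by linarith
  have d3 : ((n : ℤ) - t * t) % 3 = 0 := by
    apply Int.emod_eq_zero_of_dvd
    refine ⟨v 0 ^ 2 + t ^ 2 + 4 * t * v 2 + 4 * v 2 ^ 2, ?_⟩
    rw [← h1, hy]
    ring
  have d5 : ((n : ℤ) - t * t) % 5 = 0 := by
    apply Int.emod_eq_zero_of_dvd
    refine ⟨15 * k ^ 2 - 12 * k * v 1 - 12 * k * v 2 + 3 * t ^ 2 + 12 * t * v 2 + 12 * v 2 ^ 2, ?_⟩
    rw [← h1, hx, hy]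
    ring
  have h15 : (t * t) % 15 = 1 ∨ (t * t) % 15 = 4 := by
    generalize t * t = s at d3 d5
    omega
  have hr : t % 15 = 0 ∨ t % 15 = 1 ∨ t % 15 = 2 ∨ t % 15 = 3 ∨ t % 15 = 4 ∨ t % 15 = 5 ∨
    t % 15 = 6 ∨ t % 15 = 7 ∨ t % 15 = 8 ∨ t % 15 = 9 ∨ t % 15 = 10 ∨ t % 15 = 11 ∨
    t % 15 = 12 ∨ t % 15 = 13 ∨ t % 15 = 14 := by omega
  rw [Int.mul_emod] at h15
  unfold s15
  rcases hr with h | h | h | h | h | h | h | h | h | h | h | h | h | h | h <;> rw [h] at h15 ⊢ <;>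
    first | (exfalso; norm_num at h15; done) | norm_num

/-- **ORT4** -/
theorem t_ORT4 : S_ORT4 := by
  classical
  intro n hN h4
  have hn := hN.1
  have hn0 := ng_ne hn
  have h3n : ¬ 3 ∣ n := by
    have := hN.2.1
    omega
  obtain ⟨F, H⟩ := exists_SF hn
  refine ⟨fun A => ∑ v ∈ V n, 1 * ∏ p ∈ A.primeFactors, F p v,
    fun A => ∑ v ∈ V n, s15 (v 1 - v 2) * ∏ p ∈ A.primeFactors, F p v, ?_, ?_, ?_, ?_⟩
  · intro A hA
    have hAn : A ∣ n := by
      unfold pA at hA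
      exact (Nat.mem_divisors.1 (Finset.mem_filter.1 hA).1).1
    have h3A : ¬ 3 ∣ A := fun h => h3n (h.trans hAn)
    constructor
    · have h := P_sq H hAn h3A (fun _ => 1)
      unfold P
      rw [← h]
      refine Finset.sum_congr rfl fun v _ => Finset.sum_congr rfl fun w _ => ?_
      ring
    · have h := P_sq H hAn h3A (fun v => s15 (v 1 - v 2))
      unfold Q
      exact h
  · simp
  · show ∑ v ∈ V n, s15 (v 1 - v 2) * ∏ p ∈ (1 : ℕ).primeFactors, F p v = ce n
    unfold ce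
    simp
  · have hself : Nat.Coprime n (n / n) := by
      rw [Nat.div_self (Nat.pos_of_ne_zero hn0)]
      exact Nat.coprime_one_right n
    have hadd : ∀ A : ℕ, (∑ v ∈ V n, 1 * ∏ p ∈ A.primeFactors, F p v) +
        (∑ v ∈ V n, s15 (v 1 - v 2) * ∏ p ∈ A.primeFactors, F p v) =
        ∑ v ∈ V n, (1 + s15 (v 1 - v 2)) * ∏ p ∈ A.primeFactors, F p v := by
      intro A
      rw [← Finset.sum_add_distrib]
      refine Finset.sum_congr rfl fun v _ => ?_
      ring
    have hsub : ∑ A ∈ pA n, ∑ v ∈ V n, (1 + s15 (v 1 - v 2)) * ∏ p ∈ A.primeFactors, F p v =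
        ∑ A ∈ n.divisors.filter (fun A => Nat.Coprime A (n / A)),
          ∑ v ∈ V n, (1 + s15 (v 1 - v 2)) * ∏ p ∈ A.primeFactors, F p v := by
      refine Finset.sum_subset ?_ ?_
      · intro A hA
        unfold pA at hA
        rw [Finset.mem_filter] at hA ⊢
        exact ⟨hA.1, hA.2.1⟩
      · intro A hA hA'
        rw [Finset.mem_filter, Nat.mem_divisors] at hA
        refine sum_not hn H h3n hA.1.1 hA.2 hA' (g := fun v => 1 + s15 (v 1 - v 2)) ?_
        intro v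
        show 1 + s15 (-v 1 - -v 2) = _
        have e : -v 1 - -v 2 = -(v 1 - v 2) := by ring
        rw [e, s15_neg]
    show (2 : ℤ) ^ (n.primeFactors.card + 2) ∣ ∑ A ∈ pA n,
      ((∑ v ∈ V n, 1 * ∏ p ∈ A.primeFactors, F p v) +
        ∑ v ∈ V n, s15 (v 1 - v 2) * ∏ p ∈ A.primeFactors, F p v)
    rw [Finset.sum_congr rfl fun A _ => hadd A, hsub,
      sum_all hn0 (dvd_refl n) hself (fun v => 1 + s15 (v 1 - v 2))]
    have e : (2 : ℤ) ^ (n.primeFactors.card + 2) = (2 * 2 ^ n.primeFactors.card) * 2 := by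
      rw [pow_add]
      ring
    rw [e]
    refine even_sum hn (by omega) (fun v hv => ?_) (fun v hv => ?_)
    · refine mul_dvd_mul ?_ (prod_dvd H n v)
      rcases s15_pm hN hv with h | h <;> rw [h] <;> norm_num
    · rw [prod_uu hn H (dvd_refl n) h3n hv, uu1, uu2]
      have e : -v 2 - -v 1 = v 1 - v 2 := by ring
      rw [e]

end

end Pool.Agent.N975.Ort
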