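import Pool.Agent.N975.Ph.Odd
import Pool.Agent.N974.PG.GnE

/-!
# The genus weight of a positive fundamental discriminant (odd or even)
-/

set_option autoImplicit false

open Finset

namespace Pool.Agent.N975.Ph

open Pool.Agent.N975.Sym (ev act act_inv ev_act)
open Pool.Agent.N975.PG (gp gp_act gp_neg gp_val jac_zero jac_congr jac_prod jac_sq sum_jac par_one
  gn gn_eq gn_act gn_neg gn_inf gn_zero E e E_mod E_neg Mean)
open Pool.Agent.N974.PG (chP_eq c2_conv chE_neg_one sum_zero exists_t g2 g2_val gnE_eq two_dvd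
  mid_even)
open Pool.Agent.N974.Gen.ChP (Ev chE ev_mod chE_mul chE_mod chE_zero chE_pm c2_mul c2_pm c2_even
  ev_pos chE_prime)
open Pool.Agent.N969.P17G (chP gnE bdE gen)
open Pool.Agent.N969.RQ (Fd)
open Pool.Agent.N975.RQ (al al_ev al_dvd al_inv al_disc)

noncomputable section

/-! ### characters -/

/-- a nontrivial even quadratic character modulo `A` -/
structure Chr (A : ℕ) (χ : ℤ → ℤ) : Prop where
  lt : 1 < A
  per : ∀ x y : ℤ, (A : ℤ) ∣ x - y → χ x = χ y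
  mul : ∀ x y : ℤ, χ (x * y) = χ x * χ y
  zero : ∀ x : ℤ, ¬ IsCoprime x (A : ℤ) → χ x = 0
  pm : ∀ x : ℤ, IsCoprime x (A : ℤ) → χ x = 1 ∨ χ x = -1
  neg : χ (-1) = 1
  sum : ∑ C ∈ range A, χ C = 0

theorem chP_odd {A : ℕ} (hsq : Squarefree A) (h2 : ¬ 2 ∣ A) (u : ℤ) : chP A u = jacobiSym u A := by
  have he : A.primeFactors.erase 2 = A.primeFactors :=
    Finset.erase_eq_of_notMem fun h => h2 (Nat.dvd_of_mem_primeFactors h)
  unfold chP
  rw [if_neg h2, he, one_mul, jac_prod u hsq]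

theorem gnE_odd {A : ℕ} (h2 : ¬ 2 ∣ A) (q : ℤ × ℤ × ℤ) : gnE A q = gn A q := by
  have he : A.primeFactors.erase 2 = A.primeFactors :=
    Finset.erase_eq_of_notMem fun h => h2 (Nat.dvd_of_mem_primeFactors h)
  unfold gnE gn
  rw [if_neg h2, he, one_mul]
  rfl

theorem ev_of_fd {A : ℕ} (h : Fd A) (h2 : 2 ∣ A) : Ev A := by
  rcases h.2 with ⟨-, h4⟩ | ⟨M, hAM, hM, h4⟩
  · omega
  · exact ⟨M, hAM, hM, h4.symm⟩

theorem sq_of_fd {A : ℕ} (h : Fd A) (h2 : ¬ 2 ∣ A) : Squarefree A ∧ A % 4 = 1 := by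
  rcases h.2 with h3 | ⟨M, hAM, hM, h4⟩
  · exact h3
  · omega

theorem chr {A : ℕ} (h : Fd A) : Chr A (chP A) := by
  by_cases h2 : 2 ∣ A
  · have hE := ev_of_fd h h2
    have e : chP A = chE A := funext fun u => chP_eq hE u
    rw [e]
    have hm := ev_mod hE
    have hneg : ∀ x : ℤ, chE A (-x) = chE A x := by
      intro x
      rw [show -x = -1 * x by ring, chE_mul, chE_neg_one hE, one_mul]
    have habs : ∀ x : ℤ, chE A x = chE A (x.natAbs : ℕ) := by
      intro x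
      rcases Int.natAbs_eq x with h1 | h1
      · rw [← h1]
      · conv_lhs => rw [h1]
        rw [hneg]
    have hcop : ∀ x : ℤ, IsCoprime x (A : ℤ) ↔ Nat.Coprime x.natAbs A := by
      intro x
      rw [Int.isCoprime_iff_gcd_eq_one, Int.gcd]
      rfl
    refine ⟨h.1, fun _ _ => chE_mod hm, chE_mul A, ?_, ?_, chE_neg_one hE, ?_⟩
    · intro x hx
      rw [habs]
      exact chE_zero hm fun h1 => hx ((hcop x).2 h1)
    · intro x hx
      rw [habs]
      exact chE_pm hm ((hcop x).1 hx)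
    · obtain ⟨t, ht1, ht2⟩ := exists_t hE
      exact sum_zero (ev_pos hE) (fun _ _ => chE_mod hm) (chE_mul A) ht1 ht2
  · obtain ⟨hsq, h4⟩ := sq_of_fd h h2
    have e : chP A = fun u => jacobiSym u A := funext fun u => chP_odd hsq h2 u
    rw [e]
    refine ⟨h.1, fun _ _ h => jac_congr h, fun x y => jacobiSym.mul_left x y A, ?_, ?_, par_one h4,
      sum_jac hsq (by omega) h.1⟩
    · intro x hx
      have : NeZero A := ⟨by have := h.1; omega⟩
      show jacobiSym x A = 0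
      rw [jacobiSym.eq_zero_iff_not_coprime]
      rwa [Int.isCoprime_iff_gcd_eq_one] at hx
    · intro x hx
      exact jacobiSym.eq_one_or_neg_one (Int.isCoprime_iff_gcd_eq_one.1 hx)

section chars

variable {A : ℕ} {χ : ℤ → ℤ}

theorem Chr.even (H : Chr A χ) (x : ℤ) : χ (-x) = χ x := by
  rw [show -x = -1 * x by ring, H.mul, H.neg, one_mul]

theorem Chr.add (H : Chr A χ) (x k : ℤ) : χ (x + k * A) = χ x :=
  H.per _ _ ⟨k, by ring⟩

theorem Chr.at_zero (H : Chr A χ) : χ 0 = 0 := by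
  refine H.zero 0 fun h => ?_
  rw [isCoprime_zero_left, Int.isUnit_iff] at h
  have := H.lt
  omega

theorem Chr.z (H : Chr A χ) : 0 < (A : ℤ) := by
  have := H.lt
  omega

theorem sum_Ico (H : Chr A χ) : ∑ j ∈ Ico (0 : ℤ) A, χ j = 0 := by
  refine Eq.trans ?_ H.sum
  refine Finset.sum_bij' (fun C _ => C.toNat) (fun C _ => (C : ℤ)) ?_ ?_ ?_ ?_ ?_
  · intro C hC
    rw [Finset.mem_Ico] at hC
    rw [Finset.mem_range]
    omega
  · intro C hC
    rw [Finset.mem_range] at hC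
    rw [Finset.mem_Ico]
    omega
  · intro C hC
    rw [Finset.mem_Ico] at hC
    exact Int.toNat_of_nonneg hC.1
  · intro C hC
    exact Int.toNat_natCast C
  · intro C hC
    rw [Finset.mem_Ico] at hC
    rw [Int.toNat_of_nonneg hC.1]

theorem mean_chi (H : Chr A χ) : Mean A χ := by
  unfold Mean
  rw [mean_shift (w := χ) (L := A) fun C => H.per _ _ ⟨1, by ring⟩]
  exact sum_Ico H

/-- the boundary term as a finite sum -/
theorem E_chi (H : Chr A χ) (x : ℤ) {m : ℤ} (hm : 0 < m) :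
    E χ A x m = ∑ C ∈ range A, χ C * Int.sign ((A : ℤ) * (x % m) - (C : ℤ) * m) := by
  have h1 := H.lt
  have hper : ∀ C : ℤ, χ (C + A) = χ C := fun C => H.per _ _ ⟨1, by ring⟩
  have hApos : (0 : ℤ) < A := by exact_mod_cast (by omega : 0 < A)
  rw [E_mod hApos hper (mean_chi H) x hm]
  obtain ⟨r, hr⟩ : ∃ r, r = x % m := ⟨_, rfl⟩
  rw [← hr]
  have hr0 : 0 ≤ r := by rw [hr]; exact Int.emod_nonneg _ hm.ne'
  have hr1 : r < m := by rw [hr]; exact Int.emod_lt_of_pos _ hm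
  -- the change of the sign of the variable
  have hE : E χ A r m = ∑ᶠ C : ℤ, χ C * (Int.sign (A * r - C * m) + Int.sign C) := by
    unfold E
    rw [← finsum_comp_equiv (Equiv.neg ℤ)]
    refine finsum_congr fun C => ?_
    show e χ A r m (-C) = _
    show χ (-C) * (Int.sign (A * r + -C * m) - Int.sign (-C)) = _
    have e1 : (A : ℤ) * r + -C * m = A * r - C * m := by ring
    rw [H.even, e1, Int.sign_neg]
    ring
  rw [hE]
  have hs : Function.support (fun C : ℤ => χ C * (Int.sign (A * r - C * m) + Int.sign C)) ⊆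
      (((Finset.range A).image (fun C : ℕ => (C : ℤ)) : Finset ℤ) : Set ℤ) := by
    intro C hC
    have h2 : χ C * (Int.sign (A * r - C * m) + Int.sign C) ≠ 0 := hC
    rw [Finset.mem_coe, Finset.mem_image]
    by_cases h3 : 0 ≤ C ∧ C < A
    · refine ⟨C.toNat, ?_, Int.toNat_of_nonneg h3.1⟩
      rw [Finset.mem_range]
      omega
    · exfalso
      apply h2
      rw [not_and_or, not_le, not_lt] at h3
      rcases h3 with h3 | h3
      · have h4 : 0 < (A : ℤ) * r - C * m := by nlinarith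
        rw [Int.sign_eq_one_of_pos h4, Int.sign_eq_neg_one_of_neg h3]
        ring
      · have h4 : (A : ℤ) * r - C * m < 0 := by nlinarith
        have h5 : 0 < C := by omega
        rw [Int.sign_eq_neg_one_of_neg h4, Int.sign_eq_one_of_pos h5]
        ring
  rw [finsum_eq_sum_of_support_subset _ hs, Finset.sum_image (by
    intro a _ b _ h
    exact Nat.cast_injective (R := ℤ) h)]
  have h2 : ∀ C ∈ range A, χ (C : ℤ) * (Int.sign ((A : ℤ) * r - (C : ℤ) * m) + Int.sign (C : ℤ)) =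
      χ (C : ℤ) * Int.sign ((A : ℤ) * r - (C : ℤ) * m) + χ (C : ℤ) := by
    intro C _
    rcases Nat.eq_zero_or_pos C with h2 | h2
    · subst h2
      push_cast
      rw [H.at_zero]
      ring
    · have h3 : (0 : ℤ) < C := by exact_mod_cast h2
      rw [Int.sign_eq_one_of_pos h3]
      ring
  rw [Finset.sum_congr rfl h2, Finset.sum_add_distrib, H.sum, add_zero]

theorem bdE_E (h : Fd A) (x : ℤ) {m : ℤ} (hm : 0 < m) : bdE A x m = E (chP A) A x m :=
  (E_chi (chr h) x hm).symm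

/-- the value at `3` -/
theorem chP_three (h : Fd A) : chP A 3 = jacobiSym A 3 := by
  by_cases h2 : 2 ∣ A
  · have hE := ev_of_fd h h2
    rw [chP_eq hE]
    have h3 := chE_prime hE (p := 3) (by norm_num) (by norm_num)
    push_cast at h3
    rw [h3]
    have h4 : (A : ℤ) = 4 * ((A : ℤ) / 4) := by
      have := ev_mod hE
      omega
    conv_rhs => rw [h4]
    rw [jacobiSym.mul_left, show jacobiSym 4 3 = 1 by norm_num, one_mul]
  · obtain ⟨hsq, h4⟩ := sq_of_fd h h2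
    rw [chP_odd hsq h2]
    have h3 := jacobiSym.quadratic_reciprocity_one_mod_four (a := A) (b := 3) h4
      (by decide)
    push_cast at h3
    exact h3.symm

end chars

/-! ### the genus weight -/

section weight

variable {A : ℕ} {a b c d : ℤ}

theorem gnE_act (h : Fd A) {q : ℤ × ℤ × ℤ} (hd : q.2.1 ^ 2 - 4 * q.1 * q.2.2 = (A : ℤ) ^ 2)
    (hdet : a * d - b * c = 1) : gnE A (act a b c d q) = gnE A q := by
  by_cases h2 : 2 ∣ A
  · exact N974.PG.gnE_act (ev_of_fd h h2) hd hdet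
  · rw [gnE_odd h2, gnE_odd h2]
    exact gn_act (by omega) hd hdet

theorem gnE_refl (h : Fd A) (a b c b' : ℤ) : gnE A (-a, b', -c) = gnE A (a, b, c) := by
  by_cases h2 : 2 ∣ A
  · exact N974.PG.gnE_neg (ev_of_fd h h2) a b c b'
  · obtain ⟨hsq, h4⟩ := sq_of_fd h h2
    rw [gnE_odd h2, gnE_odd h2, gn_neg hsq, par_one h4, one_mul]

theorem gnE_neg (h : Fd A) (q : ℤ × ℤ × ℤ) : gnE A (-q) = gnE A q :=
  gnE_refl h q.1 q.2.1 q.2.2 (-q.2.1)

theorem gnE_inf (h : Fd A) (b C : ℤ) : gnE A (0, b, C) = chP A C := by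
  by_cases h2 : 2 ∣ A
  · exact N974.PG.gnE_inf (ev_of_fd h h2) b C
  · obtain ⟨hsq, h4⟩ := sq_of_fd h h2
    rw [gnE_odd h2, gn_inf hsq, chP_odd hsq h2]

theorem gnE_zero (h : Fd A) (a b : ℤ) : gnE A (a, b, 0) = chP A a := by
  by_cases h2 : 2 ∣ A
  · exact N974.PG.gnE_zero (ev_of_fd h h2) a b
  · obtain ⟨hsq, h4⟩ := sq_of_fd h h2
    rw [gnE_odd h2, gn_zero hsq, chP_odd hsq h2]

/-- the weight vanishes if the form vanishes modulo a prime dividing `A` -/
theorem gnE_van (h : Fd A) {p : ℕ} (hp : p.Prime) (hpA : p ∣ A) {q : ℤ × ℤ × ℤ}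
    (h1 : (p : ℤ) ∣ q.1) (h3 : (p : ℤ) ∣ q.2.2) : gnE A q = 0 := by
  unfold gnE
  by_cases hp2 : p = 2
  · subst hp2
    rw [if_pos hpA, if_pos (by exact_mod_cast h1)]
    have : N969.P15.c2 (3 * A) q.2.2 = 0 := by
      rw [c2_conv (ev_mod (ev_of_fd h hpA))]
      refine c2_even A ?_
      have : (2 : ℤ) ∣ q.2.2 := by exact_mod_cast h3
      omega
    rw [this, zero_mul]
  · have hmem : p ∈ A.primeFactors.erase 2 :=
      Finset.mem_erase.2 ⟨hp2, Nat.mem_primeFactors.2 ⟨hp, hpA, by have := h.1; omega⟩⟩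
    rw [Finset.prod_eq_zero hmem, mul_zero]
    unfold gen
    rw [if_pos h1, jac_zero hp h3]

/-! ### Atkin-Lehner operators -/

variable {Q R α B γ δ : ℤ}

/-- the form vanishes modulo `p` if its image does -/
theorem al_van (hQ : Q ≠ 0) (hdet : Q * α * δ - R * B * γ = 1) {q : ℤ × ℤ × ℤ}
    (hq : Q * R ∣ q.1) {p : ℤ} (hp : Prime p) (hpQ : ¬ p ∣ Q)
    (hd : p ∣ q.2.1 ^ 2 - 4 * q.1 * q.2.2)
    (h1 : p ∣ (al Q R α B γ δ q).1) (h2 : p ∣ (al Q R α B γ δ q).2.2) : p ∣ q.1 ∧ p ∣ q.2.2 := by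
  have hqQ : Q ∣ q.1 := (Dvd.intro _ rfl).trans hq
  have h3 : p ∣ (al Q R α B γ δ q).2.1 := by
    apply hp.dvd_of_dvd_pow (n := 2)
    have e : (al Q R α B γ δ q).2.1 ^ 2 = (q.2.1 ^ 2 - 4 * q.1 * q.2.2) +
      4 * (al Q R α B γ δ q).1 * (al Q R α B γ δ q).2.2 := by
      linear_combination al_disc (R := R) hQ hdet hqQ
    rw [e]
    exact hd.add ((h1.mul_left 4).mul_right _)
  have hi := al_inv hQ hdet hq
  obtain ⟨t, ht⟩ := al_dvd (α := α) (B := B) (γ := γ) (δ := δ) hq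
  have h4 : p ∣ (al Q R α B γ δ q).1 / Q := by
    have h5 : Q * ((al Q R α B γ δ q).1 / Q) = (al Q R α B γ δ q).1 :=
      Int.mul_ediv_cancel' ⟨R * t, by rw [ht]; ring⟩
    rw [← h5] at h1
    exact (hp.dvd_mul.1 h1).resolve_left hpQ
  constructor
  · rw [← hi]
    show p ∣ Q * δ ^ 2 * (al Q R α B γ δ q).1 + Q * R * δ * -γ * (al Q R α B γ δ q).2.1 +
      Q * R * R * (-γ) ^ 2 * (al Q R α B γ δ q).2.2
    exact dvd_add (dvd_add (h1.mul_left _) (h3.mul_left _)) (h2.mul_left _)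
  · rw [← hi]
    show p ∣ ((al Q R α B γ δ q).1 / Q) * (-B) ^ 2 + -B * α * (al Q R α B γ δ q).2.1 +
      Q * α ^ 2 * (al Q R α B γ δ q).2.2
    exact dvd_add (dvd_add (h4.mul_right _) (h3.mul_left _)) (h2.mul_left _)

theorem gp_al' (hQ : Q ≠ 0) (hdet : Q * α * δ - R * B * γ = 1)
    {q : ℤ × ℤ × ℤ} (hqN : Q * R ∣ q.1) {p : ℕ} (hp : p.Prime) (hp2 : p ≠ 2)
    (hdv : (p : ℤ) ∣ q.2.1 ^ 2 - 4 * q.1 * q.2.2) (hpQ : ¬ (p : ℤ) ∣ Q) :
    gp p (al Q R α B γ δ q) = jacobiSym Q p * gp p q := by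
  have hpp := Nat.prime_iff_prime_int.1 hp
  have hqQ : Q ∣ q.1 := (Dvd.intro _ rfl).trans hqN
  have hsq := jac_sq hp hpQ
  have key : ∀ x y : ℤ, ¬ (p : ℤ) ∣ ev (al Q R α B γ δ q) x y →
      jacobiSym (ev (al Q R α B γ δ q) x y) p = jacobiSym Q p * gp p q := by
    intro x y hxy
    have h1 : ¬ (p : ℤ) ∣ ev q (Q * α * x + B * y) (Q * R * γ * x + Q * δ * y) := by
      rw [← al_ev hqQ]
      intro h2
      rcases hpp.dvd_mul.1 h2 with h3 | h3
      · exact hpQ h3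
      · exact hxy h3
    rw [← gp_val hp hp2 hdv _ _ h1, ← al_ev hqQ, jacobiSym.mul_left]
    linear_combination (-(jacobiSym (ev (al Q R α B γ δ q) x y) p)) * hsq
  by_cases h2 : (p : ℤ) ∣ (al Q R α B γ δ q).1
  · by_cases h3 : (p : ℤ) ∣ (al Q R α B γ δ q).2.2
    · obtain ⟨h4, h5⟩ := al_van hQ hdet hqN hpp hpQ hdv h2 h3
      unfold gp
      rw [if_pos h2, if_pos h4, jac_zero hp h3, jac_zero hp h5, mul_zero]
    · have e : ev (al Q R α B γ δ q) 0 1 = (al Q R α B γ δ q).2.2 := by unfold ev; ring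
      have h4 := key 0 1 (by rw [e]; exact h3)
      rw [e] at h4
      rw [← h4]
      unfold gp
      rw [if_pos h2]
  · have e : ev (al Q R α B γ δ q) 1 0 = (al Q R α B γ δ q).1 := by unfold ev; ring
    have h4 := key 1 0 (by rw [e]; exact h2)
    rw [e] at h4
    rw [← h4]
    unfold gp
    rw [if_neg h2]

theorem g2_al' (h : Ev A) (hQ : Q ≠ 0) (hdet : Q * α * δ - R * B * γ = 1)
    {q : ℤ × ℤ × ℤ} (hqN : Q * R ∣ q.1) (hd : q.2.1 ^ 2 - 4 * q.1 * q.2.2 = (A : ℤ) ^ 2)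
    (hQ2 : ¬ (2 : ℤ) ∣ Q) :
    g2 A (al Q R α B γ δ q) = N974.Gen.ChP.c2 A Q * g2 A q := by
  have hqQ : Q ∣ q.1 := (Dvd.intro _ rfl).trans hqN
  have hsq : N974.Gen.ChP.c2 A Q * N974.Gen.ChP.c2 A Q = 1 := by
    rcases c2_pm A (u := Q) (by omega) with h1 | h1 <;> rw [h1] <;> norm_num
  have key : ∀ x y : ℤ, ¬ (2 : ℤ) ∣ ev (al Q R α B γ δ q) x y →
      N974.Gen.ChP.c2 A (ev (al Q R α B γ δ q) x y) = N974.Gen.ChP.c2 A Q * g2 A q := by
    intro x y hxy
    have h1 : ¬ (2 : ℤ) ∣ ev q (Q * α * x + B * y) (Q * R * γ * x + Q * δ * y) := by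
      rw [← al_ev hqQ]
      intro h2
      rcases Int.prime_two.dvd_mul.1 h2 with h3 | h3
      · exact hQ2 h3
      · exact hxy h3
    rw [← g2_val h hd _ _ (by omega : ev q (Q * α * x + B * y) (Q * R * γ * x + Q * δ * y) % 2 = 1),
      ← al_ev hqQ, c2_mul]
    linear_combination (-(N974.Gen.ChP.c2 A (ev (al Q R α B γ δ q) x y))) * hsq
  by_cases h2 : (2 : ℤ) ∣ (al Q R α B γ δ q).1
  · by_cases h3 : (2 : ℤ) ∣ (al Q R α B γ δ q).2.2
    · have hdv : (2 : ℤ) ∣ q.2.1 ^ 2 - 4 * q.1 * q.2.2 := by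
        rw [hd]
        have : (2 : ℤ) ∣ A := by exact_mod_cast two_dvd h
        exact dvd_pow this two_ne_zero
      obtain ⟨h4, h5⟩ := al_van hQ hdet hqN Int.prime_two hQ2 hdv h2 h3
      unfold g2
      rw [if_pos h2, if_pos h4, c2_even A (u := (al Q R α B γ δ q).2.2) (by omega),
        c2_even A (u := q.2.2) (by omega), mul_zero]
    · have e : ev (al Q R α B γ δ q) 0 1 = (al Q R α B γ δ q).2.2 := by unfold ev; ring
      have h4 := key 0 1 (by rw [e]; exact h3)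
      rw [e] at h4
      rw [← h4]
      unfold g2
      rw [if_pos h2]
  · have e : ev (al Q R α B γ δ q) 1 0 = (al Q R α B γ δ q).1 := by unfold ev; ring
    have h4 := key 1 0 (by rw [e]; exact h2)
    rw [e] at h4
    rw [← h4]
    unfold g2
    rw [if_neg h2]

/-- **the genus weight under an Atkin-Lehner operator** -/
theorem gnE_al (h : Fd A) (hQ : Q ≠ 0) (hdet : Q * α * δ - R * B * γ = 1)
    {q : ℤ × ℤ × ℤ} (hqN : Q * R ∣ q.1) (hd : q.2.1 ^ 2 - 4 * q.1 * q.2.2 = (A : ℤ) ^ 2)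
    (hQA : IsCoprime Q (A : ℤ)) :
    gnE A (al Q R α B γ δ q) = chP A Q * gnE A q := by
  have hdiv : ∀ p ∈ A.primeFactors, (p : ℤ) ∣ (A : ℤ) := fun p hp => by
    exact_mod_cast Nat.dvd_of_mem_primeFactors hp
  have hpQ : ∀ p ∈ A.primeFactors, ¬ (p : ℤ) ∣ Q := fun p hp h1 =>
    (Nat.prime_iff_prime_int.1 (Nat.prime_of_mem_primeFactors hp)).not_isUnit
      (hQA.isUnit_of_dvd' h1 (hdiv p hp))
  have hprod : ∏ p ∈ A.primeFactors.erase 2, gp p (al Q R α B γ δ q) =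
      (∏ p ∈ A.primeFactors.erase 2, jacobiSym Q p) * ∏ p ∈ A.primeFactors.erase 2, gp p q := by
    rw [← Finset.prod_mul_distrib]
    refine Finset.prod_congr rfl fun p hp => ?_
    obtain ⟨hp2, hp⟩ := Finset.mem_erase.1 hp
    refine gp_al' hQ hdet hqN (Nat.prime_of_mem_primeFactors hp) hp2 ?_ (hpQ p hp)
    rw [hd]
    exact dvd_pow (hdiv p hp) two_ne_zero
  by_cases h2 : 2 ∣ A
  · have hE := ev_of_fd h h2
    rw [gnE_eq hE, gnE_eq hE, chP_eq hE, hprod, g2_al' hE hQ hdet hqN hd]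
    · unfold chE
      ring
    · have h3 := hpQ 2 (Nat.mem_primeFactors.2 ⟨Nat.prime_two, h2, by have := h.1; omega⟩)
      exact_mod_cast h3
  · have he : A.primeFactors.erase 2 = A.primeFactors :=
      Finset.erase_eq_of_notMem fun h => h2 (Nat.dvd_of_mem_primeFactors h)
    obtain ⟨hsq, h4⟩ := sq_of_fd h h2
    rw [he] at hprod
    rw [gnE_odd h2, gnE_odd h2, chP_odd hsq h2, gn_eq, gn_eq, hprod, jac_prod _ hsq]

end weight

end

end Pool.Agent.N975.Ph
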