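import Pool.Agent.N975.Ph.GE

/-!
# The weights of a positive fundamental discriminant with an orientation; crossing numbers with
boundary terms
-/

set_option autoImplicit false

open Finset

namespace Pool.Agent.N975.Ph

open Pool.Agent.N975.Sym (ev act act_inv eqv ev_act ev10)
open Pool.Agent.N975.S17 (sign_cases fin_eqv sum_eqv finsum_family finite_family ev_neg_neg ev01)
open Pool.Agent.N975.PG (E e e_fin E_neg)
open Pool.Agent.N969.P17G (chP gnE bdE)
open Pool.Agent.N969.RQ (Fd)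
open Pool.Agent.N975.RQ (dvd_act refl)

noncomputable section

/-- an orientation -/
structure Ori (N : ℤ) (ρ : ℤ → ℤ) : Prop where
  per : ∀ b b' : ℤ, N ∣ b' - b → ρ b' = ρ b
  odd : ∀ b, ρ (-b) = -ρ b

/-- the weight of an orientation and of the genus character -/
def kw (N : ℤ) (A : ℕ) (ρ : ℤ → ℤ) (q : ℤ × ℤ × ℤ) : ℤ :=
  if q.2.1 ^ 2 - 4 * q.1 * q.2.2 = (A : ℤ) ^ 2 ∧ N ∣ q.1 then ρ q.2.1 * gnE A q else 0

variable {N D : ℤ} {A : ℕ} {ρ : ℤ → ℤ} {k : ℤ × ℤ × ℤ → ℤ}

theorem wt_kw (h : Fd A) (O : Ori N ρ) : Wt N ((A : ℤ) ^ 2) (kw N A ρ) where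
  D0 := by
    have := (chr h).z
    positivity
  disc := by
    intro q hq
    by_contra h
    exact hq (if_neg fun h' => h h'.1)
  inv := by
    intro a b c d hd q
    by_cases hq : q.2.1 ^ 2 - 4 * q.1 * q.2.2 = (A : ℤ) ^ 2 ∧ N ∣ q.1
    · have h1 : (act a b (N * c) d q).2.1 ^ 2 - 4 * (act a b (N * c) d q).1 *
          (act a b (N * c) d q).2.2 = (A : ℤ) ^ 2 ∧ N ∣ (act a b (N * c) d q).1 :=
        ⟨by rw [disc_act hd]; exact hq.1, dvd_act q hq.2⟩
      unfold kw
      rw [if_pos h1, if_pos hq, gnE_act h hq.1 hd, O.per _ _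
        ((dvd_mul_left N 2).trans (RQ.mid_act hd q hq.2))]
    · have h1 : ¬ ((act a b (N * c) d q).2.1 ^ 2 - 4 * (act a b (N * c) d q).1 *
          (act a b (N * c) d q).2.2 = (A : ℤ) ^ 2 ∧ N ∣ (act a b (N * c) d q).1) := by
        rintro ⟨h1, h2⟩
        apply hq
        refine ⟨by rw [← disc_act hd]; exact h1, ?_⟩
        have h3 : act d (-b) (N * (-c)) a (act a b (N * c) d q) = q := by
          have := act_inv hd q
          rw [show N * (-c) = -(N * c) by ring]
          exact this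
        have h4 := dvd_act (N := N) (a := d) (b := -b) (c := -c) (d := a) _ h2
        rwa [h3] at h4
      unfold kw
      rw [if_neg h1, if_neg hq]

theorem par_kw (h : Fd A) (ρ : ℤ → ℤ) : Par (kw N A ρ) 1 := by
  intro a b c
  rw [one_mul]
  unfold kw
  simp only
  by_cases hq : b ^ 2 - 4 * a * c = (A : ℤ) ^ 2 ∧ N ∣ a
  · have h1 : b ^ 2 - 4 * -a * -c = (A : ℤ) ^ 2 ∧ N ∣ -a :=
      ⟨by rw [← hq.1]; ring, (dvd_neg).2 hq.2⟩
    rw [if_pos h1, if_pos hq, gnE_refl h]
  · have h1 : ¬ (b ^ 2 - 4 * -a * -c = (A : ℤ) ^ 2 ∧ N ∣ -a) := by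
      rintro ⟨h1, h2⟩
      exact hq ⟨by rw [← h1]; ring, (dvd_neg).1 h2⟩
    rw [if_neg h1, if_neg hq]

theorem neg_kw (h : Fd A) (O : Ori N ρ) (q : ℤ × ℤ × ℤ) : kw N A ρ (-q) = -kw N A ρ q := by
  unfold kw
  by_cases hq : q.2.1 ^ 2 - 4 * q.1 * q.2.2 = (A : ℤ) ^ 2 ∧ N ∣ q.1
  · have h1 : (-q).2.1 ^ 2 - 4 * (-q).1 * (-q).2.2 = (A : ℤ) ^ 2 ∧ N ∣ (-q).1 := by
      refine ⟨?_, (dvd_neg).2 hq.2⟩
      rw [← hq.1]
      show (-q.2.1) ^ 2 - 4 * (-q.1) * (-q.2.2) = _
      ring
    rw [if_pos h1, if_pos hq, gnE_neg h]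
    show ρ (-q.2.1) * _ = _
    rw [O.odd]
    ring
  · have h1 : ¬ ((-q).2.1 ^ 2 - 4 * (-q).1 * (-q).2.2 = (A : ℤ) ^ 2 ∧ N ∣ (-q).1) := by
      rintro ⟨h1, h2⟩
      refine hq ⟨?_, (dvd_neg).1 h2⟩
      rw [← h1]
      show _ = (-q.2.1) ^ 2 - 4 * (-q.1) * (-q.2.2)
      ring
    rw [if_neg h1, if_neg hq, neg_zero]

theorem kw_inf (h : Fd A) {b : ℤ} (hb : b = A ∨ b = -A) (C : ℤ) :
    kw N A ρ (0, b, C) = ρ b * chP A C := by
  unfold kw
  have h1 : b ^ 2 - 4 * 0 * C = (A : ℤ) ^ 2 ∧ N ∣ (0 : ℤ) := by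
    refine ⟨?_, dvd_zero _⟩
    rcases hb with rfl | rfl <;> ring
  rw [if_pos h1, gnE_inf h]

theorem kw_zero (h : Fd A) {b : ℤ} (hb : b = A ∨ b = -A) (C : ℤ) :
    kw N A ρ (N * C, b, 0) = ρ b * (chP A N * chP A C) := by
  unfold kw
  have h1 : b ^ 2 - 4 * (N * C) * 0 = (A : ℤ) ^ 2 ∧ N ∣ N * C := by
    refine ⟨?_, dvd_mul_right _ _⟩
    rcases hb with rfl | rfl <;> ring
  rw [if_pos h1, gnE_zero h, (chr h).mul]

/-! ### the mean conditions -/

theorem mz_inf (h : Fd A) : MZ A 1 1 0 0 1 (kw N A ρ) := by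
  intro b hb
  refine ⟨0, fun _ _ => one_dvd _, ?_⟩
  have e : ∀ j ∈ Ico (0 : ℤ) A, kw N A ρ (act 1 (-0) (-0) 1 (0, b, 0 + 1 * j)) =
      ρ b * chP A j := by
    intro j _
    rw [← kw_inf (N := N) h hb j]
    congr 1
    unfold act
    simp
  rw [Finset.sum_congr rfl e, ← Finset.mul_sum, sum_Ico (chr h), mul_zero]

theorem mz_zero (h : Fd A) (O : Ori N ρ) : MZ A N 0 (-1) 1 0 (kw N A ρ) := by
  intro b hb
  have e0 : ∀ C : ℤ, act 0 (- -1) (-1) 0 (0, b, C) = (C, -b, 0) := by
    intro C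
    unfold act
    simp
  refine ⟨0, fun C hC => ?_, ?_⟩
  · rw [e0] at hC
    by_contra h1
    apply hC
    unfold kw
    rw [if_neg]
    rintro ⟨-, h2⟩
    exact h1 (by rw [sub_zero]; exact h2)
  · have hb' : -b = A ∨ -b = -A := by
      rcases hb with rfl | rfl
      · right; rfl
      · left; exact neg_neg _
    have e : ∀ j ∈ Ico (0 : ℤ) A, kw N A ρ (act 0 (- -1) (-1) 0 (0, b, 0 + N * j)) =
        (ρ (-b) * chP A N) * chP A j := by
      intro j _
      rw [e0, zero_add, kw_zero h hb', mul_assoc]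
    rw [Finset.sum_congr rfl e, ← Finset.mul_sum, sum_Ico (chr h), mul_zero]

/-- the homomorphism of the weight -/
theorem hom_kw (h : Fd A) (O : Ori N ρ) (hN : 0 < N) : N974.GN.OddHom N (Phi N (kw N A ρ)) :=
  oddHom (chr h).z (wt_kw h O) (par_kw h ρ) hN (mz_inf h) (mz_zero h O)

/-! ### the crossing number -/

/-- the weighted number of forms changing sign between infinity and `x / M` -/
def Fk (k : ℤ × ℤ × ℤ → ℤ) (x M : ℤ) : ℤ := ∑ᶠ q : ℤ × ℤ × ℤ,
  if 0 < q.1 ∧ ev q x M < 0 then k q else 0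

open Classical in
theorem Fk_eq (w : ℤ × ℤ × ℤ → ℤ) (A : ℕ) (hk : ∀ q : ℤ × ℤ × ℤ,
      q.2.1 ^ 2 - 4 * q.1 * q.2.2 = (A : ℤ) ^ 2 → k q = w q * gnE A q)
    (hk0 : ∀ q : ℤ × ℤ × ℤ, ¬ q.2.1 ^ 2 - 4 * q.1 * q.2.2 = (A : ℤ) ^ 2 → k q = 0) (x M : ℤ) :
    (∑ᶠ q : ℤ × ℤ × ℤ, if q.2.1 ^ 2 - 4 * q.1 * q.2.2 = (A : ℤ) ^ 2 ∧ 0 < q.1 ∧
      q.1 * x ^ 2 + q.2.1 * x * M + q.2.2 * M ^ 2 < 0 then w q * gnE A q else 0) = Fk k x M := by
  unfold Fk
  apply finsum_congr
  intro q
  have he : ev q x M = q.1 * x ^ 2 + q.2.1 * x * M + q.2.2 * M ^ 2 := rfl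
  rw [← he]
  by_cases h1 : q.2.1 ^ 2 - 4 * q.1 * q.2.2 = (A : ℤ) ^ 2
  · by_cases h2 : 0 < q.1 ∧ ev q x M < 0
    · rw [if_pos ⟨h1, h2⟩, if_pos h2, hk q h1]
    · rw [if_neg (fun h => h2 h.2), if_neg h2]
  · rw [if_neg (fun h => h1 h.1), hk0 q h1, ite_self]

/-- the terms of the forms which vanish neither at infinity nor at `x / M` -/
def TA (k : ℤ × ℤ × ℤ → ℤ) (x M : ℤ) (q : ℤ × ℤ × ℤ) : ℤ :=
  if q.1 ≠ 0 ∧ ev q x M ≠ 0 then k q * (Int.sign q.1 - Int.sign (ev q x M)) else 0

theorem sep_fin (H : Wt N D k) {x m : ℤ} (hxm : x ≠ 0 ∨ m ≠ 0) :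
    {q : ℤ × ℤ × ℤ | k q ≠ 0 ∧ ev q x m ≠ 0 ∧ Int.sign (tr q) ≠ Int.sign (ev q x m)}.Finite := by
  have hs : 0 < x ^ 2 + m ^ 2 := by
    rcases hxm with h | h
    · positivity
    · positivity
  refine (fin_sep (D := D) H.D0 (α := x ^ 2) (β := x * m) (γ := m ^ 2) hs
    (by have : x ^ 2 * m ^ 2 - (x * m) ^ 2 = 0 := by ring
        rw [this])).subset ?_
  rintro q ⟨h1, h2, h3⟩
  refine ⟨H.disc q h1, ?_, Or.inr ?_⟩
  · rw [← ev_lf]; exact h3
  · rw [← ev_lf]; exact h2

theorem TA_fin (H : Wt N D k) {x M : ℤ} (hM : M ≠ 0) : (Function.support (TA k x M)).Finite := by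
  refine ((sep_fin H (x := 1) (m := 0) (Or.inl one_ne_zero)).union
    (sep_fin H (x := x) (m := M) (Or.inr hM))).subset ?_
  intro q hq
  have hq' : TA k x M q ≠ 0 := hq
  unfold TA at hq'
  simp only [ne_eq, ite_eq_right_iff, Classical.not_imp] at hq'
  obtain ⟨⟨h1, h2⟩, h3⟩ := hq'
  have h0 : k q ≠ 0 := fun h0 => h3 (by rw [h0, zero_mul])
  by_cases h4 : Int.sign (tr q) = Int.sign (ev q x M)
  · left
    refine ⟨h0, by rw [ev10]; exact h1, ?_⟩
    rw [ev10, h4]
    intro h5
    exact h3 (by rw [h5, sub_self, mul_zero])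
  · right
    exact ⟨h0, h2, h4⟩

theorem ev_neg' (q : ℤ × ℤ × ℤ) (x M : ℤ) : ev (-q) x M = -ev q x M := by
  unfold ev
  show -q.1 * x ^ 2 + -q.2.1 * x * M + -q.2.2 * M ^ 2 = _
  ring

theorem sum_TA (H : Wt N D k) (hn : ∀ q, k (-q) = -k q) {x M : ℤ} (hM : M ≠ 0) :
    ∑ᶠ q, TA k x M q = 4 * Fk k x M := by
  obtain ⟨f, hf⟩ : ∃ f : ℤ × ℤ × ℤ → ℤ, f = fun q => if 0 < q.1 ∧ ev q x M < 0 then k q else 0 :=
    ⟨_, rfl⟩
  have h1 : ∀ q, TA k x M q = 2 * f q + 2 * f (-q) := by
    intro q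
    rw [hf]
    simp only
    unfold TA
    rw [ev_neg', hn]
    have e1 : (-q).1 = -q.1 := rfl
    rw [e1]
    rcases lt_trichotomy q.1 0 with h1 | h1 | h1
    · rcases lt_trichotomy (ev q x M) 0 with h2 | h2 | h2
      · rw [if_pos ⟨h1.ne, h2.ne⟩, if_neg (by omega), if_neg (by omega),
          Int.sign_eq_neg_one_of_neg h1, Int.sign_eq_neg_one_of_neg h2]
        ring
      · rw [if_neg (by omega), if_neg (by omega), if_neg (by omega)]
        ring
      · rw [if_pos ⟨h1.ne, h2.ne'⟩, if_neg (by omega), if_pos (by omega),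
          Int.sign_eq_neg_one_of_neg h1, Int.sign_eq_one_of_pos h2]
        ring
    · rw [if_neg (by omega), if_neg (by omega), if_neg (by omega)]
      ring
    · rcases lt_trichotomy (ev q x M) 0 with h2 | h2 | h2
      · rw [if_pos ⟨h1.ne', h2.ne⟩, if_pos (by omega), if_neg (by omega),
          Int.sign_eq_one_of_pos h1, Int.sign_eq_neg_one_of_neg h2]
        ring
      · rw [if_neg (by omega), if_neg (by omega), if_neg (by omega)]
        ring
      · rw [if_pos ⟨h1.ne', h2.ne'⟩, if_neg (by omega), if_neg (by omega),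
          Int.sign_eq_one_of_pos h1, Int.sign_eq_one_of_pos h2]
        ring
  have ff : (Function.support f).Finite := by
    refine (TA_fin H (x := x) hM).subset ?_
    intro q hq
    have hq' : f q ≠ 0 := hq
    rw [hf] at hq'
    simp only [ne_eq, ite_eq_right_iff, Classical.not_imp] at hq'
    obtain ⟨⟨h2, h3⟩, h4⟩ := hq'
    show TA k x M q ≠ 0
    unfold TA
    rw [if_pos ⟨h2.ne', h3.ne⟩, Int.sign_eq_one_of_pos h2, Int.sign_eq_neg_one_of_neg h3]
    intro h5
    apply h4
    omega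
  have ff' := fin_eqv ff (Equiv.neg (ℤ × ℤ × ℤ))
  have hs := sum_eqv f (Equiv.neg (ℤ × ℤ × ℤ))
  have e0 : Fk k x M = ∑ᶠ q, f q := by rw [hf]; rfl
  rw [finsum_congr h1, finsum_add_distrib (ff.subset (Function.support_mul_subset_right _ _))
    (ff'.subset (Function.support_mul_subset_right _ _)), e0]
  have e1 : ∑ᶠ q, 2 * f q = 2 * ∑ᶠ q, f q := (smul_finsum (2 : ℤ) f).symm
  have e2 : ∑ᶠ q, 2 * f (-q) = 2 * ∑ᶠ q, f q := by
    rw [← hs]
    exact (smul_finsum (2 : ℤ) fun q => f (-q)).symm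
  rw [e1, e2]
  ring

/-! ### the forms vanishing at infinity and at zero -/

/-- the terms of the forms vanishing at infinity -/
def TB (k : ℤ × ℤ × ℤ → ℤ) (x M : ℤ) (q : ℤ × ℤ × ℤ) : ℤ :=
  if q.1 = 0 then k q * (Int.sign q.2.2 - Int.sign (ev q x M)) else 0

/-- the terms of the forms vanishing at zero -/
def TZ (k : ℤ × ℤ × ℤ → ℤ) (x M : ℤ) (q : ℤ × ℤ × ℤ) : ℤ :=
  if q.2.2 = 0 then k q * (Int.sign q.1 - Int.sign (ev q x M)) else 0

theorem two_family {f : ℤ × ℤ × ℤ → ℤ} {A : ℤ} (hA : 0 < A) {i : ℤ → ℤ → ℤ × ℤ × ℤ}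
    (hi : ∀ b, Function.Injective (i b)) (hb : ∀ b C, (i b C).2.1 = b)
    (hf : ∀ q, f q ≠ 0 → (q.2.1 = A ∨ q.2.1 = -A) ∧ q ∈ Set.range (i q.2.1))
    (hfin : ∀ b, b = A ∨ b = -A → (Function.support fun C => f (i b C)).Finite) :
    (Function.support f).Finite ∧
      ∑ᶠ q, f q = (∑ᶠ C, f (i A C)) + ∑ᶠ C, f (i (-A) C) := by
  obtain ⟨g, hg⟩ : ∃ g : ℤ → ℤ × ℤ × ℤ → ℤ, g = fun b q => if q.2.1 = b then f q else 0 :=
    ⟨_, rfl⟩
  have h1 : ∀ q, f q = g A q + g (-A) q := by
    intro q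
    rw [hg]
    simp only
    by_cases h0 : f q = 0
    · rw [h0, ite_self, ite_self, add_zero]
    · rcases (hf q h0).1 with h2 | h2
      · rw [if_pos h2, if_neg (by omega), add_zero]
      · rw [if_neg (by omega), if_pos h2, zero_add]
  have h2 : ∀ b, ∀ q, g b q ≠ 0 → q ∈ Set.range (i b) := by
    intro b q hq
    rw [hg] at hq
    simp only [ne_eq, ite_eq_right_iff, Classical.not_imp] at hq
    have h3 := (hf q hq.2).2
    rwa [hq.1] at h3
  have h3 : ∀ b C, g b (i b C) = f (i b C) := by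
    intro b C
    rw [hg]
    simp only
    rw [if_pos (hb b C)]
  have h4 : ∀ b, b = A ∨ b = -A → (Function.support (g b)).Finite := by
    intro b hbA
    refine finite_family (h2 b) ?_
    have : (fun C => g b (i b C)) = fun C => f (i b C) := funext fun C => h3 b C
    rw [this]
    exact hfin b hbA
  have f1 := h4 A (Or.inl rfl)
  have f2 := h4 (-A) (Or.inr rfl)
  constructor
  · have : f = fun q => g A q + g (-A) q := funext h1
    rw [this]
    exact (f1.union f2).subset (Function.support_add _ _)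
  · rw [finsum_congr h1, finsum_add_distrib f1 f2, finsum_family (hi A) (h2 A),
      finsum_family (hi (-A)) (h2 (-A)), finsum_congr (h3 A), finsum_congr (h3 (-A))]

theorem e_sum {χ : ℤ → ℤ} {x M r : ℤ} {A : ℤ} (hM : 0 < M) :
    (Function.support fun C => r * χ C * (Int.sign C - Int.sign (A * x + C * M))).Finite ∧
    ∑ᶠ C, r * χ C * (Int.sign C - Int.sign (A * x + C * M)) = -r * E χ A x M := by
  have h1 : ∀ C, r * χ C * (Int.sign C - Int.sign (A * x + C * M)) = (-r) • e χ A x M C := by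
    intro C
    unfold e
    rw [smul_eq_mul]
    ring
  constructor
  · have : (fun C => r * χ C * (Int.sign C - Int.sign (A * x + C * M))) =
        fun C => (-r) • e χ A x M C := funext h1
    rw [this]
    refine (e_fin χ A x hM).subset ?_
    intro C hC h0
    exact hC (by
      show (-r) • e χ A x M C = 0
      rw [h0, smul_zero])
  · rw [finsum_congr h1, ← smul_finsum, smul_eq_mul]
    rfl

theorem TB_sum (h : Fd A) (O : Ori N ρ) (x : ℤ) {M : ℤ} (hM : 0 < M) :
    (Function.support (TB (kw N A ρ) x M)).Finite ∧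
      ∑ᶠ q, TB (kw N A ρ) x M q = -(2 * ρ A * E (chP A) A x M) := by
  have hA := (chr h).z
  have key : ∀ b : ℤ, (b = A ∨ b = -A) → ∀ C, TB (kw N A ρ) x M (0, b, C) =
      ρ b * chP A C * (Int.sign C - Int.sign (b * x + C * M)) := by
    intro b hb C
    have e0 : TB (kw N A ρ) x M (0, b, C) =
      kw N A ρ (0, b, C) * (Int.sign C - Int.sign (ev (0, b, C) x M)) := if_pos rfl
    rw [e0, kw_inf h hb]
    have e1 : ev (0, b, C) x M = M * (b * x + C * M) := by
      unfold ev
      ring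
    rw [e1, Int.sign_mul, Int.sign_eq_one_of_pos hM, one_mul]
  have key2 : ∀ C, ρ (-(A : ℤ)) * chP A C * (Int.sign C - Int.sign (-(A : ℤ) * x + C * M)) =
      -ρ A * chP A C * (Int.sign C - Int.sign (A * (-x) + C * M)) := by
    intro C
    rw [O.odd]
    congr 4
    ring
  have s1 := e_sum (χ := chP A) (x := x) (M := M) (r := ρ A) (A := A) hM
  have s2 := e_sum (χ := chP A) (x := -x) (M := M) (r := -ρ A) (A := A) hM
  have T := two_family (f := TB (kw N A ρ) x M) hA (i := fun b C => (0, b, C))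
    (fun b C C' hC => by
      simp only [Prod.mk.injEq, true_and] at hC
      exact hC) (fun b C => rfl) (by
      intro q hq
      unfold TB at hq
      simp only [ne_eq, ite_eq_right_iff, Classical.not_imp] at hq
      obtain ⟨h1, h2⟩ := hq
      have h3 := (wt_kw h O).disc q (fun h0 => h2 (by rw [h0, zero_mul]))
      refine ⟨?_, ⟨q.2.2, Prod.ext h1.symm rfl⟩⟩
      rw [h1] at h3
      exact sq_eq_sq_iff_eq_or_eq_neg.1 (by linear_combination h3)) (by
      intro b hb
      have : (fun C => TB (kw N A ρ) x M (0, b, C)) =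
        fun C => ρ b * chP A C * (Int.sign C - Int.sign (b * x + C * M)) := funext (key b hb)
      rw [this]
      rcases hb with rfl | rfl
      · exact s1.1
      · rw [show (fun C => ρ (-(A : ℤ)) * chP A C * (Int.sign C - Int.sign (-(A : ℤ) * x + C * M))) =
          fun C => -ρ A * chP A C * (Int.sign C - Int.sign (A * (-x) + C * M)) from funext key2]
        exact s2.1)
  refine ⟨T.1, ?_⟩
  rw [T.2]
  have t1 : ∑ᶠ C, TB (kw N A ρ) x M (0, (A : ℤ), C) = -ρ A * E (chP A) A x M := by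
    rw [finsum_congr (key A (Or.inl rfl))]
    exact s1.2
  have t2 : ∑ᶠ C, TB (kw N A ρ) x M (0, -(A : ℤ), C) = - -ρ A * E (chP A) A (-x) M := by
    rw [finsum_congr (key (-A) (Or.inr rfl)), finsum_congr key2]
    exact s2.2
  have t3 : E (chP A) A (-x) M = -E (chP A) A x M := by
    have := E_neg (M := (A : ℤ)) (w := chP A) (ε := 1) (Or.inl rfl)
      (fun C => by rw [(chr h).even, one_mul]) x M
    rw [this]
    ring
  have t4 : (∑ᶠ C, TB (kw N A ρ) x M ((fun b C => (0, b, C)) (A : ℤ) C)) +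
      ∑ᶠ C, TB (kw N A ρ) x M ((fun b C => (0, b, C)) (-(A : ℤ)) C) =
      (∑ᶠ C, TB (kw N A ρ) x M (0, (A : ℤ), C)) + ∑ᶠ C, TB (kw N A ρ) x M (0, -(A : ℤ), C) := rfl
  rw [t4, t1, t2, t3]
  ring

theorem TZ_sum (h : Fd A) (O : Ori N ρ) (hN : 0 < N) (c : ℤ) {M : ℤ} (hM : 0 < M) :
    (Function.support (TZ (kw N A ρ) M (-(N * c)))).Finite ∧
      ∑ᶠ q, TZ (kw N A ρ) M (-(N * c)) q = 2 * ρ A * (chP A N * E (chP A) A c M) := by
  have hA := (chr h).z
  have key : ∀ b : ℤ, (b = A ∨ b = -A) → ∀ C, TZ (kw N A ρ) M (-(N * c)) (N * C, b, 0) =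
      (ρ b * chP A N) * chP A C * (Int.sign C - Int.sign (b * (-c) + C * M)) := by
    intro b hb C
    have e0 : TZ (kw N A ρ) M (-(N * c)) (N * C, b, 0) = kw N A ρ (N * C, b, 0) *
      (Int.sign (N * C) - Int.sign (ev (N * C, b, 0) M (-(N * c)))) := if_pos rfl
    rw [e0, kw_zero h hb]
    have e1 : ev (N * C, b, 0) M (-(N * c)) = N * (M * (b * (-c) + C * M)) := by
      unfold ev
      ring
    rw [e1, Int.sign_mul, Int.sign_mul, Int.sign_mul, Int.sign_eq_one_of_pos hM,
      Int.sign_eq_one_of_pos hN, one_mul, one_mul, one_mul]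
    ring
  have key2 : ∀ C, (ρ (-(A : ℤ)) * chP A N) * chP A C *
      (Int.sign C - Int.sign (-(A : ℤ) * (-c) + C * M)) =
      (-(ρ A * chP A N)) * chP A C * (Int.sign C - Int.sign (A * c + C * M)) := by
    intro C
    rw [O.odd, neg_mul_neg]
    ring
  have s1 := e_sum (χ := chP A) (x := -c) (M := M) (r := ρ A * chP A N) (A := A) hM
  have s2 := e_sum (χ := chP A) (x := c) (M := M) (r := -(ρ A * chP A N)) (A := A) hM
  have T := two_family (f := TZ (kw N A ρ) M (-(N * c))) hA (i := fun b C => (N * C, b, 0))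
    (fun b C C' hC => by
      simp only [Prod.mk.injEq, true_and] at hC
      exact mul_left_cancel₀ hN.ne' hC.1) (fun b C => rfl) (by
      intro q hq
      unfold TZ at hq
      simp only [ne_eq, ite_eq_right_iff, Classical.not_imp] at hq
      obtain ⟨h1, h2⟩ := hq
      have h4 : kw N A ρ q ≠ 0 := fun h0 => h2 (by rw [h0, zero_mul])
      have h3 := (wt_kw h O).disc q h4
      have h5 : N ∣ q.1 := by
        by_contra h5
        exact h4 (if_neg fun h => h5 h.2)
      obtain ⟨t, ht⟩ := h5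
      refine ⟨?_, ⟨t, Prod.ext ht.symm (Prod.ext rfl h1.symm)⟩⟩
      rw [h1] at h3
      exact sq_eq_sq_iff_eq_or_eq_neg.1 (by linear_combination h3)) (by
      intro b hb
      have : (fun C => TZ (kw N A ρ) M (-(N * c)) (N * C, b, 0)) =
        fun C => (ρ b * chP A N) * chP A C * (Int.sign C - Int.sign (b * (-c) + C * M)) :=
          funext (key b hb)
      rw [this]
      rcases hb with rfl | rfl
      · exact s1.1
      · rw [show (fun C => (ρ (-(A : ℤ)) * chP A N) * chP A C *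
            (Int.sign C - Int.sign (-(A : ℤ) * (-c) + C * M))) =
          fun C => (-(ρ A * chP A N)) * chP A C * (Int.sign C - Int.sign (A * c + C * M)) from
            funext key2]
        exact s2.1)
  refine ⟨T.1, ?_⟩
  rw [T.2]
  have t1 : ∑ᶠ C, TZ (kw N A ρ) M (-(N * c)) (N * C, (A : ℤ), 0) =
      -(ρ A * chP A N) * E (chP A) A (-c) M := by
    rw [finsum_congr (key A (Or.inl rfl))]
    exact s1.2
  have t2 : ∑ᶠ C, TZ (kw N A ρ) M (-(N * c)) (N * C, -(A : ℤ), 0) =
      -(-(ρ A * chP A N)) * E (chP A) A c M := by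
    rw [finsum_congr (key (-A) (Or.inr rfl)), finsum_congr key2]
    exact s2.2
  have t3 : E (chP A) A (-c) M = -E (chP A) A c M := by
    have := E_neg (M := (A : ℤ)) (w := chP A) (ε := 1) (Or.inl rfl)
      (fun C => by rw [(chr h).even, one_mul]) c M
    rw [this]
    ring
  have t4 : (∑ᶠ C, TZ (kw N A ρ) M (-(N * c)) ((fun b C => (N * C, b, 0)) (A : ℤ) C)) +
      ∑ᶠ C, TZ (kw N A ρ) M (-(N * c)) ((fun b C => (N * C, b, 0)) (-(A : ℤ)) C) =
      (∑ᶠ C, TZ (kw N A ρ) M (-(N * c)) (N * C, (A : ℤ), 0)) +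
        ∑ᶠ C, TZ (kw N A ρ) M (-(N * c)) (N * C, -(A : ℤ), 0) := rfl
  rw [t4, t1, t2, t3]
  ring

/-! ### regularized base points -/

/-- the base point infinity -/
def si (q : ℤ × ℤ × ℤ) : ℤ := Int.sign q.1 + if q.1 = 0 then Int.sign q.2.2 else 0

/-- the base point zero -/
def sz (q : ℤ × ℤ × ℤ) : ℤ := Int.sign q.2.2 + if q.2.2 = 0 then Int.sign q.1 else 0

theorem si_fin (H : Wt N D k) :
    (Function.support fun q => k q * (Int.sign (tr q) - si q)).Finite := by
  refine (sep_fin H (x := 1) (m := 0) (Or.inl one_ne_zero)).subset ?_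
  intro q hq
  have hq' : k q * (Int.sign (tr q) - si q) ≠ 0 := hq
  have h0 : k q ≠ 0 := fun h0 => hq' (by rw [h0, zero_mul])
  have h1 : q.1 ≠ 0 := by
    intro h1
    apply hq'
    unfold si tr
    rw [if_pos h1, h1, zero_add, Int.sign_zero, zero_add, sub_self, mul_zero]
  refine ⟨h0, by rw [ev10]; exact h1, ?_⟩
  rw [ev10]
  intro h2
  apply hq'
  unfold si
  rw [if_neg h1, add_zero, h2, sub_self, mul_zero]

theorem sz_fin (H : Wt N D k) :
    (Function.support fun q => k q * (Int.sign (tr q) - sz q)).Finite := by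
  refine (sep_fin H (x := 0) (m := 1) (Or.inr one_ne_zero)).subset ?_
  intro q hq
  have hq' : k q * (Int.sign (tr q) - sz q) ≠ 0 := hq
  have h0 : k q ≠ 0 := fun h0 => hq' (by rw [h0, zero_mul])
  have h1 : q.2.2 ≠ 0 := by
    intro h1
    apply hq'
    unfold sz tr
    rw [if_pos h1, h1, add_zero, Int.sign_zero, zero_add, sub_self, mul_zero]
  refine ⟨h0, by rw [ev01]; exact h1, ?_⟩
  rw [ev01]
  intro h2
  apply hq'
  unfold sz
  rw [if_neg h1, add_zero, h2, sub_self, mul_zero]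

theorem iz_fin (H : Wt N D k) : (Function.support fun q => k q * (si q - sz q)).Finite := by
  have h1 : (fun q => k q * (si q - sz q)) =
      fun q => k q * (Int.sign (tr q) - sz q) - k q * (Int.sign (tr q) - si q) := by
    funext q
    ring
  rw [h1]
  exact ((sz_fin H).union (si_fin H)).subset (Function.support_sub _ _)

/-- the two base points are equivalent for odd weights -/
theorem iz_zero (hp : Par k 1) : ∑ᶠ q, k q * (si q - sz q) = 0 := by
  have h1 := sum_eqv (fun q => k q * (si q - sz q)) refl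
  have h2 : ∀ q, k (refl q) * (si (refl q) - sz (refl q)) = -(k q * (si q - sz q)) := by
    intro q
    have hk : k (refl q) = 1 * k q := hp q.1 q.2.1 q.2.2
    have e1 : si (refl q) = -si q := by
      unfold si
      show Int.sign (-q.1) + (if -q.1 = 0 then Int.sign (-q.2.2) else 0) = _
      rw [Int.sign_neg, Int.sign_neg]
      simp only [neg_eq_zero]
      split_ifs <;> ring
    have e2 : sz (refl q) = -sz q := by
      unfold sz
      show Int.sign (-q.2.2) + (if -q.2.2 = 0 then Int.sign (-q.1) else 0) = _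
      rw [Int.sign_neg, Int.sign_neg]
      simp only [neg_eq_zero]
      split_ifs <;> ring
    rw [hk, e1, e2]
    ring
  rw [finsum_congr h2, finsum_neg_distrib] at h1
  linarith

/-- the terms of the forms vanishing at `x / M` -/
def TC (k : ℤ × ℤ × ℤ → ℤ) (x M : ℤ) (w : ℤ × ℤ × ℤ → ℤ) (q : ℤ × ℤ × ℤ) : ℤ :=
  if ev q x M = 0 then k q * (Int.sign q.1 - Int.sign (w q)) else 0

theorem split_T (x M : ℤ) (w : ℤ × ℤ × ℤ → ℤ) (q : ℤ × ℤ × ℤ) :
    k q * (si q - (Int.sign (ev q x M) + if ev q x M = 0 then Int.sign (w q) else 0)) =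
      TA k x M q + TB k x M q + TC k x M w q := by
  unfold si TA TB TC
  by_cases h1 : q.1 = 0
  · have h3 : ¬ (q.1 ≠ 0 ∧ ev q x M ≠ 0) := fun h => h.1 h1
    rw [if_pos h1, if_pos h1, if_neg h3]
    by_cases h2 : ev q x M = 0
    · rw [if_pos h2, if_pos h2, h2, h1, Int.sign_zero]
      ring
    · rw [if_neg h2, if_neg h2, h1, Int.sign_zero]
      ring
  · rw [if_neg h1, if_neg h1]
    by_cases h2 : ev q x M = 0
    · have h3 : ¬ (q.1 ≠ 0 ∧ ev q x M ≠ 0) := fun h => h.2 h2
      rw [if_pos h2, if_pos h2, if_neg h3, h2, Int.sign_zero]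
      ring
    · have h3 : q.1 ≠ 0 ∧ ev q x M ≠ 0 := ⟨h1, h2⟩
      rw [if_neg h2, if_neg h2, if_pos h3]
      ring

/-- **the class of infinity**, with boundary terms -/
theorem reg_inf (h : Fd A) (O : Ori N ρ) {x b c d : ℤ} (hdet : x * d - b * (N * c) = 1)
    (hM : 0 < N * c) : Phi N (kw N A ρ) x b c d =
      4 * Fk (kw N A ρ) x (N * c) - 2 * ρ A * (bdE A x (N * c) + bdE A d (N * c)) := by
  have H := wt_kw h O
  rw [Phi_base H (si_fin H) hdet]
  have e1 : ∀ q, (act x b (N * c) d q).1 = ev q x (N * c) := by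
    intro q
    unfold act ev
    ring
  have h1 : ∀ q, kw N A ρ q * (si q - si (act x b (N * c) d q)) =
      TA (kw N A ρ) x (N * c) q + TB (kw N A ρ) x (N * c) q +
        TC (kw N A ρ) x (N * c) (fun q => (act x b (N * c) d q).2.2) q := by
    intro q
    rw [← split_T]
    show _ = kw N A ρ q * (si q - (Int.sign (ev q x (N * c)) + if ev q x (N * c) = 0 then
      Int.sign (act x b (N * c) d q).2.2 else 0))
    rw [← e1]
    rfl
  have hB := TB_sum h O x hM
  have hB' := TB_sum h O (-d) hM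
  -- the third part
  have h2 : ∀ q, TC (kw N A ρ) x (N * c) (fun q => (act x b (N * c) d q).2.2) q =
      -TB (kw N A ρ) (-d) (N * c) (eqv x b (N * c) d hdet q) := by
    intro q
    show _ = -TB (kw N A ρ) (-d) (N * c) (act x b (N * c) d q)
    unfold TC TB
    rw [e1, H.inv hdet]
    have e2 : ev (act x b (N * c) d q) (-d) (N * c) = q.1 := by
      rw [← ev_neg_neg, neg_neg, ev_act]
      have e3 : x * d + b * -(N * c) = 1 := by linear_combination hdet
      have e4 : N * c * d + d * -(N * c) = 0 := by ring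
      rw [e3, e4, ev10]
    rw [e2]
    split_ifs <;> ring
  have fC : (Function.support (TC (kw N A ρ) x (N * c)
      (fun q => (act x b (N * c) d q).2.2))).Finite := by
    have : TC (kw N A ρ) x (N * c) (fun q => (act x b (N * c) d q).2.2) =
      fun q => -TB (kw N A ρ) (-d) (N * c) (eqv x b (N * c) d hdet q) := funext h2
    rw [this]
    have := fin_eqv hB'.1 (eqv x b (N * c) d hdet)
    refine this.subset ?_
    intro q hq h0
    have h0' : TB (kw N A ρ) (-d) (N * c) (eqv x b (N * c) d hdet q) = 0 := h0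
    exact hq (by
      show -TB (kw N A ρ) (-d) (N * c) (eqv x b (N * c) d hdet q) = 0
      rw [h0', neg_zero])
  have fA := TA_fin H (x := x) hM.ne'
  rw [finsum_congr h1, finsum_add_distrib ((fA.union hB.1).subset (Function.support_add _ _)) fC,
    finsum_add_distrib fA hB.1, sum_TA H (neg_kw h O) hM.ne', hB.2, finsum_congr h2,
    finsum_neg_distrib, sum_eqv, hB'.2, bdE_E h x hM, bdE_E h d hM]
  have t3 : E (chP A) A (-d) (N * c) = -E (chP A) A d (N * c) := by
    have := E_neg (M := (A : ℤ)) (w := chP A) (ε := 1) (Or.inl rfl)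
      (fun C => by rw [(chr h).even, one_mul]) d (N * c)
    rw [this]
    ring
  rw [t3]
  ring

/-- **the class of zero**, with boundary terms -/
theorem reg_zero (h : Fd A) (O : Ori N ρ) (hN : 0 < N) {a x c M : ℤ}
    (hdet : a * M - x * (N * c) = 1) (hM : 0 < M) : Phi N (kw N A ρ) a x c M =
      4 * Fk (kw N A ρ) x M - 2 * ρ A * bdE A x M - 2 * ρ A * (chP A N * bdE A c M) := by
  have H := wt_kw h O
  rw [Phi_base H (sz_fin H) hdet]
  have e1 : ∀ q, (act a x (N * c) M q).2.2 = ev q x M := by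
    intro q
    unfold act ev
    ring
  have fz : (Function.support fun q => kw N A ρ q * (sz q - sz (act a x (N * c) M q))).Finite := by
    have f1 := sz_fin H
    have f2 := V_fin H (by linear_combination hdet : a * M - x * (N * c) = 1)
    have f3 := fin_eqv f1 (eqv a x (N * c) M hdet)
    have e : (fun q => kw N A ρ q * (sz q - sz (act a x (N * c) M q))) = fun q =>
        (V (kw N A ρ) a x (N * c) M q - kw N A ρ q * (Int.sign (tr q) - sz q)) +
          (fun q => kw N A ρ q * (Int.sign (tr q) - sz q)) (eqv a x (N * c) M hdet q) := by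
      funext q
      show _ = _ + kw N A ρ (act a x (N * c) M q) * (Int.sign (tr (act a x (N * c) M q)) -
        sz (act a x (N * c) M q))
      rw [H.inv hdet]
      unfold V
      ring
    rw [e]
    exact ((((f2.union f1).subset (Function.support_sub _ _))).union f3).subset
      (Function.support_add _ _)
  have h0 : ∑ᶠ q, kw N A ρ q * (sz q - sz (act a x (N * c) M q)) =
      ∑ᶠ q, kw N A ρ q * (si q - sz (act a x (N * c) M q)) := by
    have h1 : ∀ q, kw N A ρ q * (si q - sz (act a x (N * c) M q)) =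
        kw N A ρ q * (si q - sz q) + kw N A ρ q * (sz q - sz (act a x (N * c) M q)) := by
      intro q
      ring
    rw [finsum_congr h1, finsum_add_distrib (iz_fin H) fz, iz_zero (par_kw h ρ), zero_add]
  rw [h0]
  have h1 : ∀ q, kw N A ρ q * (si q - sz (act a x (N * c) M q)) =
      TA (kw N A ρ) x M q + TB (kw N A ρ) x M q +
        TC (kw N A ρ) x M (fun q => (act a x (N * c) M q).1) q := by
    intro q
    rw [← split_T]
    show _ = kw N A ρ q * (si q - (Int.sign (ev q x M) + if ev q x M = 0 then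
      Int.sign (act a x (N * c) M q).1 else 0))
    rw [← e1]
    rfl
  have hB := TB_sum h O x hM
  have hZ := TZ_sum h O hN c hM
  -- the third part
  have h2 : ∀ q, TC (kw N A ρ) x M (fun q => (act a x (N * c) M q).1) q =
      -TZ (kw N A ρ) M (-(N * c)) (eqv a x (N * c) M hdet q) := by
    intro q
    show _ = -TZ (kw N A ρ) M (-(N * c)) (act a x (N * c) M q)
    unfold TC TZ
    rw [e1, H.inv hdet]
    have e2 : ev (act a x (N * c) M q) M (-(N * c)) = q.1 := by
      rw [ev_act]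
      have e3 : a * M + x * -(N * c) = 1 := by linear_combination hdet
      have e4 : N * c * M + M * -(N * c) = 0 := by ring
      rw [e3, e4, ev10]
    rw [e2]
    split_ifs <;> ring
  have fC : (Function.support (TC (kw N A ρ) x M (fun q => (act a x (N * c) M q).1))).Finite := by
    have : TC (kw N A ρ) x M (fun q => (act a x (N * c) M q).1) =
      fun q => -TZ (kw N A ρ) M (-(N * c)) (eqv a x (N * c) M hdet q) := funext h2
    rw [this]
    have := fin_eqv hZ.1 (eqv a x (N * c) M hdet)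
    refine this.subset ?_
    intro q hq h0
    have h0' : TZ (kw N A ρ) M (-(N * c)) (eqv a x (N * c) M hdet q) = 0 := h0
    exact hq (by
      show -TZ (kw N A ρ) M (-(N * c)) (eqv a x (N * c) M hdet q) = 0
      rw [h0', neg_zero])
  have fA := TA_fin H (x := x) hM.ne'
  rw [finsum_congr h1, finsum_add_distrib ((fA.union hB.1).subset (Function.support_add _ _)) fC,
    finsum_add_distrib fA hB.1, sum_TA H (neg_kw h O) hM.ne', hB.2, finsum_congr h2,
    finsum_neg_distrib, sum_eqv, hZ.2, bdE_E h x hM, bdE_E h c hM]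
  ring

/-- the regularized crossing number at a cusp where no form vanishes -/
def RG (k : ℤ × ℤ × ℤ → ℤ) (x M : ℤ) : ℤ := ∑ᶠ q, k q * (si q - Int.sign (ev q x M))

theorem RG_fin (H : Wt N D k) {x M : ℤ} (hxM : x ≠ 0 ∨ M ≠ 0) (hv : ∀ q, k q ≠ 0 → ev q x M ≠ 0) :
    (Function.support fun q => k q * (si q - Int.sign (ev q x M))).Finite := by
  have h1 : (fun q => k q * (si q - Int.sign (ev q x M))) =
      fun q => k q * (Int.sign (tr q) - Int.sign (ev q x M)) - k q * (Int.sign (tr q) - si q) := by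
    funext q
    ring
  rw [h1]
  exact ((cusp_fin H hxM hv).union (si_fin H)).subset (Function.support_sub _ _)

theorem RG_eq (h : Fd A) (O : Ori N ρ) {x M : ℤ} (hM : 0 < M)
    (hv : ∀ q, kw N A ρ q ≠ 0 → ev q x M ≠ 0) :
    RG (kw N A ρ) x M = 4 * Fk (kw N A ρ) x M - 2 * ρ A * bdE A x M := by
  have H := wt_kw h O
  have h1 : ∀ q, kw N A ρ q * (si q - Int.sign (ev q x M)) =
      TA (kw N A ρ) x M q + TB (kw N A ρ) x M q := by
    intro q
    have h2 := split_T (k := kw N A ρ) x M (fun _ => 0) q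
    have h3 : TC (kw N A ρ) x M (fun _ => 0) q = 0 := by
      unfold TC
      by_cases h4 : ev q x M = 0
      · rw [if_pos h4]
        by_cases h5 : kw N A ρ q = 0
        · rw [h5, zero_mul]
        · exact absurd h4 (hv q h5)
      · rw [if_neg h4]
    rw [h3, add_zero] at h2
    rw [← h2, Int.sign_zero, ite_self, add_zero]
  have hB := TB_sum h O x hM
  unfold RG
  rw [finsum_congr h1, finsum_add_distrib (TA_fin H (x := x) hM.ne') hB.1,
    sum_TA H (neg_kw h O) hM.ne', hB.2, bdE_E h x hM]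
  ring

/-- the cocycle relation -/
theorem RG_coc (H : Wt N D k) {x M : ℤ} (hxM : x ≠ 0 ∨ M ≠ 0)
    (hv : ∀ q, k q ≠ 0 → ev q x M ≠ 0) {a b c d : ℤ} (hdet : a * d - b * (N * c) = 1) :
    RG k (a * x + b * M) (N * c * x + d * M) = Phi N k a b c d + RG k x M := by
  have f0 := RG_fin H hxM hv
  have f1 := fin_eqv f0 (eqv a b (N * c) d hdet)
  have fs : (Function.support fun q => k q * (si q - si (act a b (N * c) d q))).Finite := by
    have f1 := si_fin H
    have f2 := V_fin H hdet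
    have f3 := fin_eqv f1 (eqv a b (N * c) d hdet)
    have e : (fun q => k q * (si q - si (act a b (N * c) d q))) = fun q =>
        (V k a b (N * c) d q - k q * (Int.sign (tr q) - si q)) +
          (fun q => k q * (Int.sign (tr q) - si q)) (eqv a b (N * c) d hdet q) := by
      funext q
      show _ = _ + k (act a b (N * c) d q) * (Int.sign (tr (act a b (N * c) d q)) -
        si (act a b (N * c) d q))
      rw [H.inv hdet]
      unfold V
      ring
    rw [e]
    exact ((((f2.union f1).subset (Function.support_sub _ _))).union f3).subset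
      (Function.support_add _ _)
  have h1 : ∀ q, k q * (si q - Int.sign (ev q (a * x + b * M) (N * c * x + d * M))) =
      k q * (si q - si (act a b (N * c) d q)) +
        (fun q => k q * (si q - Int.sign (ev q x M))) (eqv a b (N * c) d hdet q) := by
    intro q
    show _ = _ + k (act a b (N * c) d q) * (si (act a b (N * c) d q) -
      Int.sign (ev (act a b (N * c) d q) x M))
    rw [H.inv hdet, ev_act]
    ring
  unfold RG
  rw [finsum_congr h1, finsum_add_distrib fs f1,
    sum_eqv (fun q => k q * (si q - Int.sign (ev q x M))) (eqv a b (N * c) d hdet),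
    Phi_base H (si_fin H) hdet]

end

end Pool.Agent.N975.Ph
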