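import Pool.Agent.N974.GN.OddH
import Pool.Agent.N975.RQ.AL

/-!
# The homomorphism of an invariant weight, with an interior base point

For a weight `k` on the forms of discriminant `D > 0`, invariant under `Γ₀(N)`, the sum
`Φ(g) = ∑ k q (sign (q.1 + q.2.2) - sign ((q ∘ g).1 + (q ∘ g).2.2))` is finite for all `g` and is a
homomorphism; there is no condition on the cusps.
-/

set_option autoImplicit false

open Finset

namespace Pool.Agent.N975.Ph

open Pool.Agent.N975.Sym (ev act act_inv eqv ev_act ev10)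
open Pool.Agent.N975.S17 (sign_cases fin_eqv sum_eqv finsum_family finite_family ev_neg_neg ev01)

noncomputable section

/-- an invariant weight on the forms of discriminant `D`, level `N` -/
structure Wt (N D : ℤ) (k : ℤ × ℤ × ℤ → ℤ) : Prop where
  D0 : 0 < D
  disc : ∀ q, k q ≠ 0 → q.2.1 ^ 2 - 4 * q.1 * q.2.2 = D
  inv : ∀ {a b c d : ℤ}, a * d - b * (N * c) = 1 → ∀ q, k (act a b (N * c) d q) = k q

/-- the parity of a weight -/
def Par (k : ℤ × ℤ × ℤ → ℤ) (ε : ℤ) : Prop := ∀ A B C, k (-A, B, -C) = ε * k (A, B, C)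

variable {N D : ℤ} {k : ℤ × ℤ × ℤ → ℤ}

/-- the value at the base point -/
def tr (q : ℤ × ℤ × ℤ) : ℤ := q.1 + q.2.2

/-! ### finiteness -/

theorem ident (A B C α β γ : ℤ) :
    (B ^ 2 - 4 * A * C) * ((α + γ) ^ 2 - 4 * (α * γ - β ^ 2)) - 4 * (α * A + β * B + γ * C) ^ 2 +
      4 * ((A + C) * (α * A + β * B + γ * C)) * (α + γ) - 4 * (α * γ - β ^ 2) * (A + C) ^ 2 =
      (2 * (A - C) * β - B * (α - γ)) ^ 2 := by ring

theorem sign_ne {t u : ℤ} (h : Int.sign t ≠ Int.sign u) : t * u ≤ 0 := by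
  by_contra h1
  rw [not_le] at h1
  apply h
  rcases pos_and_pos_or_neg_and_neg_of_mul_pos h1 with ⟨h2, h3⟩ | ⟨h2, h3⟩
  · rw [Int.sign_eq_one_of_pos h2, Int.sign_eq_one_of_pos h3]
  · rw [Int.sign_eq_neg_one_of_neg h2, Int.sign_eq_neg_one_of_neg h3]

theorem sep_bound {D α β γ A B C : ℤ} (hD : 0 < D) (hs : 0 < α + γ)
    (hδ : 0 ≤ α * γ - β ^ 2) (hd : B ^ 2 - 4 * A * C = D)
    (h1 : (A + C) * (α * A + β * B + γ * C) ≤ 0)
    (h2 : 0 < α * γ - β ^ 2 ∨ α * A + β * B + γ * C ≠ 0) :
    |A + C| ≤ D * (α + γ) ^ 2 := by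
  obtain ⟨t, ht⟩ : ∃ t, t = A + C := ⟨_, rfl⟩
  obtain ⟨t', ht'⟩ : ∃ t', t' = α * A + β * B + γ * C := ⟨_, rfl⟩
  obtain ⟨s, hs'⟩ : ∃ s, s = α + γ := ⟨_, rfl⟩
  obtain ⟨δ, hδ'⟩ : ∃ δ, δ = α * γ - β ^ 2 := ⟨_, rfl⟩
  have hid := ident A B C α β γ
  rw [hd, ← ht, ← ht', ← hs', ← hδ'] at hid
  rw [← ht, ← ht'] at h1
  rw [← ht', ← hδ'] at h2
  rw [← hs'] at hs
  rw [← hδ'] at hδ
  rw [← ht, ← hs']
  have hsq := sq_nonneg (2 * (A - C) * β - B * (α - γ))
  rw [← hid] at hsq
  have hDs : 0 ≤ D * δ := mul_nonneg hD.le hδ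
  have h3 : 4 * t' ^ 2 + 4 * (-(t * t')) * s + 4 * δ * t ^ 2 ≤ D * s ^ 2 := by nlinarith
  have h4 : 0 ≤ -(t * t') := by linarith
  have h5 : 0 ≤ 4 * (-(t * t')) * s := by positivity
  have h6 : 0 ≤ 4 * δ * t ^ 2 := by positivity
  rcases h2 with h2 | h2
  · have h7 : t ^ 2 ≤ 4 * δ * t ^ 2 := by nlinarith [sq_nonneg t]
    have h8 : |t| ≤ t ^ 2 := by
      rw [← sq_abs]
      exact Int.le_self_sq _
    nlinarith [sq_nonneg t']
  · have h7 : 1 ≤ |t'| := Int.one_le_abs h2
    have h8 : -(t * t') = |t| * |t'| := by rw [← abs_mul, abs_of_nonpos h1]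
    have h9 : |t| ≤ -(t * t') := by
      rw [h8]
      exact le_mul_of_one_le_right (abs_nonneg _) h7
    have h10 : |t| ≤ 4 * (-(t * t')) * s := by nlinarith [abs_nonneg t]
    nlinarith [sq_nonneg t']

/-- the forms separating the base point from another point are finite in number -/
theorem fin_sep {D α β γ : ℤ} (hD : 0 < D) (hs : 0 < α + γ) (hδ : 0 ≤ α * γ - β ^ 2) :
    {q : ℤ × ℤ × ℤ | q.2.1 ^ 2 - 4 * q.1 * q.2.2 = D ∧
      Int.sign (tr q) ≠ Int.sign (α * q.1 + β * q.2.1 + γ * q.2.2) ∧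
      (0 < α * γ - β ^ 2 ∨ α * q.1 + β * q.2.1 + γ * q.2.2 ≠ 0)}.Finite := by
  set K : ℤ := D * (α + γ) ^ 2 with hK
  set M : ℤ := D + K ^ 2 with hM
  refine ((Set.finite_Icc (-(K + M)) (K + M)).prod ((Set.finite_Icc (-(K + M)) (K + M)).prod
    (Set.finite_Icc (-(K + M)) (K + M)))).subset ?_
  rintro ⟨A, B, C⟩ ⟨h1, h2, h3⟩
  simp only at h1 h2 h3
  have hK0 : 0 ≤ K := by positivity
  have ht : |A + C| ≤ K := sep_bound hD hs hδ h1 (sign_ne h2) h3
  have ht2 : (A + C) ^ 2 ≤ K ^ 2 := by
    rw [← sq_abs]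
    exact pow_le_pow_left₀ (abs_nonneg _) ht 2
  have hu : (A - C) ^ 2 + B ^ 2 ≤ M := by
    have : (A - C) ^ 2 + B ^ 2 = D + (A + C) ^ 2 := by rw [← h1]; ring
    rw [this]
    linarith
  have u1 := Int.le_self_sq (A - C)
  have u2 := Int.le_self_sq (-(A - C))
  have b1 := Int.le_self_sq B
  have b2 := Int.le_self_sq (-B)
  rw [neg_sq] at u2 b2
  have s1 := sq_nonneg (A - C)
  have s2 := sq_nonneg B
  obtain ⟨t1, t2⟩ := abs_le.1 ht
  refine ⟨⟨?_, ?_⟩, ⟨?_, ?_⟩, ⟨?_, ?_⟩⟩ <;> linarith

/-- the difference of the signs at the base point and at another point -/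
def F (k : ℤ × ℤ × ℤ → ℤ) (α β γ : ℤ) (q : ℤ × ℤ × ℤ) : ℤ :=
  k q * (Int.sign (tr q) - Int.sign (α * q.1 + β * q.2.1 + γ * q.2.2))

theorem F_fin (H : Wt N D k) {α β γ : ℤ} (hs : 0 < α + γ) (hδ : 0 ≤ α * γ - β ^ 2)
    (hz : 0 < α * γ - β ^ 2 ∨ ∀ q, k q ≠ 0 → α * q.1 + β * q.2.1 + γ * q.2.2 ≠ 0) :
    (Function.support (F k α β γ)).Finite := by
  refine (fin_sep H.D0 hs hδ).subset ?_
  intro q hq
  have h0 : k q ≠ 0 := by
    intro h0
    apply hq
    unfold F
    rw [h0, zero_mul]
  refine ⟨H.disc q h0, ?_, ?_⟩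
  · intro h1
    apply hq
    unfold F
    rw [h1, sub_self, mul_zero]
  · rcases hz with hz | hz
    · exact Or.inl hz
    · exact Or.inr (hz q h0)

theorem tr_act (a b c d : ℤ) (q : ℤ × ℤ × ℤ) : tr (act a b c d q) =
    (a ^ 2 + b ^ 2) * q.1 + (a * c + b * d) * q.2.1 + (c ^ 2 + d ^ 2) * q.2.2 := by
  unfold tr act
  simp only
  ring

theorem act_act (a b c d a' b' c' d' : ℤ) (q : ℤ × ℤ × ℤ) :
    act a' b' c' d' (act a b c d q) =
      act (a * a' + b * c') (a * b' + b * d') (c * a' + d * c') (c * b' + d * d') q := by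
  unfold act
  simp only [Prod.mk.injEq]
  refine ⟨by ring, by ring, by ring⟩

/-! ### the homomorphism -/

/-- the terms -/
def V (k : ℤ × ℤ × ℤ → ℤ) (a b c d : ℤ) (q : ℤ × ℤ × ℤ) : ℤ :=
  k q * (Int.sign (tr q) - Int.sign (tr (act a b c d q)))

/-- the homomorphism of a weight -/
def Phi (N : ℤ) (k : ℤ × ℤ × ℤ → ℤ) (a b c d : ℤ) : ℤ := ∑ᶠ q, V k a b (N * c) d q

theorem V_eq (a b c d : ℤ) (q : ℤ × ℤ × ℤ) :
    V k a b c d q = F k (a ^ 2 + b ^ 2) (a * c + b * d) (c ^ 2 + d ^ 2) q := by
  unfold V F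
  rw [tr_act]

theorem pos_of_det {a b c d : ℤ} (h : a * d - b * c ≠ 0) : 0 < (a ^ 2 + b ^ 2) + (c ^ 2 + d ^ 2) ∧
    0 < (a ^ 2 + b ^ 2) * (c ^ 2 + d ^ 2) - (a * c + b * d) ^ 2 := by
  have e : (a ^ 2 + b ^ 2) * (c ^ 2 + d ^ 2) - (a * c + b * d) ^ 2 = (a * d - b * c) ^ 2 := by ring
  have h1 : 0 < (a * d - b * c) ^ 2 := by positivity
  refine ⟨?_, by rw [e]; exact h1⟩
  by_contra h2
  have h3 : a ^ 2 + b ^ 2 = 0 := by nlinarith [sq_nonneg a, sq_nonneg b, sq_nonneg c, sq_nonneg d]
  have h4 : a = 0 := by nlinarith [sq_nonneg a, sq_nonneg b]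
  have h5 : b = 0 := by nlinarith [sq_nonneg a, sq_nonneg b]
  apply h
  rw [h4, h5]
  ring

theorem V_fin (H : Wt N D k) {a b c d : ℤ} (h : a * d - b * c = 1) :
    (Function.support (V k a b c d)).Finite := by
  have h1 := pos_of_det (a := a) (b := b) (c := c) (d := d) (by rw [h]; exact one_ne_zero)
  have h2 := F_fin H h1.1 h1.2.le (Or.inl h1.2)
  refine h2.subset ?_
  intro q hq
  rw [Function.mem_support, ← V_eq]
  exact hq

/-- **the homomorphism property** -/
theorem Phi_hom (H : Wt N D k) {a b c d a' b' c' d' : ℤ} (h : a * d - b * (N * c) = 1)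
    (h' : a' * d' - b' * (N * c') = 1) :
    Phi N k (a * a' + b * (N * c')) (a * b' + b * d') (c * a' + d * c') (N * c * b' + d * d') =
      Phi N k a b c d + Phi N k a' b' c' d' := by
  have e : N * (c * a' + d * c') = N * c * a' + d * (N * c') := by ring
  have h1 : ∀ q, V k (a * a' + b * (N * c')) (a * b' + b * d') (N * (c * a' + d * c'))
      (N * c * b' + d * d') q = V k a b (N * c) d q + V k a' b' (N * c') d' (eqv a b (N * c) d h q) := by
    intro q
    have hk := H.inv h q
    show _ = V k a b (N * c) d q + V k a' b' (N * c') d' (act a b (N * c) d q)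
    unfold V
    rw [hk, act_act, ← e]
    ring
  unfold Phi
  rw [finsum_congr h1, finsum_add_distrib (V_fin H h) (fin_eqv (V_fin H h') _), sum_eqv]

theorem act_neg (a b c d : ℤ) (q : ℤ × ℤ × ℤ) : act (-a) (-b) (-c) (-d) q = act a b c d q := by
  unfold act
  simp only [Prod.mk.injEq]
  refine ⟨by ring, by ring, by ring⟩

theorem Phi_neg (a b c d : ℤ) : Phi N k (-a) (-b) (-c) (-d) = Phi N k a b c d := by
  unfold Phi
  apply finsum_congr
  intro q
  unfold V
  rw [mul_neg, act_neg]

open Pool.Agent.N975.RQ (refl)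

theorem act_refl (a b c d : ℤ) (q : ℤ × ℤ × ℤ) :
    act a (-b) (-c) d (refl q) = refl (act a b c d q) := by
  obtain ⟨A, B, C⟩ := q
  show act a (-b) (-c) d (-A, B, -C) = (-(act a b c d (A, B, C)).1, (act a b c d (A, B, C)).2.1,
    -(act a b c d (A, B, C)).2.2)
  unfold act
  simp only [Prod.mk.injEq]
  refine ⟨by ring, by ring, by ring⟩

theorem tr_refl (q : ℤ × ℤ × ℤ) : tr (refl q) = -tr q := by
  show -q.1 + -q.2.2 = -(q.1 + q.2.2)
  ring

theorem Phi_par {ε : ℤ} (hp : Par k ε) (a b c d : ℤ) :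
    Phi N k a (-b) (-c) d = -ε * Phi N k a b c d := by
  unfold Phi
  rw [← sum_eqv (fun q => V k a (-b) (N * -c) d q) refl]
  have h1 : ∀ q, V k a (-b) (N * -c) d (refl q) = -ε * V k a b (N * c) d q := by
    intro q
    have hk : k (refl q) = ε * k q := hp q.1 q.2.1 q.2.2
    unfold V
    rw [mul_neg, act_refl, tr_refl, tr_refl, hk, Int.sign_neg, Int.sign_neg]
    ring
  rw [finsum_congr h1]
  by_cases hε : ε = 0
  · subst hε
    simp
  · exact (smul_finsum (-ε) _).symm

/-- linearity in the weight -/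
theorem Phi_add {k' : ℤ × ℤ × ℤ → ℤ} (H : Wt N D k) (H' : Wt N D k') {a b c d : ℤ}
    (h : a * d - b * (N * c) = 1) :
    Phi N (fun q => k q + k' q) a b c d = Phi N k a b c d + Phi N k' a b c d := by
  unfold Phi
  rw [← finsum_add_distrib (V_fin H h) (V_fin H' h)]
  apply finsum_congr
  intro q
  unfold V
  ring

/-- the weight is invariant under a larger group -/
theorem Phi_level {M : ℤ} (a b c d : ℤ) : Phi (N * M) k a b c d = Phi N k a b (M * c) d := by
  unfold Phi
  apply finsum_congr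
  intro q
  rw [mul_assoc]

/-! ### change of the base point -/

/-- **change of the base point** -/
theorem base (H : Wt N D k) {s₁ s₂ : ℤ × ℤ × ℤ → ℤ}
    (hf : (Function.support fun q => k q * (s₁ q - s₂ q)).Finite) {a b c d : ℤ}
    (h : a * d - b * (N * c) = 1)
    (h1 : (Function.support fun q => k q * (s₁ q - s₁ (act a b (N * c) d q))).Finite) :
    ∑ᶠ q, k q * (s₁ q - s₁ (act a b (N * c) d q)) =
      ∑ᶠ q, k q * (s₂ q - s₂ (act a b (N * c) d q)) := by
  obtain ⟨f, hfdef⟩ : ∃ f : ℤ × ℤ × ℤ → ℤ, f = fun q => k q * (s₁ q - s₂ q) := ⟨_, rfl⟩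
  rw [← hfdef] at hf
  have hf' := fin_eqv hf (eqv a b (N * c) d h)
  have e : ∀ q, k q * (s₂ q - s₂ (act a b (N * c) d q)) =
      k q * (s₁ q - s₁ (act a b (N * c) d q)) - (f q - f (eqv a b (N * c) d h q)) := by
    intro q
    have hk := H.inv h q
    show _ = _ - (_ - f (act a b (N * c) d q))
    rw [hfdef]
    simp only
    rw [hk]
    ring
  rw [finsum_congr e, finsum_sub_distrib h1, finsum_sub_distrib hf hf', sum_eqv, sub_self, sub_zero]
  exact (hf.union hf').subset (Function.support_sub _ _)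

/-- the homomorphism computed with another base point -/
theorem Phi_base (H : Wt N D k) {s : ℤ × ℤ × ℤ → ℤ}
    (hf : (Function.support fun q => k q * (Int.sign (tr q) - s q)).Finite) {a b c d : ℤ}
    (h : a * d - b * (N * c) = 1) :
    Phi N k a b c d = ∑ᶠ q, k q * (s q - s (act a b (N * c) d q)) :=
  base H (s₁ := fun q => Int.sign (tr q)) hf h (V_fin H h)

theorem ev_lf (q : ℤ × ℤ × ℤ) (x m : ℤ) :
    ev q x m = x ^ 2 * q.1 + (x * m) * q.2.1 + m ^ 2 * q.2.2 := by
  unfold ev
  ring

theorem cusp_fin (H : Wt N D k) {x m : ℤ} (hxm : x ≠ 0 ∨ m ≠ 0)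
    (hv : ∀ q, k q ≠ 0 → ev q x m ≠ 0) :
    (Function.support fun q => k q * (Int.sign (tr q) - Int.sign (ev q x m))).Finite := by
  have hs : 0 < x ^ 2 + m ^ 2 := by
    rcases hxm with h | h
    · positivity
    · positivity
  have h1 := F_fin H (α := x ^ 2) (β := x * m) (γ := m ^ 2) hs
    (by have : x ^ 2 * m ^ 2 - (x * m) ^ 2 = 0 := by ring
        rw [this])
    (Or.inr fun q hq => by rw [← ev_lf]; exact hv q hq)
  refine h1.subset ?_
  intro q hq
  unfold F
  rw [Function.mem_support, ← ev_lf]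
  exact hq

/-- the homomorphism at a cusp where no form of the support vanishes -/
theorem Phi_cusp (H : Wt N D k) {x m : ℤ} (hxm : x ≠ 0 ∨ m ≠ 0)
    (hv : ∀ q, k q ≠ 0 → ev q x m ≠ 0) {a b c d : ℤ} (h : a * d - b * (N * c) = 1) :
    Phi N k a b c d = ∑ᶠ q, k q * (Int.sign (ev q x m) -
      Int.sign (ev q (a * x + b * m) (N * c * x + d * m))) := by
  rw [Phi_base H (cusp_fin H hxm hv) h]
  apply finsum_congr
  intro q
  rw [ev_act]

/-! ### sums over a family -/

theorem shift_sum {w f : ℤ → ℤ} {L : ℤ} (hw : ∀ C, w (C + L) = w C)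
    (hf : (Function.support f).Finite) : ∑ᶠ C, w C * (f C - f (C + L)) = 0 := by
  have f1 : (Function.support fun C => w C * f C).Finite :=
    hf.subset (Function.support_mul_subset_right _ _)
  have f2 : (Function.support fun C => (fun C => w C * f C) (C + L)).Finite :=
    f1.preimage ((Equiv.addRight L).injective.injOn)
  have e : ∀ C, w C * (f C - f (C + L)) = w C * f C - (fun C => w C * f C) (C + L) := by
    intro C
    simp only [hw]
    ring
  rw [finsum_congr e, finsum_sub_distrib f1 f2, sub_eq_zero]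
  exact (finsum_comp_equiv (Equiv.addRight L) (f := fun C => w C * f C)).symm

/-- the step function -/
def h0 (C : ℤ) : ℤ := if 0 ≤ C then 1 else -1

theorem h0_sum {w : ℤ → ℤ} {L : ℤ} (hL : 0 < L) :
    (Function.support fun C => w C * (h0 C - h0 (C + L))).Finite ∧
    ∑ᶠ C, w C * (h0 C - h0 (C + L)) = -2 * ∑ C ∈ Ico (-L) 0, w C := by
  have hs : Function.support (fun C => w C * (h0 C - h0 (C + L))) ⊆ ((Ico (-L) 0 : Finset ℤ) : Set ℤ) := by
    intro C hC
    rw [Finset.coe_Ico, Set.mem_Ico]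
    by_contra h
    apply hC
    show w C * (h0 C - h0 (C + L)) = 0
    unfold h0
    rw [not_and_or, not_le, not_lt] at h
    rcases h with h | h
    · rw [if_neg (by omega), if_neg (by omega), sub_self, mul_zero]
    · rw [if_pos (by omega), if_pos (by omega), sub_self, mul_zero]
  refine ⟨(Finset.finite_toSet _).subset hs, ?_⟩
  rw [finsum_eq_sum_of_support_subset _ hs, Finset.mul_sum]
  refine Finset.sum_congr rfl fun C hC => ?_
  rw [Finset.mem_Ico] at hC
  unfold h0
  rw [if_neg (by omega), if_pos (by omega)]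
  ring

theorem mean_shift {w : ℤ → ℤ} {L : ℤ} (hw : ∀ C, w (C + L) = w C) :
    ∑ C ∈ Ico (-L) 0, w C = ∑ C ∈ Ico 0 L, w C := by
  refine Finset.sum_bij' (fun C _ => C + L) (fun C _ => C - L) ?_ ?_ ?_ ?_ ?_
  · intro C hC
    rw [Finset.mem_Ico] at hC ⊢
    omega
  · intro C hC
    rw [Finset.mem_Ico] at hC ⊢
    omega
  · intro C _
    omega
  · intro C _
    omega
  · intro C _
    rw [hw]

/-- the sum of a periodic function of mean zero against the difference of a step function -/
theorem step_sum {w h : ℤ → ℤ} {L K : ℤ} (hL : 0 < L) (hw : ∀ C, w (C + L) = w C)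
    (hm : ∑ C ∈ Ico 0 L, w C = 0) (h1 : ∀ C, K ≤ C → h C = 1) (h2 : ∀ C, C ≤ -K → h C = -1) :
    ∑ᶠ C, w C * (h C - h (C + L)) = 0 := by
  have ff : (Function.support fun C => h C - h0 C).Finite := by
    refine (Set.finite_Icc (-|K|) |K|).subset ?_
    intro C hC
    rw [Set.mem_Icc]
    by_contra hh
    apply hC
    show h C - h0 C = 0
    have k1 := le_abs_self K
    have k2 := abs_nonneg K
    rw [not_and_or, not_le, not_le] at hh
    unfold h0
    rcases hh with hh | hh
    · rw [h2 C (by linarith), if_neg (by omega), sub_self]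
    · rw [h1 C (by linarith), if_pos (by omega), sub_self]
  have a1 := shift_sum hw ff
  obtain ⟨a2, a3⟩ := h0_sum (w := w) hL
  rw [mean_shift hw, hm, mul_zero] at a3
  have f1 : (Function.support fun C => w C * ((h C - h0 C) - (h (C + L) - h0 (C + L)))).Finite := by
    refine ((ff.union (ff.preimage ((Equiv.addRight L).injective.injOn)))).subset ?_
    intro C hC
    by_contra hh
    rw [Set.mem_union, not_or, Function.notMem_support] at hh
    apply hC
    have hh2 : h (C + L) - h0 (C + L) = 0 := by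
      by_contra h3
      exact hh.2 h3
    show w C * ((h C - h0 C) - (h (C + L) - h0 (C + L))) = 0
    rw [hh.1, hh2]
    ring
  have e : ∀ C, w C * (h C - h (C + L)) = w C * ((h C - h0 C) - (h (C + L) - h0 (C + L))) +
      w C * (h0 C - h0 (C + L)) := fun C => by ring
  rw [finsum_congr e, finsum_add_distrib f1 a2, a1, a3, add_zero]

/-- the same with a shift of any sign -/
theorem step_sum' {w h : ℤ → ℤ} {L K b : ℤ} (hL : 0 < L) (hb : b = L ∨ b = -L)
    (hw : ∀ C, w (C + L) = w C)
    (hm : ∑ C ∈ Ico 0 L, w C = 0) (h1 : ∀ C, K ≤ C → h C = 1) (h2 : ∀ C, C ≤ -K → h C = -1) :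
    ∑ᶠ C, w C * (h C - h (C + b)) = 0 := by
  rcases hb with rfl | rfl
  · exact step_sum hL hw hm h1 h2
  · have a1 := step_sum hL hw hm h1 h2
    rw [← finsum_comp_equiv (Equiv.addRight (-L))] at a1
    have e : ∀ C, w (Equiv.addRight (-L) C) * (h (Equiv.addRight (-L) C) -
        h (Equiv.addRight (-L) C + L)) = -(w C * (h C - h (C + -L))) := by
      intro C
      have e1 : (Equiv.addRight (-L)) C = C + -L := rfl
      have e2 : w (C + -L) = w C := by
        rw [← hw (C + -L), neg_add_cancel_right]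
      rw [e1, e2, neg_add_cancel_right]
      ring
    rw [finsum_congr e, finsum_neg_distrib] at a1
    exact neg_eq_zero.1 a1

/-! ### parabolic elements -/

theorem disc_act {a b c d : ℤ} (h : a * d - b * c = 1) (q : ℤ × ℤ × ℤ) :
    (act a b c d q).2.1 ^ 2 - 4 * (act a b c d q).1 * (act a b c d q).2.2 =
      q.2.1 ^ 2 - 4 * q.1 * q.2.2 := by
  unfold act
  simp only
  linear_combination (q.2.1 ^ 2 - 4 * q.1 * q.2.2) * (a * d - b * c + 1) * h

/-- **the value at a parabolic element**: the cusp is `x / m`, its width `w`; the forms vanishing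
there are the images of the forms `(0, ± A, C)` -/
theorem Phi_parab {A : ℤ} (hA : 0 < A) (H : Wt N (A ^ 2) k) {x x' m m' w n : ℤ}
    (hσ : x * m' - x' * m = 1) (hw0 : 0 < w) (hn : w * m ^ 2 = N * n)
    (hmean : ∀ b, b = A ∨ b = -A → ∃ c0 : ℤ,
      (∀ C : ℤ, k (act m' (-x') (-m) x (0, b, C)) ≠ 0 → w ∣ C - c0) ∧
      ∑ j ∈ Ico 0 A, k (act m' (-x') (-m) x (0, b, c0 + w * j)) = 0) :
    Phi N k (1 - w * x * m) (w * x ^ 2) (-n) (1 + w * x * m) = 0 := by
  classical
  have hdet : (1 - w * x * m) * (1 + w * x * m) - w * x ^ 2 * (N * -n) = 1 := by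
    linear_combination (-(w * x ^ 2)) * hn
  have hσ' : m' * x - (-x') * (-m) = 1 := by linear_combination hσ
  have hxm : x ≠ 0 ∨ m ≠ 0 := by
    by_contra hcon
    rw [not_or, not_not, not_not] at hcon
    rw [hcon.1, hcon.2] at hσ
    norm_num at hσ
  have hS : 0 < x ^ 2 + m ^ 2 := by
    rcases hxm with h | h
    · positivity
    · positivity
  -- the element in terms of the cusp
  have hP : ∀ (b C : ℤ), act (1 - w * x * m) (w * x ^ 2) (N * -n) (1 + w * x * m)
      (act m' (-x') (-m) x (0, b, C)) = act m' (-x') (-m) x (0, b, C + w * b) := by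
    intro b C
    have e1 : N * -n = -(w * m ^ 2) := by linear_combination hn
    rw [e1, act_act]
    have e2 : act 1 w 0 1 (0, b, C) = (0, b, C + w * b) := by
      unfold act
      simp only [Prod.mk.injEq]
      refine ⟨by ring, by ring, by ring⟩
    rw [← e2, act_act]
    have e3 : m' * (1 - w * x * m) + -x' * -(w * m ^ 2) = 1 * m' + w * -m := by
      linear_combination (-(w * m)) * hσ
    have e4 : m' * (w * x ^ 2) + -x' * (1 + w * x * m) = 1 * -x' + w * x := by
      linear_combination (w * x) * hσ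
    have e5 : -m * (1 - w * x * m) + x * -(w * m ^ 2) = 0 * m' + 1 * -m := by ring
    have e6 : -m * (w * x ^ 2) + x * (1 + w * x * m) = 0 * -x' + 1 * x := by ring
    rw [e3, e4, e5, e6]
  have hevP : ∀ q, ev (act (1 - w * x * m) (w * x ^ 2) (N * -n) (1 + w * x * m) q) x m = ev q x m := by
    intro q
    rw [ev_act]
    have e1 : (1 - w * x * m) * x + w * x ^ 2 * m = x := by ring
    have e2 : N * -n * x + (1 + w * x * m) * m = m := by linear_combination x * hn
    rw [e1, e2]
  -- the part which does not vanish at the cusp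
  set k1 : ℤ × ℤ × ℤ → ℤ := fun q => if ev q x m = 0 then 0 else k q with hk1
  -- splitting
  set G1 : ℤ × ℤ × ℤ → ℤ := fun q => if ev q x m = 0 then 0 else
    k q * (Int.sign (tr q) - Int.sign (ev q x m)) with hG1
  have fG1 : (Function.support G1).Finite := by
    refine (fin_sep (D := A ^ 2) (by positivity) (α := x ^ 2) (β := x * m) (γ := m ^ 2) hS
      (by have : x ^ 2 * m ^ 2 - (x * m) ^ 2 = 0 := by ring
          rw [this])).subset ?_
    intro q hq
    have hq' : G1 q ≠ 0 := hq
    rw [hG1] at hq'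
    simp only [ne_eq, ite_eq_left_iff, Classical.not_imp] at hq'
    obtain ⟨h1, h2⟩ := hq'
    have h0 : k q ≠ 0 := fun h0 => h2 (by rw [h0, zero_mul])
    refine ⟨H.disc q h0, ?_, Or.inr ?_⟩
    · rw [← ev_lf]
      intro h3
      exact h2 (by rw [h3, sub_self, mul_zero])
    · rw [← ev_lf]
      exact h1
  -- the part which vanishes
  set Z : ℤ → ℤ × ℤ × ℤ → ℤ := fun b q => if ev q x m = 0 ∧ (act x x' m m' q).2.1 = b then
    V k (1 - w * x * m) (w * x ^ 2) (N * -n) (1 + w * x * m) q else 0 with hZ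
  have hVfin := V_fin H hdet
  have fZ : ∀ b, (Function.support (Z b)).Finite := by
    intro b
    refine hVfin.subset ?_
    intro q hq h1
    apply hq
    show (if ev q x m = 0 ∧ (act x x' m m' q).2.1 = b then
      V k (1 - w * x * m) (w * x ^ 2) (N * -n) (1 + w * x * m) q else 0) = 0
    rw [h1, ite_self]
  -- the form in coordinates at the cusp
  have hcoord : ∀ q, ev q x m = 0 → q = act m' (-x') (-m) x (0, (act x x' m m' q).2.1,
      (act x x' m m' q).2.2) := by
    intro q hq
    have h1 := act_inv hσ q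
    have h2 : act x x' m m' q = (0, (act x x' m m' q).2.1, (act x x' m m' q).2.2) := by
      have h3 : (act x x' m m' q).1 = 0 := by
        have : (act x x' m m' q).1 = ev q x m := by
          unfold act ev
          ring
        rw [this, hq]
      exact Prod.ext h3 rfl
    rw [← h2]
    exact h1.symm
  have hback : ∀ b C, ev (act m' (-x') (-m) x (0, b, C)) x m = 0 ∧
      act x x' m m' (act m' (-x') (-m) x (0, b, C)) = (0, b, C) := by
    intro b C
    have h1 := act_inv hσ' (0, b, C)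
    rw [neg_neg, neg_neg] at h1
    refine ⟨?_, h1⟩
    have h2 : ev (act m' (-x') (-m) x (0, b, C)) x m = ev (0, b, C) 1 0 := by
      rw [ev_act]
      congr 1
      · linear_combination hσ
      · ring
    rw [h2]
    unfold ev
    ring
  have hsplit : ∀ q, V k (1 - w * x * m) (w * x ^ 2) (N * -n) (1 + w * x * m) q =
      (G1 q - G1 (eqv _ _ _ _ hdet q)) + (Z A q + Z (-A) q) := by
    intro q
    have hk := H.inv hdet q
    show _ = (G1 q - G1 (act (1 - w * x * m) (w * x ^ 2) (N * -n) (1 + w * x * m) q)) +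
      (Z A q + Z (-A) q)
    simp only [hG1, hZ, hevP]
    by_cases h1 : ev q x m = 0
    · rw [if_pos h1, if_pos h1, sub_self, zero_add]
      by_cases h0 : k q = 0
      · have : V k (1 - w * x * m) (w * x ^ 2) (N * -n) (1 + w * x * m) q = 0 := by
          unfold V
          rw [h0, zero_mul]
        rw [this, ite_self, ite_self, add_zero]
      · have hd := H.disc q h0
        have h2 : (act x x' m m' q).2.1 ^ 2 = A ^ 2 := by
          have h3 := disc_act hσ q
          rw [hd] at h3
          have h4 : (act x x' m m' q).1 = 0 := by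
            have : (act x x' m m' q).1 = ev q x m := by
              unfold act ev
              ring
            rw [this, h1]
          rw [h4] at h3
          linear_combination h3
        rcases sq_eq_sq_iff_eq_or_eq_neg.1 h2 with h3 | h3
        · rw [if_pos ⟨h1, h3⟩, if_neg, add_zero]
          rintro ⟨-, h4⟩
          rw [h3] at h4
          omega
        · rw [if_neg, if_pos ⟨h1, h3⟩, zero_add]
          rintro ⟨-, h4⟩
          rw [h3] at h4
          omega
    · rw [if_neg h1, if_neg h1, if_neg (fun h => h1 h.1), if_neg (fun h => h1 h.1), hk]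
      unfold V
      ring
  have hZ0 : ∀ b, b = A ∨ b = -A → ∑ᶠ q, Z b q = 0 := by
    intro b hb
    obtain ⟨c0, hc1, hc2⟩ := hmean b hb
    set i : ℤ → ℤ × ℤ × ℤ := fun j => act m' (-x') (-m) x (0, b, c0 + w * j) with hi
    have hinj : Function.Injective i := by
      intro j j' hj
      have h1 := (hback b (c0 + w * j)).2
      have h2 := (hback b (c0 + w * j')).2
      have h3 : act m' (-x') (-m) x (0, b, c0 + w * j) = act m' (-x') (-m) x (0, b, c0 + w * j') := hj
      rw [h3, h2] at h1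
      simp only [Prod.mk.injEq, true_and] at h1
      have h4 : w * j' = w * j := by linarith
      exact (mul_left_cancel₀ hw0.ne' h4).symm
    have hrange : ∀ q, Z b q ≠ 0 → q ∈ Set.range i := by
      intro q hq
      have hq' : (if ev q x m = 0 ∧ (act x x' m m' q).2.1 = b then
        V k (1 - w * x * m) (w * x ^ 2) (N * -n) (1 + w * x * m) q else 0) ≠ 0 := hq
      simp only [ne_eq, ite_eq_right_iff, Classical.not_imp] at hq'
      obtain ⟨⟨h1, h2⟩, h3⟩ := hq'
      have h4 : k q ≠ 0 := by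
        intro h4
        apply h3
        unfold V
        rw [h4, zero_mul]
      have h5 := hcoord q h1
      rw [h2] at h5
      have h6 := hc1 (act x x' m m' q).2.2 (by rw [← h5]; exact h4)
      obtain ⟨j, hj⟩ := h6
      refine ⟨j, ?_⟩
      show act m' (-x') (-m) x (0, b, c0 + w * j) = q
      rw [h5]
      congr 3
      linarith
    rw [finsum_family hinj hrange]
    -- the terms
    set h : ℤ → ℤ := fun j => Int.sign (tr (i j)) with hh
    have hterm : ∀ j, Z b (i j) = k (i j) * (h j - h (j + b)) := by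
      intro j
      have h1 := hback b (c0 + w * j)
      have h2 : ev (i j) x m = 0 ∧ (act x x' m m' (i j)).2.1 = b := ⟨h1.1, by
        show (act x x' m m' (act m' (-x') (-m) x (0, b, c0 + w * j))).2.1 = b
        rw [h1.2]⟩
      show (if ev (i j) x m = 0 ∧ (act x x' m m' (i j)).2.1 = b then
        V k (1 - w * x * m) (w * x ^ 2) (N * -n) (1 + w * x * m) (i j) else 0) = _
      rw [if_pos h2]
      unfold V
      have h3 : act (1 - w * x * m) (w * x ^ 2) (N * -n) (1 + w * x * m) (i j) = i (j + b) := by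
        show act _ _ _ _ (act m' (-x') (-m) x (0, b, c0 + w * j)) =
          act m' (-x') (-m) x (0, b, c0 + w * (j + b))
        rw [hP]
        congr 3
        ring
      rw [h3]
    rw [finsum_congr hterm]
    have htr : ∀ j, tr (i j) = (tr (i 0)) + w * (x ^ 2 + m ^ 2) * j := by
      intro j
      show tr (act m' (-x') (-m) x (0, b, c0 + w * j)) = tr (act m' (-x') (-m) x (0, b, c0 + w * 0)) + _
      rw [tr_act, tr_act]
      ring
    have hper : ∀ j, k (i (j + A)) = k (i j) := by
      have h1 : ∀ j, k (i (j + b)) = k (i j) := by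
        intro j
        have h3 : act (1 - w * x * m) (w * x ^ 2) (N * -n) (1 + w * x * m) (i j) = i (j + b) := by
          show act _ _ _ _ (act m' (-x') (-m) x (0, b, c0 + w * j)) =
            act m' (-x') (-m) x (0, b, c0 + w * (j + b))
          rw [hP]
          congr 3
          ring
        rw [← h3, H.inv hdet]
      intro j
      rcases hb with hb | hb
      · rw [hb] at h1
        exact h1 j
      · have h2 := h1 (j + A)
        rw [hb, add_neg_cancel_right] at h2
        exact h2.symm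
    have hwS : 1 ≤ w * (x ^ 2 + m ^ 2) := by
      have := mul_pos hw0 hS
      omega
    refine step_sum' (w := fun j => k (i j)) (h := h) (L := A) (K := |tr (i 0)| + 1) hA hb hper hc2 ?_ ?_
    · intro j hj
      show Int.sign (tr (i j)) = 1
      rw [htr j]
      have h1 := neg_abs_le (tr (i 0))
      have h2 := abs_nonneg (tr (i 0))
      refine Int.sign_eq_one_of_pos ?_
      nlinarith
    · intro j hj
      show Int.sign (tr (i j)) = -1
      rw [htr j]
      have h1 := le_abs_self (tr (i 0))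
      have h2 := abs_nonneg (tr (i 0))
      refine Int.sign_eq_neg_one_of_neg ?_
      nlinarith
  unfold Phi
  have fG2 := fin_eqv fG1 (eqv _ _ _ _ hdet)
  rw [finsum_congr hsplit, finsum_add_distrib ((fG1.union fG2).subset (Function.support_sub _ _))
    (((fZ A).union (fZ (-A))).subset (Function.support_add _ _)),
    finsum_sub_distrib fG1 fG2, sum_eqv, sub_self, zero_add, finsum_add_distrib (fZ A) (fZ (-A)),
    hZ0 A (Or.inl rfl), hZ0 (-A) (Or.inr rfl), add_zero]

end

end Pool.Agent.N975.Ph
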